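import Pool.Agent.Lib.MP_09cbbd_sw.Ent
import Pool.Agent.Lib.MP_09cbbd_kc.Glue

/-!
# Two kinds of hard particles as a gas on cells: the abstract lattice model
-/

set_option autoImplicit false

namespace Pool.Agent.Mix

open MeasureTheory Finset Filter Topology Pool.Agent.StableGas Pool.Agent.SquareWell
open Pool.Agent.Kac (Tor cst)

/-- The cube `{-r, …, r}^d`. -/
noncomputable def Qr (d r : ℕ) : Finset (Zd d) := Fintype.piFinset fun _ => Finset.Icc (-(r : ℤ)) r

variable {d : ℕ}

theorem mem_Qr {r : ℕ} {v : Zd d} : v ∈ Qr d r ↔ ∀ k, |v k| ≤ r := by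
  simp [Qr, Fintype.mem_piFinset, abs_le]

/-- The data of a gas of two kinds `A`, `B` of hard particles on cells. `E` are the contents of a
cell, `π` the a priori measure, `e0` the empty content, `nA` and `nB` the numbers of the particles
(a content with `1 ≤ nA` is of type `A`, a content with `1 ≤ nB` is of type `B`, the other contents
are vacua), and `ok v x y` says that the content `x` of a cell `i` is compatible with the content
`y` of the cell `i + v`. `SA` and `SB` are the ranges of the exclusion between contents of the same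
type, `r` is the range of the exclusion between contents of different types; these are never
compatible at a distance in `SA + SB + Q_2`. -/
structure Mx (d : ℕ) (E : Type) [MeasurableSpace E] where
  π : Measure E
  e0 : E
  nA : E → ℕ
  nB : E → ℕ
  ok : Zd d → E → E → Prop
  SA : Finset (Zd d)
  SB : Finset (Zd d)
  r : ℕ
  N : ℕ
  measurable_nA : Measurable nA
  measurable_nB : Measurable nB
  measurableSet_ok : ∀ v, MeasurableSet {p : E × E | ok v p.1 p.2}
  hr : 1 ≤ r
  nA_le : ∀ x, nA x ≤ N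
  nB_le : ∀ x, nB x ≤ N
  not_AB : ∀ x, nA x = 0 ∨ nB x = 0
  nA_e0 : nA e0 = 0
  nB_e0 : nB e0 = 0
  π_fin : π Set.univ ≠ ⊤
  π_e0 : π {e0} = 1
  π_vac : π {x | nA x = 0 ∧ nB x = 0} = 1
  ok_symm : ∀ v x y, ok v x y → ok (-v) y x
  ok_vac : ∀ v x y, nA x = 0 → nB x = 0 → ok v x y
  ok_A : ∀ v x y, 1 ≤ nA x → 1 ≤ nA y → v ∉ SA → ok v x y
  ok_B : ∀ v x y, 1 ≤ nB x → 1 ≤ nB y → v ∉ SB → ok v x y
  ok_AB : ∀ v x y, 1 ≤ nA x → 1 ≤ nB y → v ∉ Qr d r → ok v x y
  no_AB : ∀ v x y, 1 ≤ nA x → 1 ≤ nB y → ∀ a ∈ SA, ∀ b ∈ SB, v - a - b ∈ Qr d 2 → ¬ ok v x y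
  zero_SA : (0 : Zd d) ∈ SA
  zero_SB : (0 : Zd d) ∈ SB
  SA_neg : ∀ v ∈ SA, -v ∈ SA
  SB_neg : ∀ v ∈ SB, -v ∈ SB
  SA_r : ∀ v ∈ SA, v ∈ Qr d r
  SB_r : ∀ v ∈ SB, v ∈ Qr d r

namespace Mx

variable {E : Type} [MeasurableSpace E] (M : Mx d E)

/-- Exchange of the two kinds. -/
def swap : Mx d E where
  π := M.π
  e0 := M.e0
  nA := M.nB
  nB := M.nA
  ok := M.ok
  SA := M.SB
  SB := M.SA
  r := M.r
  N := M.N
  measurable_nA := M.measurable_nB
  measurable_nB := M.measurable_nA
  measurableSet_ok := M.measurableSet_ok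
  hr := M.hr
  nA_le := M.nB_le
  nB_le := M.nA_le
  not_AB := fun x => (M.not_AB x).symm
  nA_e0 := M.nB_e0
  nB_e0 := M.nA_e0
  π_fin := M.π_fin
  π_e0 := M.π_e0
  π_vac := by
    rw [← M.π_vac]
    congr 1
    ext x
    simp only [Set.mem_ofPred_eq]
    tauto
  ok_symm := M.ok_symm
  ok_vac := fun v x y h h' => M.ok_vac v x y h' h
  ok_A := M.ok_B
  ok_B := M.ok_A
  ok_AB := fun v x y hx hy hv => by
    have h : -v ∉ Qr d M.r := fun h => hv (by
      rw [mem_Qr] at h ⊢
      intro k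
      have := h k
      rwa [Pi.neg_apply, abs_neg] at this)
    have := M.ok_symm _ _ _ (M.ok_AB (-v) y x hy hx h)
    rwa [neg_neg] at this
  no_AB := fun v x y hx hy a ha b hb hv h => by
    refine M.no_AB (-v) y x hy hx (-b) (M.SA_neg b hb) (-a) (M.SB_neg a ha) ?_ (M.ok_symm _ _ _ h)
    have e : -v - -b - -a = -(v - a - b) := by abel
    rw [e, mem_Qr]
    rw [mem_Qr] at hv
    intro k
    rw [Pi.neg_apply, abs_neg]
    exact hv k
  zero_SA := M.zero_SB
  zero_SB := M.zero_SA
  SA_neg := M.SB_neg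
  SB_neg := M.SA_neg
  SA_r := M.SB_r
  SB_r := M.SA_r

theorem swap_swap : M.swap.swap = M := rfl

/-- Weight of a cell. -/
noncomputable def st (μ t : ℝ) (x : E) : ENNReal := ex (μ * M.nA x + t * M.nB x)

/-- The contents of the cells of `A` are compatible, for an index group `Γ` with a map `φ` from the
lattice. -/
def cp {Γ : Type} [AddCommGroup Γ] (φ : Zd d → Γ) (A : Finset Γ) (ω : Γ → E) : Prop :=
  ∀ v ∈ Qr d M.r, v ≠ 0 → ∀ i ∈ A, i + φ v ∈ A → M.ok v (ω i) (ω (i + φ v))

/-- Weight of a configuration in `A` with the fields `m` and `τ`. -/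
noncomputable def wG {Γ : Type} [AddCommGroup Γ] (φ : Zd d → Γ) (m τ : Γ → ℝ)
    (A : Finset Γ) (ω : Γ → E) : ENNReal := by
  classical exact (∏ i ∈ A, M.st (m i) (τ i) (ω i)) * if M.cp φ A ω then 1 else 0

/-- Weight of a configuration in `A`. -/
noncomputable def w (μ t : ℝ) (A : Finset (Zd d)) (ω : Zd d → E) : ENNReal :=
  M.wG id (fun _ => μ) (fun _ => t) A ω

/-- Integral over the contents of the cells of `A` (the other cells are empty). -/
noncomputable def int (A : Finset (Zd d)) (f : (Zd d → E) → ENNReal) : ENNReal :=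
  lmarginal (fun _ : Zd d => M.π) A f fun _ => M.e0

/-- Grand-canonical partition function. -/
noncomputable def xi (μ t : ℝ) (A : Finset (Zd d)) : ENNReal := M.int A (M.w μ t A)

/-- `p` is the pressure. -/
def IsP (p : ℝ → ℝ → ℝ) : Prop :=
  ∀ μ t, Tendsto (fun L : ℕ => Real.log (M.xi μ t (bx d L)).toReal / (L : ℝ) ^ d) atTop
    (𝓝 (p μ t))

/-- Mass of the contents of type `A`. -/
noncomputable def mA (μ : ℝ) : ENNReal := ∫⁻ x in {x | 1 ≤ M.nA x}, ex (μ * M.nA x) ∂M.π

/-- Mass of the contents of type `B`. -/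
noncomputable def mB (t : ℝ) : ENNReal := ∫⁻ x in {x | 1 ≤ M.nB x}, ex (t * M.nB x) ∂M.π

/-- Partition function of the torus. -/
noncomputable def ZT (L : ℕ) (μ t : ℝ) : ENNReal :=
  ∫⁻ ω : Tor d L → E, M.wG (cst L) (fun _ => μ) (fun _ => t) univ ω ∂(Measure.pi fun _ => M.π)

/-- Partition function of the complement of `A` in the torus, with fields. -/
noncomputable def ZC (L : ℕ) (A : Finset (Tor d L)) (m τ : Tor d L → ℝ) : ENNReal :=
  lmarginal (fun _ : Tor d L => M.π) (univ \ A) (M.wG (cst L) m τ (univ \ A)) fun _ => M.e0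

/-- Configurations in `X` with the `A`-phase at the boundary. -/
def FA (X : Finset (Zd d)) (ω : Zd d → E) : Prop :=
  ∀ j ∈ X, (1 ≤ M.nA (ω j) → ∀ v ∈ M.SA, ∀ q ∈ Qr d 1, j + v + q ∈ X) ∧
    (1 ≤ M.nB (ω j) → ∀ v ∈ Qr d (M.r + 1), j + v ∈ X)

/-- Configurations in `X` with the `B`-phase at the boundary. -/
def FB (X : Finset (Zd d)) (ω : Zd d → E) : Prop := M.swap.FA X ω

/-- The model without the contents of type `B`. -/
noncomputable def onlyA : Mx d E where
  __ := M
  π := M.π.restrict {x | M.nB x = 0}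
  π_fin := ne_top_of_le_ne_top M.π_fin (Measure.restrict_le_self _)
  π_e0 := by
    have h : MeasurableSet {x | M.nB x = 0} := M.measurable_nB (measurableSet_singleton 0)
    rw [Measure.restrict_apply' h, ← M.π_e0]
    congr 1
    ext x
    simp only [Set.mem_inter_iff, Set.mem_singleton_iff, Set.mem_ofPred_eq, and_iff_left_iff_imp]
    rintro rfl
    exact M.nB_e0
  π_vac := by
    have h : MeasurableSet {x | M.nB x = 0} := M.measurable_nB (measurableSet_singleton 0)
    rw [Measure.restrict_apply' h, ← M.π_vac]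
    congr 1
    ext x
    simp only [Set.mem_inter_iff, Set.mem_ofPred_eq]
    tauto

/-- The model without the contents of type `A`. -/
noncomputable def onlyB : Mx d E := M.swap.onlyA.swap

end Mx

end Pool.Agent.Mix
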