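import Pool.Agent.Lib.MP_09cbbd_mix.Defs

/-!
# Elementary facts on the gas of two kinds of hard particles on cells
-/

set_option autoImplicit false

namespace Pool.Agent.Mix

open MeasureTheory Finset Filter Topology Pool.Agent.StableGas Pool.Agent.SquareWell
open Pool.Agent.Kac (Tor cst)

variable {d : ℕ} {E : Type} [MeasurableSpace E] (M : Mx d E)

namespace Bas

/-! ### Products -/

theorem one_le_prod {ι : Type} {s : Finset ι} {f : ι → ENNReal} (h : ∀ i ∈ s, 1 ≤ f i) :
    1 ≤ ∏ i ∈ s, f i := by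
  classical
  induction s using Finset.induction_on with
  | empty => simp
  | insert a s ha ih =>
    rw [prod_insert ha]
    calc (1 : ENNReal) = 1 * 1 := (one_mul 1).symm
      _ ≤ f a * ∏ i ∈ s, f i := mul_le_mul' (h a (mem_insert_self a s))
          (ih fun i hi => h i (mem_insert_of_mem hi))

theorem prod_mono {ι : Type} {s : Finset ι} {f g : ι → ENNReal} (h : ∀ i ∈ s, f i ≤ g i) :
    ∏ i ∈ s, f i ≤ ∏ i ∈ s, g i := Finset.prod_le_prod (fun _ _ => zero_le) h

/-! ### The model -/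

theorem fin_π : IsFiniteMeasure M.π := ⟨lt_top_iff_ne_top.2 M.π_fin⟩

theorem one_le_π : 1 ≤ M.π Set.univ := by
  rw [← M.π_e0]
  exact measure_mono (Set.subset_univ _)

/-- A content is a vacuum, of type `A` or of type `B`. -/
theorem tri (x : E) : (M.nA x = 0 ∧ M.nB x = 0) ∨ (1 ≤ M.nA x ∧ M.nB x = 0) ∨
    (M.nA x = 0 ∧ 1 ≤ M.nB x) := by
  rcases M.not_AB x with h | h
  · rcases Nat.eq_zero_or_pos (M.nB x) with h1 | h1
    · exact Or.inl ⟨h, h1⟩
    · exact Or.inr (Or.inr ⟨h, h1⟩)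
  · rcases Nat.eq_zero_or_pos (M.nA x) with h1 | h1
    · exact Or.inl ⟨h1, h⟩
    · exact Or.inr (Or.inl ⟨h1, h⟩)

theorem measurable_ex {α : Type} [MeasurableSpace α] {F : α → ℝ} (hF : Measurable F) :
    Measurable fun x => ex (F x) := by
  unfold ex
  exact (Real.measurable_exp.comp hF).ennreal_ofReal

theorem measurable_nA' : Measurable fun x : E => (M.nA x : ℝ) :=
  (measurable_from_top (f := fun k : ℕ => (k : ℝ))).comp M.measurable_nA

theorem measurable_nB' : Measurable fun x : E => (M.nB x : ℝ) :=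
  (measurable_from_top (f := fun k : ℕ => (k : ℝ))).comp M.measurable_nB

theorem measurableSet_A : MeasurableSet {x | 1 ≤ M.nA x} :=
  measurableSet_le measurable_const M.measurable_nA

theorem measurableSet_B : MeasurableSet {x | 1 ≤ M.nB x} :=
  measurableSet_le measurable_const M.measurable_nB

theorem measurableSet_nA0 : MeasurableSet {x | M.nA x = 0} :=
  M.measurable_nA (measurableSet_singleton 0)

theorem measurableSet_nB0 : MeasurableSet {x | M.nB x = 0} :=
  M.measurable_nB (measurableSet_singleton 0)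

theorem measurable_st (μ t : ℝ) : Measurable (M.st μ t) := by
  unfold Mx.st
  exact measurable_ex (((measurable_nA' M).const_mul μ).add ((measurable_nB' M).const_mul t))

theorem st_swap (μ t : ℝ) (x : E) : M.swap.st t μ x = M.st μ t x := by
  unfold Mx.st
  rw [add_comm]
  rfl

theorem st_vac {μ t : ℝ} {x : E} (h : M.nA x = 0) (h' : M.nB x = 0) : M.st μ t x = 1 := by
  unfold Mx.st
  rw [h, h']
  simp [ex_zero]

theorem st_A {μ t : ℝ} {x : E} (h' : M.nB x = 0) : M.st μ t x = ex (μ * M.nA x) := by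
  unfold Mx.st
  rw [h']
  simp

theorem st_B {μ t : ℝ} {x : E} (h : M.nA x = 0) : M.st μ t x = ex (t * M.nB x) := by
  unfold Mx.st
  rw [h]
  simp

theorem st_e0 (μ t : ℝ) : M.st μ t M.e0 = 1 := st_vac M M.nA_e0 M.nB_e0

theorem st_le (μ t : ℝ) (x : E) : M.st μ t x ≤ ex ((|μ| + |t|) * M.N) := by
  unfold Mx.st
  rw [ex_le_ex, add_mul]
  have h1 : (M.nA x : ℝ) ≤ M.N := by exact_mod_cast M.nA_le x
  have h0 : (0 : ℝ) ≤ M.nA x := Nat.cast_nonneg _
  have g1 : (M.nB x : ℝ) ≤ M.N := by exact_mod_cast M.nB_le x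
  have g0 : (0 : ℝ) ≤ M.nB x := Nat.cast_nonneg _
  refine add_le_add ?_ ?_
  · calc μ * M.nA x ≤ |μ| * M.nA x := mul_le_mul_of_nonneg_right (le_abs_self μ) h0
      _ ≤ |μ| * M.N := mul_le_mul_of_nonneg_left h1 (abs_nonneg μ)
  · calc t * M.nB x ≤ |t| * M.nB x := mul_le_mul_of_nonneg_right (le_abs_self t) g0
      _ ≤ |t| * M.N := mul_le_mul_of_nonneg_left g1 (abs_nonneg t)

theorem st_mono {μ μ' t t' : ℝ} (h1 : μ ≤ μ') (h2 : t ≤ t') (x : E) :
    M.st μ t x ≤ M.st μ' t' x := by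
  unfold Mx.st
  rw [ex_le_ex]
  exact add_le_add (mul_le_mul_of_nonneg_right h1 (Nat.cast_nonneg _))
    (mul_le_mul_of_nonneg_right h2 (Nat.cast_nonneg _))

theorem ok_e0 (v : Zd d) (y : E) : M.ok v M.e0 y := M.ok_vac v _ _ M.nA_e0 M.nB_e0

theorem ok_vac_right (v : Zd d) {x y : E} (h : M.nA y = 0) (h' : M.nB y = 0) : M.ok v x y := by
  have := M.ok_symm _ _ _ (M.ok_vac (-v) y x h h')
  rwa [neg_neg] at this

theorem ok_e0_right (v : Zd d) (x : E) : M.ok v x M.e0 := ok_vac_right M v M.nA_e0 M.nB_e0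

/-- `A` and `B` on the other side. -/
theorem ok_BA (v : Zd d) {x y : E} (hx : 1 ≤ M.nB x) (hy : 1 ≤ M.nA y) (hv : v ∉ Qr d M.r) :
    M.ok v x y := M.swap.ok_AB v x y hx hy hv

theorem ok_far (v : Zd d) (x y : E) (hv : v ∉ Qr d M.r) : M.ok v x y := by
  rcases tri M x with h | h | h
  · exact M.ok_vac v x y h.1 h.2
  · rcases tri M y with g | g | g
    · exact ok_vac_right M v g.1 g.2
    · exact M.ok_A v x y h.1 g.1 fun hh => hv (M.SA_r v hh)
    · exact M.ok_AB v x y h.1 g.2 hv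
  · rcases tri M y with g | g | g
    · exact ok_vac_right M v g.1 g.2
    · exact ok_BA M v h.2 g.1 hv
    · exact M.ok_B v x y h.2 g.2 fun hh => hv (M.SB_r v hh)

theorem Qr_neg {r : ℕ} {v : Zd d} : -v ∈ Qr d r ↔ v ∈ Qr d r := by
  rw [mem_Qr, mem_Qr]
  simp only [Pi.neg_apply, abs_neg]

theorem zero_mem_Qr (r : ℕ) : (0 : Zd d) ∈ Qr d r := by
  rw [mem_Qr]
  intro k
  simp

theorem Qr_mono {r r' : ℕ} (h : r ≤ r') : Qr d r ⊆ Qr d r' := by
  intro v hv
  rw [mem_Qr] at hv ⊢
  intro k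
  exact (hv k).trans (by exact_mod_cast h)

theorem add_mem_Qr {r r' : ℕ} {u v : Zd d} (hu : u ∈ Qr d r) (hv : v ∈ Qr d r') :
    u + v ∈ Qr d (r + r') := by
  rw [mem_Qr] at *
  intro k
  rw [Pi.add_apply]
  refine (abs_add_le _ _).trans ?_
  push_cast
  exact add_le_add (hu k) (hv k)

theorem card_Qr (r : ℕ) : (Qr d r).card = (2 * r + 1) ^ d := by
  unfold Qr
  rw [Fintype.card_piFinset]
  simp only [Int.card_Icc, prod_const, card_univ, Fintype.card_fin]
  congr 1
  omega

theorem mem_Nb_iff {i j : Zd d} : j ∈ Nb i ↔ j - i ∈ Qr d 1 := by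
  rw [mem_Nb, mem_Qr]
  refine forall_congr' fun k => ?_
  rw [Pi.sub_apply, abs_le]
  push_cast
  constructor <;> intro h <;> constructor <;> omega

theorem mem_Nb_add {i q : Zd d} : i + q ∈ Nb i ↔ q ∈ Qr d 1 := by
  rw [mem_Nb_iff, add_sub_cancel_left]

/-! ### Compatibility and weights -/

section Gen

variable {Γ : Type} [AddCommGroup Γ] (φ : Zd d → Γ)

theorem measurableSet_cp (A : Finset Γ) : MeasurableSet {ω : Γ → E | M.cp φ A ω} := by
  classical
  have e : {ω : Γ → E | M.cp φ A ω} = ⋂ v ∈ (Qr d M.r).erase 0,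
      ⋂ i ∈ A.filter (fun i => i + φ v ∈ A), {ω : Γ → E | M.ok v (ω i) (ω (i + φ v))} := by
    ext ω
    simp only [Mx.cp, Set.mem_ofPred_eq, Set.mem_iInter, mem_erase, mem_filter]
    constructor
    · intro h v hv i hi
      exact h v hv.2 hv.1 i hi.1 hi.2
    · intro h v hv h0 i hi hi2
      exact h v ⟨h0, hv⟩ i ⟨hi, hi2⟩
  rw [e]
  refine Finset.measurableSet_biInter _ fun v _ => Finset.measurableSet_biInter _ fun i _ => ?_
  have h : Measurable fun a : Γ → E => (a i, a (i + φ v)) :=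
    (measurable_pi_apply i).prodMk (measurable_pi_apply (i + φ v))
  exact h (M.measurableSet_ok v)

theorem wG_of_cp {m τ : Γ → ℝ} {A : Finset Γ} {ω : Γ → E} (h : M.cp φ A ω) :
    M.wG φ m τ A ω = ∏ i ∈ A, M.st (m i) (τ i) (ω i) := by
  unfold Mx.wG
  rw [if_pos h, mul_one]

theorem wG_of_not {m τ : Γ → ℝ} {A : Finset Γ} {ω : Γ → E} (h : ¬ M.cp φ A ω) :
    M.wG φ m τ A ω = 0 := by
  unfold Mx.wG
  rw [if_neg h, mul_zero]

theorem wG_eq_indicator (m τ : Γ → ℝ) (A : Finset Γ) : M.wG φ m τ A =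
    {ω : Γ → E | M.cp φ A ω}.indicator fun ω => ∏ i ∈ A, M.st (m i) (τ i) (ω i) := by
  funext ω
  by_cases h : M.cp φ A ω
  · rw [wG_of_cp M φ h, Set.indicator_of_mem (show ω ∈ {ω : Γ → E | M.cp φ A ω} from h)]
  · rw [wG_of_not M φ h, Set.indicator_of_notMem (show ω ∉ {ω : Γ → E | M.cp φ A ω} from h)]

theorem measurable_wG (m τ : Γ → ℝ) (A : Finset Γ) : Measurable (M.wG φ m τ A) := by
  rw [wG_eq_indicator]
  exact (Finset.measurable_prod _ fun i _ => (measurable_st M _ _).comp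
    (measurable_pi_apply i)).indicator (measurableSet_cp M φ A)

theorem cp_dep {A : Finset Γ} {x y : Γ → E} (h : ∀ i ∈ A, x i = y i) :
    M.cp φ A x ↔ M.cp φ A y := by
  unfold Mx.cp
  constructor
  · intro g v hv h0 i hi hi2
    rw [← h i hi, ← h _ hi2]
    exact g v hv h0 i hi hi2
  · intro g v hv h0 i hi hi2
    rw [h i hi, h _ hi2]
    exact g v hv h0 i hi hi2

theorem cp_mono {A B : Finset Γ} (hAB : A ⊆ B) {ω : Γ → E} (h : M.cp φ B ω) : M.cp φ A ω :=
  fun v hv h0 i hi hi2 => h v hv h0 i (hAB hi) (hAB hi2)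

theorem wG_dep (m τ : Γ → ℝ) (A : Finset Γ) {x y : Γ → E} (h : ∀ i ∈ A, x i = y i) :
    M.wG φ m τ A x = M.wG φ m τ A y := by
  by_cases hx : M.cp φ A x
  · rw [wG_of_cp M φ hx, wG_of_cp M φ ((cp_dep M φ h).1 hx)]
    exact prod_congr rfl fun i hi => by rw [h i hi]
  · rw [wG_of_not M φ hx, wG_of_not M φ fun hy => hx ((cp_dep M φ h).2 hy)]

theorem wG_congr {m τ m' τ' : Γ → ℝ} {A : Finset Γ} (h : ∀ i ∈ A, m i = m' i)
    (h' : ∀ i ∈ A, τ i = τ' i) (ω : Γ → E) : M.wG φ m τ A ω = M.wG φ m' τ' A ω := by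
  unfold Mx.wG
  congr 1
  exact prod_congr rfl fun i hi => by rw [h i hi, h' i hi]

theorem wG_mono {m τ m' τ' : Γ → ℝ} {A : Finset Γ} (h : ∀ i ∈ A, m i ≤ m' i)
    (h' : ∀ i ∈ A, τ i ≤ τ' i) (ω : Γ → E) : M.wG φ m τ A ω ≤ M.wG φ m' τ' A ω := by
  unfold Mx.wG
  exact mul_le_mul' (prod_mono fun i hi => st_mono M (h i hi) (h' i hi) _) le_rfl

theorem wG_le {m τ : Γ → ℝ} {A : Finset Γ} (ω : Γ → E) :
    M.wG φ m τ A ω ≤ ∏ i ∈ A, M.st (m i) (τ i) (ω i) := by
  by_cases h : M.cp φ A ω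
  · rw [wG_of_cp M φ h]
  · rw [wG_of_not M φ h]
    exact zero_le

theorem wG_bound (m τ : Γ → ℝ) (A : Finset Γ) (ω : Γ → E) :
    M.wG φ m τ A ω ≤ ex (∑ i ∈ A, (|m i| + |τ i|) * M.N) := by
  refine (wG_le M φ ω).trans ?_
  rw [← prod_ex]
  exact prod_mono fun i _ => st_le M _ _ _

omit [AddCommGroup Γ] in
/-- The energy as a sum. -/
theorem prod_st (μ t : ℝ) (A : Finset Γ) (ω : Γ → E) : ∏ i ∈ A, M.st μ t (ω i) =
    ex (μ * ∑ i ∈ A, (M.nA (ω i) : ℝ) + t * ∑ i ∈ A, (M.nB (ω i) : ℝ)) := by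
  unfold Mx.st
  rw [prod_ex, mul_sum, mul_sum, sum_add_distrib]

theorem wG_eq (μ t : ℝ) (A : Finset Γ) (ω : Γ → E) : M.wG φ (fun _ => μ) (fun _ => t) A ω =
    ex (μ * ∑ i ∈ A, (M.nA (ω i) : ℝ) + t * ∑ i ∈ A, (M.nB (ω i) : ℝ)) *
      M.wG φ (fun _ => 0) (fun _ => 0) A ω := by
  by_cases h : M.cp φ A ω
  · rw [wG_of_cp M φ h, wG_of_cp M φ h, prod_st, prod_st]
    simp [ex_zero]
  · rw [wG_of_not M φ h, wG_of_not M φ h, mul_zero]

theorem cp_swap {A : Finset Γ} {ω : Γ → E} : M.swap.cp φ A ω ↔ M.cp φ A ω := Iff.rfl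

theorem wG_swap (m τ : Γ → ℝ) (A : Finset Γ) (ω : Γ → E) :
    M.swap.wG φ τ m A ω = M.wG φ m τ A ω := by
  unfold Mx.wG
  simp only [st_swap]
  congr 1

/-- A disjoint union: the weights factorise up to the compatibility. -/
theorem wG_union_le [DecidableEq Γ] (m τ : Γ → ℝ) {A B : Finset Γ} (hAB : Disjoint A B)
    (ω : Γ → E) : M.wG φ m τ (A ∪ B) ω ≤ M.wG φ m τ A ω * M.wG φ m τ B ω := by
  by_cases h : M.cp φ (A ∪ B) ω
  · rw [wG_of_cp M φ h, wG_of_cp M φ (cp_mono M φ subset_union_left h),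
      wG_of_cp M φ (cp_mono M φ subset_union_right h), prod_union hAB]
  · rw [wG_of_not M φ h]
    exact zero_le

/-! ### Marginals -/

variable [DecidableEq Γ]

omit [AddCommGroup Γ] in
theorem lm_mono (s : Finset Γ) {f g : (Γ → E) → ENNReal}
    (h : ∀ x, f x ≤ g x) (x : Γ → E) :
    lmarginal (fun _ : Γ => M.π) s f x ≤ lmarginal (fun _ : Γ => M.π) s g x :=
  lintegral_mono fun _ => h _

omit [AddCommGroup Γ] in
theorem lm_const_mul (s : Finset Γ) {f : (Γ → E) → ENNReal}
    (hf : Measurable f) (C : ENNReal) (x : Γ → E) :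
    lmarginal (fun _ : Γ => M.π) s (fun ω => C * f ω) x =
      C * lmarginal (fun _ : Γ => M.π) s f x :=
  lintegral_const_mul C (hf.comp measurable_updateFinset)

omit [AddCommGroup Γ] in
theorem lm_add (s : Finset Γ) {f g : (Γ → E) → ENNReal} (hf : Measurable f) (x : Γ → E) :
    lmarginal (fun _ : Γ => M.π) s (fun ω => f ω + g ω) x =
      lmarginal (fun _ : Γ => M.π) s f x + lmarginal (fun _ : Γ => M.π) s g x :=
  lintegral_add_left (hf.comp measurable_updateFinset) _

omit [AddCommGroup Γ] in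
/-- Lower bound of a marginal by the empty contents. -/
theorem le_lm (s : Finset Γ) {f : (Γ → E) → ENNReal}
    (hf : Measurable f) (x : Γ → E) :
    f (fun i => if i ∈ s then M.e0 else x i) ≤ lmarginal (fun _ : Γ => M.π) s f x := by
  have := fin_π M
  have h := mul_meas_ge_le_lintegral (μ := Measure.pi fun _ : s => M.π)
    (hf.comp (measurable_updateFinset (x := x) (s := s)))
    (f (fun i => if i ∈ s then M.e0 else x i))
  refine le_trans ?_ h
  have h1 : ({fun _ => M.e0} : Set (s → E)) ⊆ {y | f (fun i => if i ∈ s then M.e0 else x i) ≤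
      (f ∘ Function.updateFinset x s) y} := by
    intro y hy
    rw [Set.mem_singleton_iff] at hy
    subst hy
    show f _ ≤ f _
    refine le_of_eq ?_
    congr 1
  have h2 : (1 : ENNReal) ≤ (Measure.pi fun _ : s => M.π)
      {y | f (fun i => if i ∈ s then M.e0 else x i) ≤ (f ∘ Function.updateFinset x s) y} := by
    refine le_trans ?_ (measure_mono h1)
    rw [← Set.univ_pi_singleton, Measure.pi_pi]
    simp [M.π_e0]
  calc _ = f (fun i => if i ∈ s then M.e0 else x i) * 1 := (mul_one _).symm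
    _ ≤ _ := mul_le_mul' le_rfl h2

omit [AddCommGroup Γ] in
theorem lm_dep {s : Finset Γ} {f : (Γ → E) → ENNReal}
    (hf : ∀ x y : Γ → E, (∀ i ∈ s, x i = y i) → f x = f y) (x y : Γ → E) :
    lmarginal (fun _ : Γ => M.π) s f x = lmarginal (fun _ : Γ => M.π) s f y := by
  unfold lmarginal
  refine lintegral_congr fun z => hf _ _ fun i hi => ?_
  rw [Function.updateFinset_def, Function.updateFinset_def]
  simp [hi]

omit [AddCommGroup Γ] in
/-- A function depending on fewer coordinates: the other coordinates contribute at least one. -/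
theorem lm_le_of_subset {s t : Finset Γ} (hst : s ⊆ t) {f : (Γ → E) → ENNReal} (hf : Measurable f)
    (x : Γ → E) (hdep : ∀ y z : Γ → E, (∀ i ∈ s, y i = z i) → f y = f z) :
    lmarginal (fun _ : Γ => M.π) s f x ≤ lmarginal (fun _ : Γ => M.π) t f x := by
  have := fin_π M
  have e : lmarginal (fun _ : Γ => M.π) t f x = lmarginal (fun _ : Γ => M.π) s
      (lmarginal (fun _ : Γ => M.π) (t \ s) f) x := by
    rw [← lmarginal_union _ _ hf disjoint_sdiff, union_sdiff_of_subset hst]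
  rw [e]
  refine lm_mono M s (fun ω => ?_) x
  refine le_trans (le_of_eq ?_) (le_lm M (t \ s) hf ω)
  refine hdep _ _ fun i hi => ?_
  simp [hi]

omit [AddCommGroup Γ] in
theorem lm_one (s : Finset Γ) (x : Γ → E) :
    lmarginal (fun _ : Γ => M.π) s (fun _ => 1) x = M.π Set.univ ^ s.card := by
  have := fin_π M
  unfold lmarginal
  rw [lintegral_const, one_mul, Measure.pi_univ, prod_const, card_univ, Fintype.card_coe]

omit [AddCommGroup Γ] in
/-- Factorisation. -/
theorem lm_mul {A B : Finset Γ} (hAB : Disjoint A B) {f g : (Γ → E) → ENNReal}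
    (hf : Measurable f) (hg : Measurable g) (df : ∀ x y, (∀ i ∈ A, x i = y i) → f x = f y)
    (dg : ∀ x y, (∀ i ∈ B, x i = y i) → g x = g y) (z : Γ → E) :
    lmarginal (fun _ : Γ => M.π) (A ∪ B) (fun ω => f ω * g ω) z =
      lmarginal (fun _ : Γ => M.π) A f z * lmarginal (fun _ : Γ => M.π) B g z := by
  have := fin_π M
  rw [lmarginal_union _ (fun ω => f ω * g ω) (hf.mul hg) hAB]
  have e1 : lmarginal (fun _ : Γ => M.π) B (fun ω => f ω * g ω) = fun x =>
      lmarginal (fun _ : Γ => M.π) B g z * f x := by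
    funext x
    rw [← lm_dep M dg x z, mul_comm]
    refine Eq.trans ?_ (lintegral_const_mul (f x)
      (hg.comp (measurable_updateFinset (x := x) (s := B))))
    refine lintegral_congr fun z => ?_
    show f _ * g _ = f x * g _
    congr 1
    refine df _ _ fun i hi => ?_
    rw [Function.updateFinset_def]
    simp [disjoint_left.1 hAB hi]
  rw [e1, lm_const_mul M A hf, mul_comm]

omit [AddCommGroup Γ] in
/-- A product of functions of the sites. -/
theorem lm_prod (s : Finset Γ) {f : Γ → E → ENNReal} (hf : ∀ i, Measurable (f i)) (x : Γ → E) :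
    lmarginal (fun _ : Γ => M.π) s (fun ω => ∏ i ∈ s, f i (ω i)) x = ∏ i ∈ s, ∫⁻ e, f i e ∂M.π := by
  have := fin_π M
  have hm : ∀ s : Finset Γ, Measurable fun ω : Γ → E => ∏ i ∈ s, f i (ω i) := fun s =>
    Finset.measurable_prod _ fun i _ => (hf i).comp (measurable_pi_apply i)
  induction s using Finset.induction_on with
  | empty => simp [lmarginal_empty]
  | insert a s ha ih =>
    rw [prod_insert ha, ← ih]
    have h1 : ∫⁻ e, f a e ∂M.π = lmarginal (fun _ : Γ => M.π) {a} (fun ω => f a (ω a)) x := by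
      rw [lmarginal_singleton]
      refine lintegral_congr fun e => ?_
      simp
    have hg : Measurable fun ω : Γ → E => f a (ω a) := (hf a).comp (measurable_pi_apply a)
    have h2 := lm_mul M (disjoint_singleton_left.2 ha) hg (hm s)
      (fun x y h => by rw [h a (mem_singleton_self a)])
      (fun x y h => prod_congr rfl fun i hi => by rw [h i hi]) x
    rw [h1, ← h2, ← insert_eq]
    congr 1
    funext ω
    rw [prod_insert ha]

end Gen

/-! ### The lattice -/

theorem measurable_w (μ t : ℝ) (A : Finset (Zd d)) : Measurable (M.w μ t A) :=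
  measurable_wG M id _ _ A

theorem w_dep (μ t : ℝ) (A : Finset (Zd d)) (x y : Zd d → E) (h : ∀ i ∈ A, x i = y i) :
    M.w μ t A x = M.w μ t A y := wG_dep M id _ _ A h

theorem w_of_cp {μ t : ℝ} {A : Finset (Zd d)} {ω : Zd d → E} (h : M.cp id A ω) :
    M.w μ t A ω = ∏ i ∈ A, M.st μ t (ω i) := wG_of_cp M id h

theorem w_of_not {μ t : ℝ} {A : Finset (Zd d)} {ω : Zd d → E} (h : ¬ M.cp id A ω) :
    M.w μ t A ω = 0 := wG_of_not M id h

theorem int_mono (A : Finset (Zd d)) {f g : (Zd d → E) → ENNReal} (h : ∀ x, f x ≤ g x) :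
    M.int A f ≤ M.int A g := lm_mono M A h _

theorem int_const_mul (A : Finset (Zd d)) {f : (Zd d → E) → ENNReal}
    (hf : Measurable f) (C : ENNReal) : M.int A (fun ω => C * f ω) = C * M.int A f :=
  lm_const_mul M A hf C _

theorem int_add (A : Finset (Zd d)) {f g : (Zd d → E) → ENNReal} (hf : Measurable f) :
    M.int A (fun ω => f ω + g ω) = M.int A f + M.int A g := lm_add M A hf _

theorem int_sum {ι : Type} (F : Finset ι) {A : Finset (Zd d)} {f : ι → (Zd d → E) → ENNReal}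
    (hf : ∀ j ∈ F, Measurable (f j)) :
    M.int A (fun ω => ∑ j ∈ F, f j ω) = ∑ j ∈ F, M.int A (f j) := by
  unfold Mx.int
  simp only [lmarginal]
  exact lintegral_finsetSum _ fun j hj => (hf j hj).comp measurable_updateFinset

theorem int_mul {A B : Finset (Zd d)} (hAB : Disjoint A B) {f g : (Zd d → E) → ENNReal}
    (hf : Measurable f) (hg : Measurable g) (df : ∀ x y, (∀ i ∈ A, x i = y i) → f x = f y)
    (dg : ∀ x y, (∀ i ∈ B, x i = y i) → g x = g y) :
    M.int (A ∪ B) (fun ω => f ω * g ω) = M.int A f * M.int B g :=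
  lm_mul M hAB hf hg df dg _

theorem one_le_xi (μ t : ℝ) (A : Finset (Zd d)) : 1 ≤ M.xi μ t A := by
  refine le_trans ?_ (le_lm M A (measurable_w M μ t A) _)
  have h : M.cp id A (fun i => if i ∈ A then M.e0 else M.e0) := by
    intro v _ _ i _ _
    simp only [ite_self]
    exact ok_e0 M v _
  rw [w_of_cp M h]
  simp [st_e0]

theorem xi_le (μ t : ℝ) (A : Finset (Zd d)) :
    M.xi μ t A ≤ (ex ((|μ| + |t|) * M.N) * M.π Set.univ) ^ A.card := by
  unfold Mx.xi
  calc M.int A (M.w μ t A) ≤ M.int A (fun _ => ex ((|μ| + |t|) * M.N) ^ A.card * 1) := by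
        refine int_mono M A fun ω => ?_
        rw [mul_one]
        refine (wG_bound M id _ _ A ω).trans (le_of_eq ?_)
        rw [sum_const, ex_pow, nsmul_eq_mul]
    _ = ex ((|μ| + |t|) * M.N) ^ A.card * M.π Set.univ ^ A.card := by
        rw [int_const_mul M A measurable_const]
        congr 1
        exact lm_one M A _
    _ = _ := (mul_pow _ _ _).symm

theorem xi_ne_top (μ t : ℝ) (A : Finset (Zd d)) : M.xi μ t A ≠ ⊤ :=
  ne_top_of_le_ne_top (ENNReal.pow_ne_top (ENNReal.mul_ne_top (ex_ne_top _) M.π_fin))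
    (xi_le M μ t A)

theorem xi_pos (μ t : ℝ) (A : Finset (Zd d)) : 0 < (M.xi μ t A).toReal :=
  ENNReal.toReal_pos (lt_of_lt_of_le one_pos (one_le_xi M μ t A)).ne' (xi_ne_top M μ t A)

theorem log_xi_nonneg (μ t : ℝ) (A : Finset (Zd d)) : 0 ≤ Real.log (M.xi μ t A).toReal := by
  refine Real.log_nonneg ?_
  have := ENNReal.toReal_mono (xi_ne_top M μ t A) (one_le_xi M μ t A)
  simpa using this

theorem xi_eq_ex (μ t : ℝ) (A : Finset (Zd d)) : ex (Real.log (M.xi μ t A).toReal) = M.xi μ t A :=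
  ex_log (lt_of_lt_of_le one_pos (one_le_xi M μ t A)).ne' (xi_ne_top M μ t A)

/-! ### Masses -/

theorem mA_ne_top (μ : ℝ) : M.mA μ ≠ ⊤ := by
  have := fin_π M
  unfold Mx.mA
  refine ne_top_of_le_ne_top (ENNReal.mul_ne_top (ex_ne_top (|μ| * M.N)) M.π_fin) ?_
  calc ∫⁻ x in {x | 1 ≤ M.nA x}, ex (μ * M.nA x) ∂M.π ≤
      ∫⁻ x, ex (μ * M.nA x) ∂M.π := setLIntegral_le_lintegral _ _
    _ ≤ ∫⁻ _x, ex (|μ| * M.N) ∂M.π := by
        refine lintegral_mono fun x => ex_le_ex.2 ?_
        have h1 : (M.nA x : ℝ) ≤ M.N := by exact_mod_cast M.nA_le x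
        have h0 : (0 : ℝ) ≤ M.nA x := Nat.cast_nonneg _
        calc μ * M.nA x ≤ |μ| * M.nA x := mul_le_mul_of_nonneg_right (le_abs_self μ) h0
          _ ≤ |μ| * M.N := mul_le_mul_of_nonneg_left h1 (abs_nonneg μ)
    _ = _ := by rw [lintegral_const]

theorem mB_ne_top (t : ℝ) : M.mB t ≠ ⊤ := mA_ne_top M.swap t

theorem mA_swap (t : ℝ) : M.swap.mA t = M.mB t := rfl

theorem mB_swap (t : ℝ) : M.swap.mB t = M.mA t := rfl

/-- The total mass of a cell. -/
theorem lintegral_st (μ t : ℝ) : ∫⁻ x, M.st μ t x ∂M.π = 1 + (M.mA μ + M.mB t) := by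
  have hA := measurableSet_A M
  have hB := measurableSet_B M
  have hV : MeasurableSet {x | M.nA x = 0 ∧ M.nB x = 0} :=
    (measurableSet_nA0 M).inter (measurableSet_nB0 M)
  have e : ∀ x, M.st μ t x = {x | M.nA x = 0 ∧ M.nB x = 0}.indicator (fun _ => 1) x +
      ({x | 1 ≤ M.nA x}.indicator (fun x => ex (μ * M.nA x)) x +
        {x | 1 ≤ M.nB x}.indicator (fun x => ex (t * M.nB x)) x) := by
    intro x
    rcases tri M x with h | h | h
    · rw [st_vac M h.1 h.2,
        Set.indicator_of_mem (show x ∈ {x | M.nA x = 0 ∧ M.nB x = 0} from h),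
        Set.indicator_of_notMem (show x ∉ {x | 1 ≤ M.nA x} from fun g => by
          have g' : 1 ≤ M.nA x := g
          omega), Set.indicator_of_notMem (show x ∉ {x | 1 ≤ M.nB x} from fun g => by
          have g' : 1 ≤ M.nB x := g
          omega)]
      simp
    · rw [st_A M h.2,
        Set.indicator_of_notMem (show x ∉ {x | M.nA x = 0 ∧ M.nB x = 0} from fun g => by
          have g' : M.nA x = 0 := g.1
          omega),
        Set.indicator_of_mem (show x ∈ {x | 1 ≤ M.nA x} from h.1),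
        Set.indicator_of_notMem (show x ∉ {x | 1 ≤ M.nB x} from fun g => by
          have g' : 1 ≤ M.nB x := g
          omega)]
      simp
    · rw [st_B M h.1,
        Set.indicator_of_notMem (show x ∉ {x | M.nA x = 0 ∧ M.nB x = 0} from fun g => by
          have g' : M.nB x = 0 := g.2
          omega),
        Set.indicator_of_notMem (show x ∉ {x | 1 ≤ M.nA x} from fun g => by
          have g' : 1 ≤ M.nA x := g
          omega), Set.indicator_of_mem (show x ∈ {x | 1 ≤ M.nB x} from h.2)]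
      simp
  simp only [e]
  rw [lintegral_add_left (measurable_const.indicator hV), lintegral_indicator hV, setLIntegral_one,
    M.π_vac, lintegral_add_left ((measurable_ex ((measurable_nA' M).const_mul μ)).indicator hA),
    lintegral_indicator hA, lintegral_indicator hB]
  rfl

theorem int_swap (A : Finset (Zd d)) (f : (Zd d → E) → ENNReal) : M.swap.int A f = M.int A f := rfl

theorem xi_swap (μ t : ℝ) (A : Finset (Zd d)) : M.swap.xi t μ A = M.xi μ t A := by
  unfold Mx.xi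
  rw [int_swap]
  congr 1
  funext ω
  exact wG_swap M id _ _ A ω

theorem isP_swap {p : ℝ → ℝ → ℝ} (hp : M.IsP p) : M.swap.IsP fun t μ => p μ t := by
  intro t μ
  simp only [xi_swap]
  exact hp μ t

theorem ZT_swap (L : ℕ) (μ t : ℝ) : M.swap.ZT L t μ = M.ZT L μ t := by
  unfold Mx.ZT
  refine lintegral_congr fun ω => ?_
  exact wG_swap M (cst L) _ _ univ ω

end Bas

end Pool.Agent.Mix
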