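import Pool.Agent.Lib.MP_09cbbd_mix.ClsD

/-!
# Large boxes
-/

set_option autoImplicit false

namespace Pool.Agent.Mix

open MeasureTheory Finset Filter Topology Pool.Agent.StableGas Pool.Agent.SquareWell

variable {d : ℕ}

/-
ROW BX. See MP_09cbbd_kc/Asm.lean (bx_eq, card_bx', card_fatr_le, card_rb_le, tendsto_ratio, eventually_fatr, tendsto_rb) and how kc `not_differentiable` gets
NConn of a box (NConn for the boxes is in SquareWell.Topo.NConn_cb). bd (bx n) is contained in bx n minus the box {1..n-2}^d.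
-/

-- BEGIN ROW BX
namespace BX

theorem bx_eq (n : ℕ) : SquareWell.bx d n = Topo.cb d 0 n := rfl

theorem card_cb (a b : ℤ) : (Topo.cb d a b).card = (b - a).toNat ^ d := by
  unfold Topo.cb
  rw [Fintype.card_piFinset]
  simp

theorem card_bx (n : ℕ) : (SquareWell.bx d n).card = n ^ d := by
  rw [bx_eq, card_cb]
  congr 1

theorem subset_fatr (ρ : ℕ) (A : Finset (Zd d)) : A ⊆ fatr ρ A := by
  intro x hx
  unfold fatr
  rw [mem_biUnion]
  refine ⟨x, hx, ?_⟩
  rw [Fintype.mem_piFinset]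
  intro k
  rw [Finset.mem_Icc]
  constructor <;> omega

theorem card_fatr_le (ρ n : ℕ) :
    ((fatr ρ (SquareWell.bx d n)).card : ℝ) ≤ ((n : ℝ) + 2 * ρ) ^ d := by
  have h : fatr ρ (SquareWell.bx d n) ⊆ Topo.cb d (-ρ) (n + ρ) := by
    intro x hx
    unfold fatr at hx
    rw [mem_biUnion] at hx
    obtain ⟨y, hy, hx⟩ := hx
    rw [bx_eq, Topo.mem_cb] at hy
    rw [Fintype.mem_piFinset] at hx
    rw [Topo.mem_cb]
    intro k
    have h1 := hy k
    have h2 := Finset.mem_Icc.1 (hx k)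
    omega
  have h1 := card_le_card h
  rw [card_cb] at h1
  have h2 : ((n : ℤ) + ρ - -(ρ : ℤ)).toNat = n + 2 * ρ := by omega
  rw [h2] at h1
  exact_mod_cast h1

theorem card_bd_le {n : ℕ} (hn : 2 ≤ n) :
    ((bd (SquareWell.bx d n)).card : ℝ) ≤ (n : ℝ) ^ d - ((n : ℝ) - 2) ^ d := by
  classical
  have h : bd (SquareWell.bx d n) ⊆ SquareWell.bx d n \ Topo.cb d 1 (n - 1) := by
    intro x hx
    rw [mem_bd] at hx
    obtain ⟨hx, hxv⟩ := hx
    rw [Finset.mem_sdiff]
    refine ⟨hx, fun hc => hxv ?_⟩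
    rw [Topo.mem_cb] at hc
    intro y hy
    rw [mem_Nb] at hy
    rw [bx_eq, Topo.mem_cb]
    intro k
    have h1 := hc k
    have h2 := hy k
    omega
  have hsub : Topo.cb d 1 (n - 1) ⊆ SquareWell.bx d n := by
    intro x hx
    rw [Topo.mem_cb] at hx
    rw [bx_eq, Topo.mem_cb]
    intro k
    have := hx k
    omega
  have h1 := card_le_card h
  rw [card_sdiff_of_subset hsub] at h1
  have h2 : (Topo.cb d (1 : ℤ) (n - 1)).card = (n - 2) ^ d := by
    rw [card_cb]
    congr 1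
    omega
  rw [h2, card_bx] at h1
  have h4 : (n - 2) ^ d ≤ n ^ d := Nat.pow_le_pow_left (Nat.sub_le _ _) d
  have h5 : (((n ^ d - (n - 2) ^ d : ℕ)) : ℝ) = (n : ℝ) ^ d - ((n : ℝ) - 2) ^ d := by
    rw [Nat.cast_sub h4]
    push_cast [Nat.cast_sub hn]
    ring
  rw [← h5]
  exact_mod_cast h1

theorem tendsto_ratio (c : ℝ) :
    Tendsto (fun n : ℕ => (((n : ℝ) + c) / n) ^ d) atTop (𝓝 1) := by
  have h1 : Tendsto (fun n : ℕ => 1 + c / (n : ℝ)) atTop (𝓝 (1 + 0)) :=
    tendsto_const_nhds.add (tendsto_const_div_atTop_nhds_zero_nat c)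
  have h2 : Tendsto (fun n : ℕ => (1 + c / (n : ℝ)) ^ d) atTop (𝓝 ((1 + 0) ^ d)) := h1.pow d
  rw [add_zero, one_pow] at h2
  refine h2.congr' ?_
  filter_upwards [eventually_ge_atTop 1] with n hn
  have : (n : ℝ) ≠ 0 := by
    have : (1 : ℝ) ≤ n := by exact_mod_cast hn
    linarith
  congr 1
  field_simp

end BX

theorem NConn_bx (hd : 2 ≤ d) (n : ℕ) : NConn (SquareWell.bx d n) := by
  rw [BX.bx_eq]
  exact Topo.NConn_cb hd 0 n

theorem card_bx_real (n : ℕ) : ((SquareWell.bx d n).card : ℝ) = (n : ℝ) ^ d := by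
  rw [BX.card_bx]
  push_cast
  rfl

theorem eventually_fatr (hd : 1 ≤ d) (ρ : ℕ) : ∀ᶠ n : ℕ in atTop,
    (fatr ρ (SquareWell.bx d n)).card ≤ 2 * (SquareWell.bx d n).card := by
  have h := BX.tendsto_ratio (d := d) (2 * ρ)
  filter_upwards [h.eventually (gt_mem_nhds (show (1 : ℝ) < 2 by norm_num)),
    eventually_ge_atTop 1] with n hn hn1
  have hn0 : (0 : ℝ) < n := by exact_mod_cast hn1
  have h1 := BX.card_fatr_le (d := d) ρ n
  rw [div_pow, div_lt_iff₀ (pow_pos hn0 d)] at hn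
  have h2 := card_bx_real (d := d) n
  have h3 : ((fatr ρ (SquareWell.bx d n)).card : ℝ) ≤ 2 * (SquareWell.bx d n).card := by
    rw [h2]
    linarith
  exact_mod_cast h3

theorem tendsto_fatr (hd : 1 ≤ d) (ρ : ℕ) : Tendsto (fun n : ℕ =>
    ((fatr ρ (SquareWell.bx d n)).card : ℝ) / (n : ℝ) ^ d) atTop (𝓝 1) := by
  have h := BX.tendsto_ratio (d := d) (2 * ρ)
  refine tendsto_of_tendsto_of_tendsto_of_le_of_le' tendsto_const_nhds h ?_ ?_
  · filter_upwards [eventually_ge_atTop 1] with n hn1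
    have hn0 : (0 : ℝ) < n := by exact_mod_cast hn1
    rw [le_div_iff₀ (pow_pos hn0 d), one_mul, ← card_bx_real (d := d) n]
    exact_mod_cast card_le_card (BX.subset_fatr ρ _)
  · filter_upwards [eventually_ge_atTop 1] with n hn1
    have hn0 : (0 : ℝ) < n := by exact_mod_cast hn1
    rw [div_le_iff₀ (pow_pos hn0 d), div_pow, div_mul_cancel₀ _ (pow_pos hn0 d).ne']
    exact BX.card_fatr_le ρ n

theorem tendsto_lay (hd : 1 ≤ d) (ρ : ℕ) : Tendsto (fun n : ℕ =>
    ((lay ρ (SquareWell.bx d n)).card : ℝ) / (n : ℝ) ^ d) atTop (𝓝 0) := by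
  have h := (tendsto_fatr hd ρ).sub_const 1
  rw [sub_self] at h
  refine h.congr' ?_
  filter_upwards [eventually_ge_atTop 1] with n hn1
  have hn0 : (0 : ℝ) < n := by exact_mod_cast hn1
  have hpos := pow_pos hn0 d
  classical
  have h1 : (lay ρ (SquareWell.bx d n)).card + (SquareWell.bx d n).card =
      (fatr ρ (SquareWell.bx d n)).card := by
    have e : lay ρ (SquareWell.bx d n) = fatr ρ (SquareWell.bx d n) \ SquareWell.bx d n := by
      unfold lay
      congr
    rw [e]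
    exact card_sdiff_add_card_eq_card (BX.subset_fatr ρ _)
  have h2 : ((lay ρ (SquareWell.bx d n)).card : ℝ) + (n : ℝ) ^ d =
      (fatr ρ (SquareWell.bx d n)).card := by
    rw [← card_bx_real (d := d) n]
    exact_mod_cast h1
  rw [← h2, add_div, div_self hpos.ne', add_sub_cancel_right]

theorem tendsto_bd (hd : 1 ≤ d) : Tendsto (fun n : ℕ =>
    ((bd (SquareWell.bx d n)).card : ℝ) / (n : ℝ) ^ d) atTop (𝓝 0) := by
  have h := BX.tendsto_ratio (d := d) (-2)
  have h1 : Tendsto (fun n : ℕ => 1 - (((n : ℝ) + -2) / n) ^ d) atTop (𝓝 (1 - 1)) :=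
    tendsto_const_nhds.sub h
  rw [sub_self] at h1
  refine tendsto_of_tendsto_of_tendsto_of_le_of_le' tendsto_const_nhds h1 ?_ ?_
  · exact Eventually.of_forall fun n => by positivity
  · filter_upwards [eventually_ge_atTop 2] with n hn2
    have hn0 : (0 : ℝ) < n := by
      have : (2 : ℝ) ≤ n := by exact_mod_cast hn2
      linarith
    have h2 := BX.card_bd_le (d := d) hn2
    rw [div_le_iff₀ (pow_pos hn0 d), div_pow, sub_mul, div_mul_cancel₀ _ (pow_pos hn0 d).ne',
      one_mul, ← sub_eq_add_neg]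
    exact h2
-- END ROW BX

end Pool.Agent.Mix
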