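import Pool.Agent.Lib.MP_09cbbd_mix.Bas
import Pool.Agent.Lib.MP_09cbbd_sw.Topo

/-!
# Classes of configurations: definitions
-/

set_option autoImplicit false

namespace Pool.Agent.Mix

open MeasureTheory Finset Filter Topology Pool.Agent.StableGas Pool.Agent.SquareWell

variable {d : ℕ} {E : Type} [MeasurableSpace E] (M : Mx d E)

/-- Cells covered by the contents of type `A`. -/
noncomputable def Mx.DD (A : Finset (Zd d)) (ω : Zd d → E) : Finset (Zd d) := by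
  classical exact A.filter fun i => ∃ v ∈ M.SA, ∃ q ∈ Qr d 1, i - v - q ∈ A ∧
    1 ≤ M.nA (ω (i - v - q))

/-- Cells covered by the contents of type `B`. -/
noncomputable def Mx.VC (A : Finset (Zd d)) (ω : Zd d → E) : Finset (Zd d) := by
  classical exact A.filter fun i => ∃ v ∈ M.SB, ∃ q ∈ Qr d 1, i - v - q ∈ A ∧
    1 ≤ M.nB (ω (i - v - q))

theorem mem_DD {A : Finset (Zd d)} {ω : Zd d → E} {i : Zd d} : i ∈ M.DD A ω ↔
    i ∈ A ∧ ∃ v ∈ M.SA, ∃ q ∈ Qr d 1, i - v - q ∈ A ∧ 1 ≤ M.nA (ω (i - v - q)) := by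
  classical
  unfold Mx.DD
  rw [mem_filter]

theorem mem_VC {A : Finset (Zd d)} {ω : Zd d → E} {i : Zd d} : i ∈ M.VC A ω ↔
    i ∈ A ∧ ∃ v ∈ M.SB, ∃ q ∈ Qr d 1, i - v - q ∈ A ∧ 1 ≤ M.nB (ω (i - v - q)) := by
  classical
  unfold Mx.VC
  rw [mem_filter]

/-- The bad sites of a configuration. -/
noncomputable def Mx.bad (A : Finset (Zd d)) (ω : Zd d → E) : Finset (Zd d) :=
  SquareWell.bad (M.r + 2) A (fun i => i ∈ M.DD A ω) fun i => i ∉ A ∨ i ∈ M.VC A ω

/-- The class of the configurations with given contours `L`, region `Y` of the `A`-phase, cells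
`DL` of `L` covered by `A` and cells `OL` of `L` covered by none of the two kinds; the small
contours fill at most `K` cells. -/
def Mx.Class (A : Finset (Zd d)) (s : ℕ) (K : ℝ) (L Y DL OL : Finset (Zd d)) :
    Set (Zd d → E) :=
  {ω | M.cp id A ω ∧
    Cut (M.r + 2) A (fun i => i ∈ M.DD A ω) (fun i => i ∉ A ∨ i ∈ M.VC A ω) s L Y ∧
    L ∩ M.DD A ω = DL ∧ (L ∩ A) \ (M.DD A ω ∪ M.VC A ω) = OL ∧
    ((∑ G ∈ ((M.bad A ω).image (comp (M.bad A ω))).filter (fun G => (fill G).card < s),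
      (fill G).card : ℕ) : ℝ) ≤ K}

/-- The outer layer of `A`. -/
noncomputable def lay (ρ : ℕ) (A : Finset (Zd d)) : Finset (Zd d) := by
  classical exact fatr ρ A \ A

/-- The region of the `A`-phase, without and with the layer. -/
noncomputable def YY (Y DL : Finset (Zd d)) : Finset (Zd d) := by
  classical exact Y ∪ DL

noncomputable def WW (A Y DL OL : Finset (Zd d)) : Finset (Zd d) := by
  classical exact A \ (Y ∪ DL ∪ OL)

noncomputable def XY (ρ : ℕ) (A Y DL : Finset (Zd d)) : Finset (Zd d) := by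
  classical exact YY Y DL ∪ lay ρ A

noncomputable def XW (ρ : ℕ) (A Y DL OL : Finset (Zd d)) : Finset (Zd d) := by
  classical exact WW A Y DL OL ∪ lay ρ A

theorem mem_lay {ρ : ℕ} {A : Finset (Zd d)} {i : Zd d} :
    i ∈ lay ρ A ↔ i ∈ fatr ρ A ∧ i ∉ A := by
  classical
  unfold lay
  rw [Finset.mem_sdiff]

theorem mem_YY {Y DL : Finset (Zd d)} {i : Zd d} : i ∈ YY Y DL ↔ i ∈ Y ∨ i ∈ DL := by
  classical
  unfold YY
  rw [mem_union]

theorem mem_WW {A Y DL OL : Finset (Zd d)} {i : Zd d} :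
    i ∈ WW A Y DL OL ↔ i ∈ A ∧ i ∉ Y ∧ i ∉ DL ∧ i ∉ OL := by
  classical
  unfold WW
  rw [Finset.mem_sdiff, mem_union, mem_union]
  tauto

theorem mem_XY {ρ : ℕ} {A Y DL : Finset (Zd d)} {i : Zd d} :
    i ∈ XY ρ A Y DL ↔ i ∈ YY Y DL ∨ i ∈ lay ρ A := by
  classical
  unfold XY
  rw [mem_union]

theorem mem_XW {ρ : ℕ} {A Y DL OL : Finset (Zd d)} {i : Zd d} :
    i ∈ XW ρ A Y DL OL ↔ i ∈ WW A Y DL OL ∨ i ∈ lay ρ A := by
  classical
  unfold XW
  rw [mem_union]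

end Pool.Agent.Mix
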