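import Pool.Agent.Lib.MP_09cbbd_mix.Pres

/-!
# Bounds for the pressure: masses, pure systems
-/

set_option autoImplicit false

namespace Pool.Agent.Mix

open MeasureTheory Finset Filter Topology Pool.Agent.StableGas Pool.Agent.SquareWell

variable {d : ℕ} {E : Type} [MeasurableSpace E] {M : Mx d E} {p q : ℝ → ℝ → ℝ}

/-
ROW P2. ge_mass: let S = {i in bx n : (r + 1) | i k for all k}. Two different points of S differ by a vector outside Qr d r, so all
configurations on S are compatible (Bas.ok_far): xi (S) = (1 + mA + mB)^|S| (Bas.lm_prod, Bas.lintegral_st), and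
xi (bx n) >= xi S (xi_mono), |S| >= (n / (r + 1))^d (floor), divide by n^d and n -> infinity (ConfinedGas.tendsto_cells-like).
-/

-- BEGIN ROW P2
namespace P2

/-- The points of the coarse lattice. -/
noncomputable def S (d r k : ℕ) : Finset (Zd d) := by
  classical exact (bx d k).image fun i c => ((r : ℤ) + 1) * i c

theorem mem_S {r k : ℕ} {i : Zd d} :
    i ∈ S d r k ↔ ∃ j ∈ bx d k, (fun c => ((r : ℤ) + 1) * j c) = i := by
  unfold S
  rw [mem_image]

theorem card_S (r k : ℕ) : (S d r k).card = k ^ d := by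
  unfold S
  rw [card_image_of_injective]
  · unfold bx
    rw [Fintype.card_piFinset]
    simp
  · intro i j h
    funext c
    have h1 : ((r : ℤ) + 1) * i c = ((r : ℤ) + 1) * j c := congrFun h c
    have h2 : ((r : ℤ) + 1) ≠ 0 := by positivity
    exact mul_left_cancel₀ h2 h1

theorem S_sub (r k : ℕ) : S d r k ⊆ bx d (k * (r + 1)) := by
  intro i hi
  obtain ⟨j, hj, rfl⟩ := mem_S.1 hi
  unfold bx at hj ⊢
  rw [Fintype.mem_piFinset] at hj ⊢
  intro c
  have h := mem_Ico.1 (hj c)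
  rw [mem_Ico]
  push_cast
  have h2 : (0 : ℤ) < (r : ℤ) + 1 := by positivity
  constructor
  · exact mul_nonneg h2.le h.1
  · rw [mul_comm]
    exact mul_lt_mul_of_pos_right h.2 h2

theorem cp_S (M : Mx d E) (k : ℕ) (ω : Zd d → E) : M.cp id (S d M.r k) ω := by
  intro v hv h0 i hi hi2
  exfalso
  apply h0
  obtain ⟨j, _, rfl⟩ := mem_S.1 hi
  obtain ⟨j', _, h'⟩ := mem_S.1 hi2
  funext c
  have h1 : ((M.r : ℤ) + 1) * j' c = ((M.r : ℤ) + 1) * j c + v c := congrFun h' c
  have h2 := mem_Qr.1 hv c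
  show v c = 0
  have h3 : v c = ((M.r : ℤ) + 1) * (j' c - j c) := by linear_combination -h1
  rcases eq_or_ne (j' c - j c) 0 with h4 | h4
  · rw [h3, h4, mul_zero]
  · exfalso
    have h5 : 1 ≤ |j' c - j c| := Int.one_le_abs h4
    have h6 : |v c| = ((M.r : ℤ) + 1) * |j' c - j c| := by
      rw [h3, abs_mul, abs_of_pos (by positivity)]
    nlinarith

theorem xi_S (M : Mx d E) (μ t : ℝ) (k : ℕ) :
    M.xi μ t (S d M.r k) = (1 + (M.mA μ + M.mB t)) ^ k ^ d := by
  classical
  unfold Mx.xi Mx.int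
  have h : M.w μ t (S d M.r k) = fun ω : Zd d → E => ∏ i ∈ S d M.r k, M.st μ t (ω i) := by
    funext ω
    exact Bas.w_of_cp M (cp_S M k ω)
  rw [h, Bas.lm_prod M (S d M.r k) (fun _ => Bas.measurable_st M μ t), prod_const, card_S,
    Bas.lintegral_st]

theorem log_ge (M : Mx d E) (μ t : ℝ) (k : ℕ) :
    (k : ℝ) ^ d * Real.log (1 + (M.mA μ + M.mB t).toReal) ≤
      Real.log (M.xi μ t (bx d (k * (M.r + 1)))).toReal := by
  have hm : M.mA μ + M.mB t ≠ ⊤ := ENNReal.add_ne_top.2 ⟨Bas.mA_ne_top M μ, Bas.mB_ne_top M t⟩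
  have h1 : M.xi μ t (S d M.r k) ≤ M.xi μ t (bx d (k * (M.r + 1))) :=
    xi_mono M μ t (S_sub M.r k)
  have h2 := ENNReal.toReal_mono (Bas.xi_ne_top M μ t _) h1
  rw [xi_S, ENNReal.toReal_pow, ENNReal.toReal_add ENNReal.one_ne_top hm] at h2
  have h3 : (0 : ℝ) ≤ (M.mA μ + M.mB t).toReal := ENNReal.toReal_nonneg
  have h4 : (0 : ℝ) < (ENNReal.toReal 1 + (M.mA μ + M.mB t).toReal) ^ k ^ d := by
    rw [ENNReal.toReal_one]
    positivity
  have h5 := Real.log_le_log h4 h2
  rw [Real.log_pow, ENNReal.toReal_one] at h5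
  push_cast at h5
  exact h5

end P2

theorem Mx.IsP.ge_mass (hd : 1 ≤ d) (hp : M.IsP p) (μ t : ℝ) :
    Real.log (1 + (M.mA μ + M.mB t).toReal) ≤ (M.r + 1 : ℝ) ^ d * p μ t := by
  have hr : (0 : ℝ) < (M.r : ℝ) + 1 := by positivity
  have ht : Tendsto (fun k : ℕ => (k + 1) * (M.r + 1)) atTop atTop :=
    tendsto_atTop_mono (fun k => show k ≤ (k + 1) * (M.r + 1) by
      nlinarith [Nat.zero_le (k * M.r), Nat.zero_le M.r, Nat.zero_le k]) tendsto_id
  have h1 := (hp μ t).comp ht
  have h2 : Real.log (1 + (M.mA μ + M.mB t).toReal) / ((M.r : ℝ) + 1) ^ d ≤ p μ t := by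
    refine ge_of_tendsto' h1 fun k => ?_
    have h3 := P2.log_ge M μ t (k + 1)
    have hk : (0 : ℝ) < (((k + 1 : ℕ) : ℝ)) ^ d := by positivity
    show _ ≤ Real.log (M.xi μ t (bx d ((k + 1) * (M.r + 1)))).toReal /
      (((k + 1) * (M.r + 1) : ℕ) : ℝ) ^ d
    rw [Nat.cast_mul, mul_pow, Nat.cast_add M.r 1, Nat.cast_one,
      div_le_div_iff₀ (pow_pos hr d) (mul_pos hk (pow_pos hr d))]
    calc _ = (((k + 1 : ℕ) : ℝ) ^ d * Real.log (1 + (M.mA μ + M.mB t).toReal)) *
          ((M.r : ℝ) + 1) ^ d := by ring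
      _ ≤ _ := mul_le_mul_of_nonneg_right h3 (pow_pos hr d).le
  rw [div_le_iff₀ (pow_pos hr d)] at h2
  rw [mul_comm]
  exact h2
-- END ROW P2

/-
ROW P3. The a priori measure of M.onlyA is M.π.restrict {x | M.nB x = 0}; everything else is unchanged (so onlyA.w = w, onlyA.FA = FA
by rfl). Measure.restrict_pi_pi: (Measure.pi fun _ => π).restrict (Set.pi univ s) = Measure.pi fun _ => π.restrict s.
-/

-- BEGIN ROW P3
private theorem onlyA_w (μ t : ℝ) (X : Finset (Zd d)) : M.onlyA.w μ t X = M.w μ t X := rfl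

/-- The integral in the model without `B`. -/
theorem int_onlyA (X : Finset (Zd d)) {f : (Zd d → E) → ENNReal} (hf : Measurable f) :
    M.onlyA.int X f = M.int X ({ω | ∀ i ∈ X, M.nB (ω i) = 0}.indicator f) := by
  have := Bas.fin_π M
  have hS : MeasurableSet {ω : Zd d → E | ∀ i ∈ X, M.nB (ω i) = 0} := by
    have e : {ω : Zd d → E | ∀ i ∈ X, M.nB (ω i) = 0} =
        ⋂ i ∈ X, {ω : Zd d → E | M.nB (ω i) = 0} := by
      ext ω
      simp
    rw [e]
    refine Finset.measurableSet_biInter _ fun i _ => ?_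
    have h : Measurable fun ω : Zd d → E => ω i := measurable_pi_apply i
    exact h (Bas.measurableSet_nB0 M)
  unfold Mx.int
  simp only [lmarginal]
  show ∫⁻ y : X → E, f (Function.updateFinset (fun _ => M.e0) X y)
    ∂(Measure.pi fun _ : X => M.π.restrict {x | M.nB x = 0}) = _
  have h1 : (Measure.pi fun _ : X => M.π.restrict {x | M.nB x = 0}) =
      (Measure.pi fun _ : X => M.π).restrict (Set.pi Set.univ fun _ : X => {x | M.nB x = 0}) :=
    (Measure.restrict_pi_pi _ _).symm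
  rw [h1, ← lintegral_indicator (MeasurableSet.univ_pi fun _ => Bas.measurableSet_nB0 M)]
  refine lintegral_congr fun y => ?_
  by_cases hy : y ∈ Set.pi Set.univ fun _ : X => {x | M.nB x = 0}
  · rw [Set.indicator_of_mem hy, Set.indicator_of_mem]
    intro i hi
    rw [Function.updateFinset_def]
    simp only [hi, dite_true]
    exact hy ⟨i, hi⟩ (Set.mem_univ _)
  · rw [Set.indicator_of_notMem hy, Set.indicator_of_notMem]
    intro h
    apply hy
    intro i _
    have h2 := h i.1 i.2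
    rw [Function.updateFinset_def] at h2
    simpa using h2

theorem mB_onlyA (t : ℝ) : M.onlyA.mB t = 0 := by
  have h0 := Bas.measurableSet_nB0 M
  show ∫⁻ x in {x | 1 ≤ M.nB x}, ex (t * M.nB x) ∂(M.π.restrict {x | M.nB x = 0}) = 0
  rw [Measure.restrict_restrict (Bas.measurableSet_B M)]
  have e : {x | 1 ≤ M.nB x} ∩ {x | M.nB x = 0} = ∅ := by
    ext x
    simp only [Set.mem_inter_iff, Set.mem_ofPred_eq, Set.mem_empty_iff_false, iff_false, not_and]
    omega
  rw [e, Measure.restrict_empty, lintegral_zero_measure]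

private theorem xi_onlyA_le (μ t : ℝ) (X : Finset (Zd d)) : M.onlyA.xi μ t X ≤ M.xi μ t X := by
  unfold Mx.xi
  rw [onlyA_w, int_onlyA X (Bas.measurable_w M μ t X)]
  exact Bas.int_mono M X fun ω => Set.indicator_le_self _ _ ω

/-- The pressure of the pure system is smaller. -/
theorem Mx.IsP.onlyA_le (hp : M.IsP p) (hq : M.onlyA.IsP q) (μ t : ℝ) : q μ t ≤ p μ t := by
  refine le_of_tendsto_of_tendsto' (hq μ t) (hp μ t) fun L => ?_
  refine div_le_div_of_nonneg_right ?_ (by positivity)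
  exact Real.log_le_log (Bas.xi_pos M.onlyA μ t _)
    (ENNReal.toReal_mono (Bas.xi_ne_top M μ t _) (xi_onlyA_le μ t _))

theorem Mx.IsP.onlyB_le (hp : M.IsP p) (hq : M.onlyB.IsP q) (μ t : ℝ) : q μ t ≤ p μ t :=
  Mx.IsP.onlyA_le (M := M.swap) (Bas.isP_swap M hp) (Bas.isP_swap M.onlyB hq) t μ

/-- The pressure of the pure system does not depend on the other field. -/
theorem onlyA_indep (hq : M.onlyA.IsP q) (μ t t' : ℝ) : q μ t = q μ t' := by
  have h : ∀ X : Finset (Zd d), M.onlyA.xi μ t X = M.onlyA.xi μ t' X := by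
    intro X
    unfold Mx.xi
    rw [onlyA_w, onlyA_w, int_onlyA X (Bas.measurable_w M μ t X),
      int_onlyA X (Bas.measurable_w M μ t' X)]
    congr 1
    funext ω
    by_cases hω : ω ∈ {ω : Zd d → E | ∀ i ∈ X, M.nB (ω i) = 0}
    · rw [Set.indicator_of_mem hω, Set.indicator_of_mem hω]
      by_cases hc : M.cp id X ω
      · rw [Bas.w_of_cp M hc, Bas.w_of_cp M hc]
        exact prod_congr rfl fun i hi => by rw [Bas.st_A M (hω i hi), Bas.st_A M (hω i hi)]
      · rw [Bas.w_of_not M hc, Bas.w_of_not M hc]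
    · rw [Set.indicator_of_notMem hω, Set.indicator_of_notMem hω]
  refine tendsto_nhds_unique (hq μ t) ?_
  simp only [h]
  exact hq μ t'

theorem onlyB_indep (hq : M.onlyB.IsP q) (μ μ' t : ℝ) : q μ t = q μ' t :=
  onlyA_indep (M := M.swap) (q := fun a b => q b a) (Bas.isP_swap M.onlyB hq) t μ μ'

/-- The pressure of the pure system dominates the mass. -/
theorem onlyB_ge_mass (hd : 1 ≤ d) (hq : M.onlyB.IsP q) (μ t : ℝ) :
    Real.log (1 + (M.mB t).toReal) ≤ (M.r + 1 : ℝ) ^ d * q μ t := by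
  have h := Mx.IsP.ge_mass hd hq μ t
  have hA : M.onlyB.mA μ = 0 := mB_onlyA (M := M.swap) μ
  have hB : M.onlyB.mB t = M.mB t := by
    show ∫⁻ x in {x | 1 ≤ M.nB x}, ex (t * M.nB x) ∂(M.π.restrict {x | M.nA x = 0}) = _
    rw [Measure.restrict_restrict (Bas.measurableSet_B M)]
    have e : {x | 1 ≤ M.nB x} ∩ {x | M.nA x = 0} = {x | 1 ≤ M.nB x} := by
      ext x
      simp only [Set.mem_inter_iff, Set.mem_ofPred_eq, and_iff_left_iff_imp]
      intro hx
      rcases M.not_AB x with h | h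
      · exact h
      · omega
    rw [e]
    rfl
  rw [hA, hB, zero_add] at h
  exact h
-- END ROW P3

end Pool.Agent.Mix
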