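import Mathlib

/-!
# Two arguments of convex analysis
-/

set_option autoImplicit false

namespace Pool.Agent.Mix

open Filter Topology

/-
ROW CX. P is convex on R^2, so continuous. Suppose both inequalities hold at (μ0, t0', D0), t0' >= t0, D0 > 0. K = {(μ, t, D) : μ >= μ0, t >= t0', D >= D0,
 θ D <= P μ t - P (μ - D) t, θ D <= P μ t - P μ (t - D)} is closed; on it D <= 1/2 (h1). φ = D - ((μ - μ0) + (t - t0')) / 2; the part of K with
 φ >= D0 is compact ((μ - μ0) + (t - t0') <= 2 (D - D0) <= 1) and nonempty: take a maximiser. If the first inequality is strict there, move to (μ, t + δ, D + δ)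
 for small δ > 0: the first stays true by continuity; the second: P μ (t + δ) - P μ (t - D) = (P μ (t + δ) - P μ t) + (P μ t - P μ (t - D)) >= θ δ + θ D, because
 by convexity in t the slope over [t, t + δ] is at least the slope over [t - D, t], which is >= θ; φ increases by δ / 2: contradiction. Similarly if the second
 is strict (move μ + δ, D + δ). So both are equalities: contradiction to h2.
-/
-- BEGIN ROW CX
namespace CX

theorem cont {P : ℝ → ℝ → ℝ} (hP : ConvexOn ℝ Set.univ fun q : ℝ × ℝ => P q.1 q.2) :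
    Continuous fun q : ℝ × ℝ => P q.1 q.2 := by
  rw [← continuousOn_univ]
  exact hP.continuousOn isOpen_univ

theorem slope {f : ℝ → ℝ} (hf : ConvexOn ℝ Set.univ f) {x D δ θ : ℝ} (hD : 0 < D) (hδ : 0 < δ)
    (h : θ * D ≤ f x - f (x - D)) : θ * (D + δ) ≤ f (x + δ) - f (x - D) := by
  have h1 := hf.slope_mono_adjacent (Set.mem_univ (x - D)) (Set.mem_univ (x + δ))
    (show x - D < x by linarith) (show x < x + δ by linarith)
  have h2 : x - (x - D) = D := by ring
  have h3 : x + δ - x = δ := by ring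
  rw [h2, h3] at h1
  have h4 : θ ≤ (f x - f (x - D)) / D := by
    rw [le_div_iff₀ hD]
    exact h
  have h5 : θ ≤ (f (x + δ) - f x) / δ := h4.trans h1
  rw [le_div_iff₀ hδ] at h5
  linarith

theorem sec1 {P : ℝ → ℝ → ℝ} (hP : ConvexOn ℝ Set.univ fun q : ℝ × ℝ => P q.1 q.2) (t : ℝ) :
    ConvexOn ℝ Set.univ fun μ => P μ t := by
  refine ⟨convex_univ, fun x _ y _ a b ha hb hab => ?_⟩
  have h := hP.2 (Set.mem_univ (x, t)) (Set.mem_univ (y, t)) ha hb hab
  have e : a • ((x, t) : ℝ × ℝ) + b • ((y, t) : ℝ × ℝ) = (a • x + b • y, t) := by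
    ext
    · simp
    · simp only [Prod.smul_mk, Prod.mk_add_mk, smul_eq_mul]
      rw [← add_mul, hab, one_mul]
  rw [e] at h
  exact h

theorem sec2 {P : ℝ → ℝ → ℝ} (hP : ConvexOn ℝ Set.univ fun q : ℝ × ℝ => P q.1 q.2) (μ : ℝ) :
    ConvexOn ℝ Set.univ fun t => P μ t := by
  refine ⟨convex_univ, fun x _ y _ a b ha hb hab => ?_⟩
  have h := hP.2 (Set.mem_univ (μ, x)) (Set.mem_univ (μ, y)) ha hb hab
  have e : a • ((μ, x) : ℝ × ℝ) + b • ((μ, y) : ℝ × ℝ) = (μ, a • x + b • y) := by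
    ext
    · simp only [Prod.smul_mk, Prod.mk_add_mk, smul_eq_mul]
      rw [← add_mul, hab, one_mul]
    · simp
  rw [e] at h
  exact h

end CX

theorem no_both (P : ℝ → ℝ → ℝ) (hP : ConvexOn ℝ Set.univ fun q : ℝ × ℝ => P q.1 q.2) {θ t0 : ℝ}
    (hθ : 0 < θ)
    (h1 : ∀ μ t D, t0 ≤ t → 0 < D → θ * D ≤ P μ t - P (μ - D) t → θ * D ≤ P μ t - P μ (t - D) →
      D ≤ 1 / 2)
    (h2 : ∀ μ t D, t0 ≤ t → 0 < D → D ≤ 1 / 2 →
      ¬ (P μ t - P (μ - D) t = θ * D ∧ P μ t - P μ (t - D) = θ * D)) :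
    ∀ μ t D, t0 ≤ t → 0 < D →
      ¬ (θ * D ≤ P μ t - P (μ - D) t ∧ θ * D ≤ P μ t - P μ (t - D)) := by
  rintro μ0 t1 D0 ht1 hD0 ⟨hA, hB⟩
  have hc := CX.cont hP
  let F1 : ℝ × ℝ × ℝ → ℝ := fun q => P q.1 q.2.1 - P (q.1 - q.2.2) q.2.1 - θ * q.2.2
  let F2 : ℝ × ℝ × ℝ → ℝ := fun q => P q.1 q.2.1 - P q.1 (q.2.1 - q.2.2) - θ * q.2.2
  let φ : ℝ × ℝ × ℝ → ℝ := fun q => 2 * q.2.2 - (q.1 - μ0) - (q.2.1 - t1)
  have hF1 : Continuous F1 := by
    have e1 : Continuous fun q : ℝ × ℝ × ℝ => P q.1 q.2.1 :=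
      hc.comp (continuous_fst.prodMk (continuous_fst.comp continuous_snd))
    have e2 : Continuous fun q : ℝ × ℝ × ℝ => P (q.1 - q.2.2) q.2.1 :=
      hc.comp ((continuous_fst.sub (continuous_snd.comp continuous_snd)).prodMk
        (continuous_fst.comp continuous_snd))
    exact (e1.sub e2).sub (continuous_const.mul (continuous_snd.comp continuous_snd))
  have hF2 : Continuous F2 := by
    have e1 : Continuous fun q : ℝ × ℝ × ℝ => P q.1 q.2.1 :=
      hc.comp (continuous_fst.prodMk (continuous_fst.comp continuous_snd))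
    have e2 : Continuous fun q : ℝ × ℝ × ℝ => P q.1 (q.2.1 - q.2.2) :=
      hc.comp (continuous_fst.prodMk
        ((continuous_fst.comp continuous_snd).sub (continuous_snd.comp continuous_snd)))
    exact (e1.sub e2).sub (continuous_const.mul (continuous_snd.comp continuous_snd))
  have hφ : Continuous φ := by
    show Continuous fun q : ℝ × ℝ × ℝ => 2 * q.2.2 - (q.1 - μ0) - (q.2.1 - t1)
    fun_prop
  let S : Set (ℝ × ℝ × ℝ) := {q | μ0 ≤ q.1 ∧ t1 ≤ q.2.1 ∧ D0 ≤ q.2.2 ∧ 0 ≤ F1 q ∧ 0 ≤ F2 q ∧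
    2 * D0 ≤ φ q}
  have hS1 : ∀ q ∈ S, q.2.2 ≤ 1 / 2 := by
    rintro q ⟨_, g2, g3, g4, g5, _⟩
    refine h1 q.1 q.2.1 q.2.2 (ht1.trans g2) (hD0.trans_le g3) ?_ ?_
    · have : 0 ≤ P q.1 q.2.1 - P (q.1 - q.2.2) q.2.1 - θ * q.2.2 := g4
      linarith
    · have : 0 ≤ P q.1 q.2.1 - P q.1 (q.2.1 - q.2.2) - θ * q.2.2 := g5
      linarith
  have hSc : IsCompact S := by
    refine IsCompact.of_isClosed_subset
      (isCompact_Icc (a := ((μ0, t1, D0) : ℝ × ℝ × ℝ)) (b := (μ0 + 1, t1 + 1, 1 / 2))) ?_ ?_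
    · refine (isClosed_le continuous_const continuous_fst).inter
        ((isClosed_le continuous_const (continuous_fst.comp continuous_snd)).inter
        ((isClosed_le continuous_const (continuous_snd.comp continuous_snd)).inter
        ((isClosed_le continuous_const hF1).inter
        ((isClosed_le continuous_const hF2).inter (isClosed_le continuous_const hφ)))))
    · intro q hq
      have g0 := hS1 q hq
      obtain ⟨g1, g2, g3, _, _, g6⟩ := hq
      have g7 : 2 * D0 ≤ 2 * q.2.2 - (q.1 - μ0) - (q.2.1 - t1) := g6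
      exact ⟨⟨g1, g2, g3⟩, ⟨by show q.1 ≤ μ0 + 1; linarith, by show q.2.1 ≤ t1 + 1; linarith, g0⟩⟩
  have hne : S.Nonempty := by
    refine ⟨(μ0, t1, D0), le_refl _, le_refl _, le_refl _, ?_, ?_, ?_⟩
    · show 0 ≤ P μ0 t1 - P (μ0 - D0) t1 - θ * D0
      linarith
    · show 0 ≤ P μ0 t1 - P μ0 (t1 - D0) - θ * D0
      linarith
    · show 2 * D0 ≤ 2 * D0 - (μ0 - μ0) - (t1 - t1)
      linarith
  obtain ⟨⟨μ, t, D⟩, hq, hmax⟩ := hSc.exists_isMaxOn hne hφ.continuousOn
  have hD12 : D ≤ 1 / 2 := hS1 _ hq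
  obtain ⟨g1, g2, g3, g4, g5, g6⟩ := hq
  replace g1 : μ0 ≤ μ := g1
  replace g2 : t1 ≤ t := g2
  replace g3 : D0 ≤ D := g3
  replace g4 : 0 ≤ P μ t - P (μ - D) t - θ * D := g4
  replace g5 : 0 ≤ P μ t - P μ (t - D) - θ * D := g5
  replace g6 : 2 * D0 ≤ 2 * D - (μ - μ0) - (t - t1) := g6
  have hD : 0 < D := hD0.trans_le g3
  have hno := h2 μ t D (ht1.trans g2) hD hD12
  by_cases hs : 0 < P μ t - P (μ - D) t - θ * D
  · -- move up in `t`
    have hcont : Continuous fun δ : ℝ => F1 (μ, t + δ, D + δ) :=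
      hF1.comp (continuous_const.prodMk ((continuous_const.add continuous_id).prodMk
        (continuous_const.add continuous_id)))
    have h0 : 0 < F1 (μ, t + 0, D + 0) := by
      show 0 < P μ (t + 0) - P (μ - (D + 0)) (t + 0) - θ * (D + 0)
      simpa using hs
    have hev : ∀ᶠ δ in 𝓝[>] (0 : ℝ), 0 < F1 (μ, t + δ, D + δ) :=
      (hcont.continuousAt.eventually (lt_mem_nhds h0)).filter_mono nhdsWithin_le_nhds
    obtain ⟨δ, hδ1, hδ0⟩ := (hev.and self_mem_nhdsWithin).exists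
    replace hδ0 : 0 < δ := hδ0
    have hsl := CX.slope (CX.sec2 hP μ) hD hδ0 (show θ * D ≤ P μ t - P μ (t - D) by linarith)
    have hmem : (μ, t + δ, D + δ) ∈ S := by
      refine ⟨g1, ?_, ?_, hδ1.le, ?_, ?_⟩
      · show t1 ≤ t + δ
        linarith
      · show D0 ≤ D + δ
        linarith
      · show 0 ≤ P μ (t + δ) - P μ (t + δ - (D + δ)) - θ * (D + δ)
        rw [show t + δ - (D + δ) = t - D by ring]
        linarith
      · show 2 * D0 ≤ 2 * (D + δ) - (μ - μ0) - (t + δ - t1)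
        linarith
    have h3 := hmax hmem
    have h4 : 2 * (D + δ) - (μ - μ0) - (t + δ - t1) ≤ 2 * D - (μ - μ0) - (t - t1) := h3
    linarith
  · by_cases hs2 : 0 < P μ t - P μ (t - D) - θ * D
    · have hcont : Continuous fun δ : ℝ => F2 (μ + δ, t, D + δ) :=
        hF2.comp ((continuous_const.add continuous_id).prodMk (continuous_const.prodMk
          (continuous_const.add continuous_id)))
      have h0 : 0 < F2 (μ + 0, t, D + 0) := by
        show 0 < P (μ + 0) t - P (μ + 0) (t - (D + 0)) - θ * (D + 0)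
        simpa using hs2
      have hev : ∀ᶠ δ in 𝓝[>] (0 : ℝ), 0 < F2 (μ + δ, t, D + δ) :=
        (hcont.continuousAt.eventually (lt_mem_nhds h0)).filter_mono nhdsWithin_le_nhds
      obtain ⟨δ, hδ1, hδ0⟩ := (hev.and self_mem_nhdsWithin).exists
      replace hδ0 : 0 < δ := hδ0
      have hsl := CX.slope (CX.sec1 hP t) hD hδ0 (show θ * D ≤ P μ t - P (μ - D) t by linarith)
      have hmem : (μ + δ, t, D + δ) ∈ S := by
        refine ⟨?_, g2, ?_, ?_, hδ1.le, ?_⟩
        · show μ0 ≤ μ + δ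
          linarith
        · show D0 ≤ D + δ
          linarith
        · show 0 ≤ P (μ + δ) t - P (μ + δ - (D + δ)) t - θ * (D + δ)
          rw [show μ + δ - (D + δ) = μ - D by ring]
          linarith
        · show 2 * D0 ≤ 2 * (D + δ) - (μ + δ - μ0) - (t - t1)
          linarith
      have h3 := hmax hmem
      have h4 : 2 * (D + δ) - (μ + δ - μ0) - (t - t1) ≤ 2 * D - (μ - μ0) - (t - t1) := h3
      linarith
    · exact hno ⟨by linarith, by linarith⟩
-- END ROW CX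

/-
ROW KI. Suppose g μ = P μ 0 is differentiable. g is convex, monotone, nonnegative. g' is monotone (convexity) and has the Darboux property (derivative), g' -> 0 at
 -infinity: g' (μ - L) <= (g μ - g (μ - L)) / L <= g μ / L; and g' μ >= (g μ - g 0) / μ >= 3 θ - (b + g 0) / μ > 2 θ for large μ. So there is x with g' x = 2 θ
 (exists_hasDerivAt / Darboux: exists_deriv_eq... or continuity of the derivative of a convex differentiable function).
 For small D > 0: (g x - g (x - D)) / D -> 2 θ > θ, so by hmin (P x 0 - P x (-D)) < θ D. For small s > 0: midpoint convexity with the points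
 (x - 2 s, -2 s) and (x + 2 s, 0), midpoint (x, -s):  P (x - 2 s) (-2 s) >= 2 P x (-s) - P (x + 2 s) 0 >= 2 (g x - θ s) - g (x + 2 s), and
 g (x + 2 s) <= g x + 2 s (2 θ + ε) for small s. So P (x - 2 s) (-2 s) >= g x - 2 s (3 θ + ε). By convexity along the segment from (x, 0) to (x - 1, -1):
 P (x - 1) (-1) >= g x - (3 θ + ε) [P at (x - 2s, -2s) <= (1 - 2s) P x 0 + 2 s P (x - 1) (-1)]. With hstar: c <= 3 θ + ε for every ε > 0: contradiction to h3.
-/
-- BEGIN ROW KI
theorem not_diff (P : ℝ → ℝ → ℝ) (hP : ConvexOn ℝ Set.univ fun q : ℝ × ℝ => P q.1 q.2)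
    (hmono : Monotone fun μ => P μ 0) (hnn : ∀ μ, 0 ≤ P μ 0) {θ c b : ℝ} (hθ : 0 < θ)
    (h3 : 3 * θ < c) (hstar : ∀ μ, P (μ - 1) (-1) ≤ P μ 0 - c)
    (hmin : ∀ μ D, 0 < D → ¬ (θ * D ≤ P μ 0 - P (μ - D) 0 ∧ θ * D ≤ P μ 0 - P μ (-D)))
    (hlin : ∀ μ, 0 ≤ μ → 3 * θ * μ - b ≤ P μ 0) : ¬ Differentiable ℝ fun μ => P μ 0 := by
  intro hd
  -- a global minimiser of g μ - 2 θ μ
  have hcont : Continuous fun μ => P μ 0 - 2 * θ * μ :=
    hd.continuous.sub (continuous_const.mul continuous_id)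
  have hlim : Tendsto (fun μ => P μ 0 - 2 * θ * μ) (cocompact ℝ) atTop := by
    rw [cocompact_eq_atBot_atTop, tendsto_sup]
    constructor
    · refine tendsto_atTop_mono (f := fun μ => (-(2 * θ)) * μ) (fun μ => ?_) ?_
      · have := hnn μ
        linarith
      · exact tendsto_id.const_mul_atBot_of_neg (by linarith)
    · have h1 : Tendsto (fun μ : ℝ => θ * μ + -b) atTop atTop :=
        tendsto_atTop_add_const_right _ _ (tendsto_id.const_mul_atTop hθ)
      refine tendsto_atTop_mono' _ ?_ h1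
      filter_upwards [eventually_ge_atTop (0 : ℝ)] with μ hμ
      have := hlin μ hμ
      nlinarith
  obtain ⟨x, hx⟩ := hcont.exists_forall_le hlim
  have hderiv : HasDerivAt (fun μ => P μ 0) (2 * θ) x := by
    have hg : HasDerivAt (fun μ => P μ 0) (deriv (fun μ => P μ 0) x) x := (hd x).hasDerivAt
    have hh : HasDerivAt (fun μ => P μ 0 - 2 * θ * μ) (deriv (fun μ => P μ 0) x - 2 * θ) x := by
      have h2 : HasDerivAt (fun μ : ℝ => 2 * θ * μ) (2 * θ) x := by
        simpa using (hasDerivAt_id x).const_mul (2 * θ)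
      exact hg.sub h2
    have hmin0 : IsLocalMin (fun μ => P μ 0 - 2 * θ * μ) x := Eventually.of_forall hx
    have h0 := hmin0.hasDerivAt_eq_zero hh
    have h1 : deriv (fun μ => P μ 0) x = 2 * θ := by linarith
    rw [← h1]
    exact hg
  have hε : 0 < min (c - 3 * θ) θ := lt_min (by linarith) hθ
  have hev := (hasDerivAt_iff_isLittleO.1 hderiv).def hε
  obtain ⟨δ, hδ, hball⟩ := Metric.eventually_nhds_iff.1 hev
  set ε := min (c - 3 * θ) θ with hεdef
  have hε1 : ε ≤ c - 3 * θ := min_le_left _ _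
  have hε2 : ε ≤ θ := min_le_right _ _
  obtain ⟨s, hs0, hs1, hs2⟩ : ∃ s : ℝ, 0 < s ∧ 2 * s < δ ∧ 2 * s < 1 := by
    refine ⟨min δ 1 / 4, by positivity, ?_, ?_⟩
    · have := min_le_left δ 1
      linarith
    · have := min_le_right δ 1
      linarith
  have hm := hball (y := x - s) (by rw [Real.dist_eq]; rw [abs_lt]; constructor <;> linarith)
  have hp := hball (y := x + 2 * s) (by rw [Real.dist_eq]; rw [abs_lt]; constructor <;> linarith)
  have e1 : x - s - x = -s := by ring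
  have e2 : x + 2 * s - x = 2 * s := by ring
  rw [e1, Real.norm_eq_abs, Real.norm_eq_abs, abs_neg, abs_of_pos hs0, smul_eq_mul] at hm
  rw [e2, Real.norm_eq_abs, Real.norm_eq_abs, abs_of_pos (by linarith : (0 : ℝ) < 2 * s),
    smul_eq_mul] at hp
  have hm1 := (abs_le.1 hm).2
  have hp1 := (abs_le.1 hp).2
  have hεs : ε * s ≤ θ * s := mul_le_mul_of_nonneg_right hε2 hs0.le
  have hfirst : θ * s ≤ P x 0 - P (x - s) 0 := by nlinarith
  have hsec : P x 0 - P x (-s) < θ * s := by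
    by_contra hcon
    exact hmin x s hs0 ⟨hfirst, not_lt.1 hcon⟩
  have hc1 : P x (-s) ≤ 1 / 2 * P (x - 2 * s) (-(2 * s)) + 1 / 2 * P (x + 2 * s) 0 := by
    have := hP.2 (Set.mem_univ (x - 2 * s, -(2 * s))) (Set.mem_univ (x + 2 * s, (0 : ℝ)))
      (by norm_num : (0 : ℝ) ≤ 1 / 2) (by norm_num : (0 : ℝ) ≤ 1 / 2) (by norm_num)
    simp only [Prod.smul_mk, Prod.mk_add_mk, smul_eq_mul] at this
    have f1 : 1 / 2 * (x - 2 * s) + 1 / 2 * (x + 2 * s) = x := by ring
    have f2 : 1 / 2 * (-(2 * s)) + 1 / 2 * 0 = -s := by ring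
    rw [f1, f2] at this
    exact this
  have hc2 : P (x - 2 * s) (-(2 * s)) ≤ (1 - 2 * s) * P x 0 + 2 * s * P (x - 1) (-1) := by
    have := hP.2 (Set.mem_univ (x, (0 : ℝ))) (Set.mem_univ (x - 1, (-1 : ℝ)))
      (by linarith : (0 : ℝ) ≤ 1 - 2 * s) (by linarith : (0 : ℝ) ≤ 2 * s) (by ring)
    simp only [Prod.smul_mk, Prod.mk_add_mk, smul_eq_mul] at this
    have f1 : (1 - 2 * s) * x + 2 * s * (x - 1) = x - 2 * s := by ring
    have f2 : (1 - 2 * s) * 0 + 2 * s * (-1) = -(2 * s) := by ring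
    rw [f1, f2] at this
    exact this
  have hst := hstar x
  have hst2 : 2 * s * P (x - 1) (-1) ≤ 2 * s * (P x 0 - c) :=
    mul_le_mul_of_nonneg_left hst (by linarith)
  have hεs1 : ε * s ≤ (c - 3 * θ) * s := mul_le_mul_of_nonneg_right hε1 hs0.le
  nlinarith
-- END ROW KI

end Pool.Agent.Mix
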