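import Pool.Agent.Lib.MP_09cbbd_mix.Bas

/-!
# Emptying cells
-/

set_option autoImplicit false

namespace Pool.Agent.Mix

open MeasureTheory Finset Filter Topology Pool.Agent.StableGas Pool.Agent.SquareWell

variable {d : ℕ} {E : Type} [MeasurableSpace E] (M : Mx d E)

/-
ROW EM. Induction on D. Step D -> insert j D (j in B', j notin D): on {no B-type content in D} split according to 1 <= nB (ω j).
 The part with nB (ω j) = 0 is the integral of the indicator for insert j D. The other part: wG (B') ω <= st (m j) (τ j) (ω j) * wG (B'.erase j) ω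
 (Bas.wG_union_le for {j} and B'.erase j, or cp_mono + prod), the integral over ω j gives mB (τ j) (on 1 <= nB we have nA = 0, Bas.st_B), and
 lm (B'.erase j) (1[no B in D] wG (B'.erase j)) <= lm B' (1[no B in insert j D] wG B') because putting e0 in j gives a compatible configuration
 with the same weight (Bas.lm_le_of_subset / Bas.le_lm, Bas.ok_e0, Bas.ok_e0_right, Bas.st_e0). Use lmarginal_erase' / lmarginal_insert.
-/

-- BEGIN ROW EM
namespace EM

theorem le_int {g : E → ENNReal} (hg : Measurable g) : g M.e0 ≤ ∫⁻ e, g e ∂M.π := by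
  refine le_trans ?_ (mul_meas_ge_le_lintegral (μ := M.π) hg (g M.e0))
  have h1 : (1 : ENNReal) ≤ M.π {x | g M.e0 ≤ g x} := by
    rw [← M.π_e0]
    refine measure_mono ?_
    intro y hy
    rw [Set.mem_singleton_iff.1 hy]
    exact le_refl (g M.e0)
  calc g M.e0 = g M.e0 * 1 := (mul_one _).symm
    _ ≤ _ := mul_le_mul' le_rfl h1

variable {Γ : Type} [AddCommGroup Γ] [DecidableEq Γ] (φ : Zd d → Γ) (m τ : Γ → ℝ)

theorem site {B' : Finset Γ} {j : Γ} (hj : j ∈ B') (x : Γ → E) (e : E) :
    M.wG φ m τ B' (Function.update x j e) ≤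
      M.st (m j) (τ j) e * M.wG φ m τ B' (Function.update x j M.e0) := by
  by_cases h : M.cp φ B' (Function.update x j e)
  · have h' : M.cp φ B' (Function.update x j M.e0) := by
      intro v hv h0 i hi hi2
      by_cases h1 : i = j
      · rw [h1, Function.update_self]
        exact Bas.ok_e0 M v _
      · by_cases h2 : i + φ v = j
        · rw [h2, Function.update_self]
          exact Bas.ok_e0_right M v _
        · have h3 := h v hv h0 i hi hi2
          rw [Function.update_of_ne h1, Function.update_of_ne h2] at h3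
          rw [Function.update_of_ne h1, Function.update_of_ne h2]
          exact h3
    rw [Bas.wG_of_cp M φ h, Bas.wG_of_cp M φ h',
      ← mul_prod_erase B' (fun i => M.st (m i) (τ i) (Function.update x j e i)) hj,
      ← mul_prod_erase B' (fun i => M.st (m i) (τ i) (Function.update x j M.e0 i)) hj,
      Function.update_self, Function.update_self, Bas.st_e0, one_mul]
    refine mul_le_mul' le_rfl (le_of_eq (prod_congr rfl fun i hi => ?_))
    rw [Function.update_of_ne (ne_of_mem_erase hi), Function.update_of_ne (ne_of_mem_erase hi)]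
  · rw [Bas.wG_of_not M φ h]
    exact zero_le

theorem step_pt {B' D : Finset Γ} {j : Γ} (hj : j ∈ B') (hjD : j ∉ D) (x : Γ → E) :
    ∫⁻ e, ({ω : Γ → E | ∀ i ∈ D, M.nB (ω i) = 0}.indicator (M.wG φ m τ B'))
        (Function.update x j e) ∂M.π ≤ (1 + M.mB (τ j)) *
      ∫⁻ e, ({ω : Γ → E | ∀ i ∈ insert j D, M.nB (ω i) = 0}.indicator (M.wG φ m τ B'))
        (Function.update x j e) ∂M.π := by
  set F : E → ENNReal := fun e => M.wG φ m τ B' (Function.update x j e) with hF
  have hFm : Measurable F := (Bas.measurable_wG M φ m τ B').comp (measurable_update x)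
  have hne : ∀ i ∈ D, i ≠ j := fun i hi h => hjD (h ▸ hi)
  by_cases hD : ∀ i ∈ D, M.nB (x i) = 0
  · have e1 : ∀ e, ({ω : Γ → E | ∀ i ∈ D, M.nB (ω i) = 0}.indicator (M.wG φ m τ B'))
        (Function.update x j e) = F e := by
      intro e
      refine Set.indicator_of_mem ?_ _
      intro i hi
      rw [Function.update_of_ne (hne i hi)]
      exact hD i hi
    have e2 : ∀ e, ({ω : Γ → E | ∀ i ∈ insert j D, M.nB (ω i) = 0}.indicator (M.wG φ m τ B'))
        (Function.update x j e) = {e | M.nB e = 0}.indicator F e := by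
      intro e
      by_cases he : M.nB e = 0
      · rw [Set.indicator_of_mem (show e ∈ {e | M.nB e = 0} from he)]
        refine Set.indicator_of_mem ?_ _
        intro i hi
        rcases mem_insert.1 hi with rfl | hi
        · rw [Function.update_self]
          exact he
        · rw [Function.update_of_ne (hne i hi)]
          exact hD i hi
      · rw [Set.indicator_of_notMem (show e ∉ {e | M.nB e = 0} from he)]
        refine Set.indicator_of_notMem ?_ _
        intro h
        have h2 : M.nB (Function.update x j e j) = 0 := h j (mem_insert_self j D)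
        rw [Function.update_self] at h2
        exact he h2
    simp only [e1, e2]
    have hG : Measurable ({e | M.nB e = 0}.indicator F) :=
      hFm.indicator (Bas.measurableSet_nB0 M)
    have h3 : F M.e0 ≤ ∫⁻ e, {e | M.nB e = 0}.indicator F e ∂M.π := by
      have h4 := le_int M hG
      rwa [Set.indicator_of_mem (show M.e0 ∈ {e | M.nB e = 0} from M.nB_e0)] at h4
    have h5 : ∀ e, F e ≤ {e | M.nB e = 0}.indicator F e +
        ({e | 1 ≤ M.nB e}.indicator (fun e => ex (τ j * M.nB e)) e) * F M.e0 := by
      intro e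
      by_cases he : M.nB e = 0
      · rw [Set.indicator_of_mem (show e ∈ {e | M.nB e = 0} from he)]
        exact le_self_add
      · have he1 : 1 ≤ M.nB e := Nat.pos_of_ne_zero he
        have he2 : M.nA e = 0 := (M.not_AB e).resolve_right he
        rw [Set.indicator_of_notMem (show e ∉ {e | M.nB e = 0} from he), zero_add,
          Set.indicator_of_mem (show e ∈ {e | 1 ≤ M.nB e} from he1)]
        have h6 := site M φ m τ hj x e
        rwa [Bas.st_B M he2] at h6
    have hm : Measurable fun e => {e | 1 ≤ M.nB e}.indicator (fun e => ex (τ j * M.nB e)) e :=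
      (Bas.measurable_ex ((Bas.measurable_nB' M).const_mul (τ j))).indicator
        (Bas.measurableSet_B M)
    calc ∫⁻ e, F e ∂M.π ≤ ∫⁻ e, ({e | M.nB e = 0}.indicator F e +
        ({e | 1 ≤ M.nB e}.indicator (fun e => ex (τ j * M.nB e)) e) * F M.e0) ∂M.π :=
          lintegral_mono h5
      _ = ∫⁻ e, {e | M.nB e = 0}.indicator F e ∂M.π + M.mB (τ j) * F M.e0 := by
          rw [lintegral_add_left hG, lintegral_mul_const _ hm,
            lintegral_indicator (Bas.measurableSet_B M)]
          rfl
      _ ≤ ∫⁻ e, {e | M.nB e = 0}.indicator F e ∂M.π +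
          M.mB (τ j) * ∫⁻ e, {e | M.nB e = 0}.indicator F e ∂M.π :=
          add_le_add le_rfl (mul_le_mul' le_rfl h3)
      _ = _ := by rw [add_mul, one_mul]
  · have e1 : ∀ e, ({ω : Γ → E | ∀ i ∈ D, M.nB (ω i) = 0}.indicator (M.wG φ m τ B'))
        (Function.update x j e) = 0 := by
      intro e
      refine Set.indicator_of_notMem ?_ _
      intro h
      apply hD
      intro i hi
      have h2 : M.nB (Function.update x j e i) = 0 := h i hi
      rwa [Function.update_of_ne (hne i hi)] at h2
    simp only [e1, lintegral_zero]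
    exact zero_le

omit [DecidableEq Γ] in
theorem measurable_ind (B' D : Finset Γ) :
    Measurable ({ω : Γ → E | ∀ i ∈ D, M.nB (ω i) = 0}.indicator (M.wG φ m τ B')) := by
  refine (Bas.measurable_wG M φ m τ B').indicator ?_
  have e : {ω : Γ → E | ∀ i ∈ D, M.nB (ω i) = 0} = ⋂ i ∈ D, {ω : Γ → E | M.nB (ω i) = 0} := by
    ext ω
    simp only [Set.mem_ofPred_eq, Set.mem_iInter]
  rw [e]
  exact Finset.measurableSet_biInter _ fun i _ =>
    (M.measurable_nB.comp (measurable_pi_apply i)) (measurableSet_singleton 0)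

theorem step {B' D : Finset Γ} {j : Γ} (hj : j ∈ B') (hjD : j ∉ D) (x : Γ → E) :
    lmarginal (fun _ : Γ => M.π) B'
        ({ω : Γ → E | ∀ i ∈ D, M.nB (ω i) = 0}.indicator (M.wG φ m τ B')) x ≤
      (1 + M.mB (τ j)) * lmarginal (fun _ : Γ => M.π) B'
        ({ω : Γ → E | ∀ i ∈ insert j D, M.nB (ω i) = 0}.indicator (M.wG φ m τ B')) x := by
  have := Bas.fin_π M
  have hdis : Disjoint (B'.erase j) {j} := by
    rw [disjoint_singleton_right]
    exact notMem_erase j B'
  have hun : B'.erase j ∪ {j} = B' := by
    rw [union_comm, ← insert_eq, insert_erase hj]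
  have e1 : ∀ f : (Γ → E) → ENNReal, Measurable f → lmarginal (fun _ : Γ => M.π) B' f x =
      lmarginal (fun _ : Γ => M.π) (B'.erase j) (lmarginal (fun _ : Γ => M.π) {j} f) x := by
    intro f hf
    rw [← lmarginal_union _ f hf hdis, hun]
  rw [e1 _ (measurable_ind M φ m τ B' D), e1 _ (measurable_ind M φ m τ B' (insert j D)),
    ← Bas.lm_const_mul M (B'.erase j) ((measurable_ind M φ m τ B' (insert j D)).lmarginal _)]
  refine Bas.lm_mono M _ (fun y => ?_) x
  rw [lmarginal_singleton, lmarginal_singleton]
  exact step_pt M φ m τ hj hjD y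

end EM

theorem lm_noB {Γ : Type} [AddCommGroup Γ] [DecidableEq Γ] (φ : Zd d → Γ) (m τ : Γ → ℝ)
    (B' D : Finset Γ) (hD : D ⊆ B') (x : Γ → E) :
    lmarginal (fun _ : Γ => M.π) B' (M.wG φ m τ B') x ≤ (∏ j ∈ D, (1 + M.mB (τ j))) *
      lmarginal (fun _ : Γ => M.π) B'
        ({ω : Γ → E | ∀ j ∈ D, M.nB (ω j) = 0}.indicator (M.wG φ m τ B')) x := by
  induction D using Finset.induction_on with
  | empty =>
    rw [prod_empty, one_mul]
    refine Bas.lm_mono M _ (fun y => ?_) x
    rw [Set.indicator_of_mem]
    intro j hj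
    exact absurd hj (notMem_empty j)
  | insert j D hjD ih =>
    have h1 := ih fun i hi => hD (mem_insert_of_mem hi)
    have h2 := EM.step M φ m τ (hD (mem_insert_self j D)) hjD x
    rw [prod_insert hjD, mul_comm (1 + M.mB (τ j)), mul_assoc]
    exact h1.trans (mul_le_mul' le_rfl h2)
-- END ROW EM

end Pool.Agent.Mix
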