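import Pool.Agent.Lib.MP_09cbbd_sw.Ent

/-!
# Sums over contours with a general fraction
-/

set_option autoImplicit false

namespace Pool.Agent.Mix

open MeasureTheory Finset Filter Topology Pool.Agent.StableGas Pool.Agent.SquareWell

variable {d : ℕ}

/-
ROW EK. Repeat the proofs of SquareWell.fill_small and SquareWell.entropy (MP_09cbbd_sw/Ent.lean) with 1 / 2^20 replaced by κ > 0; in entropy the threshold
for z is z * 2^33 <= 1, replaced by 8192 z <= κ (or similar), so τ0 depends on κ.
-/

-- BEGIN ROW EK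
/-- Few contours of each size below `m` fill a small volume. -/
theorem fill_small' (B : Finset (Zd d)) (m : ℕ) {K : ℝ} (hK : 0 ≤ K)
    (h : ∀ s, 1 ≤ s → s < m → (2 : ℝ) * s ^ 3 * num B s < K) :
    ((∑ G ∈ (B.image (comp B)).filter (fun G => (fill G).card < m), (fill G).card : ℕ) : ℝ) ≤
      K := by
  classical
  have h1 : ∑ G ∈ (B.image (comp B)).filter (fun G => (fill G).card < m), (fill G).card =
      ∑ s ∈ Finset.range m, s * num B s := by
    rw [← sum_fiberwise_of_maps_to (g := fun G => (fill G).card) (t := Finset.range m)]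
    · refine sum_congr rfl fun s hs => ?_
      rw [mem_range] at hs
      unfold num
      rw [sum_congr rfl (g := fun _ => s) fun G hG => (mem_filter.1 hG).2, sum_const, smul_eq_mul,
        mul_comm, filter_filter]
      congr 2
      ext G
      rw [mem_filter, mem_filter]
      refine and_congr_right fun _ => ⟨fun hh => hh.2, fun hh => ⟨by omega, hh⟩⟩
    · intro G hG
      exact mem_range.2 (mem_filter.1 hG).2
  rw [h1]
  rcases m with _ | m
  · simp only [Nat.cast_zero, range_zero, sum_empty]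
    exact hK
  rw [sum_range_succ', zero_mul, add_zero]
  push_cast
  obtain ⟨c, rfl⟩ : ∃ c : ℝ, c = K := ⟨K, rfl⟩
  have hc0 : 0 ≤ c := hK
  have h2 : ∀ i ∈ Finset.range m, ((i : ℝ) + 1) * (num B (i + 1) : ℝ) ≤
      c * (1 / (2 * ((i : ℝ) + 1) ^ 2)) := by
    intro i hi
    rw [mem_range] at hi
    have h3 := h (i + 1) (by omega) (by omega)
    push_cast at h3
    have h4 : (0 : ℝ) < (i : ℝ) + 1 := by positivity
    rw [mul_one_div, le_div_iff₀ (by positivity)]
    calc ((i : ℝ) + 1) * (num B (i + 1) : ℝ) * (2 * ((i : ℝ) + 1) ^ 2)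
        = 2 * ((i : ℝ) + 1) ^ 3 * num B (i + 1) := by ring
      _ ≤ c := h3.le
  calc ∑ i ∈ Finset.range m, ((i : ℝ) + 1) * (num B (i + 1) : ℝ)
      ≤ ∑ i ∈ Finset.range m, c * (1 / (2 * ((i : ℝ) + 1) ^ 2)) := sum_le_sum h2
    _ = c * ∑ i ∈ Finset.range m, 1 / (2 * ((i : ℝ) + 1) ^ 2) := by rw [mul_sum]
    _ ≤ c * 1 := by
        refine mul_le_mul_of_nonneg_left ((Ent.sum_sq_le m).trans ?_) hc0
        have : (0 : ℝ) ≤ 1 / (2 * (m : ℝ) + 1) := by positivity
        linarith
    _ = c := mul_one c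

theorem entropy' (hd : 2 ≤ d) {κ : ℝ} (hκ : 0 < κ) : ∃ τ0 : ℝ, ∀ τ : ℝ, τ0 ≤ τ →
    (∀ (s : ℕ), 1 ≤ s → ∀ (A : Finset (Zd d)) (V : ℕ), A.card ≤ 2 * V →
      ∑ L ∈ (Fam A s).filter (fun L => κ * V ≤ 2 * s ^ 3 * num L s),
        (4 * Real.exp (-τ)) ^ L.card ≤ 1) ∧
    ∀ ζ : ℝ, 0 < ζ → ∃ m : ℕ, 1 ≤ m ∧ ∀ A : Finset (Zd d),
      ∑ L ∈ Fam A m, (4 * Real.exp (-τ)) ^ L.card ≤ Real.exp (ζ * A.card) := by
  classical
  refine ⟨max (2 * ((3 ^ d + 34 : ℕ) * Real.log 2)) (2 * Real.log (16384 / κ)), fun τ hτ' => ?_⟩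
  have hτ := (le_max_left _ _).trans hτ'
  have hτ2 := (le_max_right _ _).trans hτ'
  set z : ℝ := 2 * Real.exp (-(τ / 2)) with hz
  have hz0 : 0 < z := by positivity
  have hzy : 4 * Real.exp (-τ) = z * z := by
    rw [hz, mul_mul_mul_comm, ← Real.exp_add]
    congr 1
    · norm_num
    · congr 1
      ring
  have hzs : z * 2 ^ (3 ^ d + 33) ≤ 1 := by
    have h1 : Real.exp (-(τ / 2)) ≤ Real.exp (-((3 ^ d + 34 : ℕ) * Real.log 2)) :=
      Real.exp_le_exp.2 (by linarith)
    have h2 : Real.exp (-((3 ^ d + 34 : ℕ) * Real.log 2)) = ((2 : ℝ) ^ (3 ^ d + 34))⁻¹ := by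
      rw [Real.exp_neg, Real.exp_nat_mul, Real.exp_log (by norm_num)]
    rw [h2] at h1
    calc z * 2 ^ (3 ^ d + 33) = Real.exp (-(τ / 2)) * 2 ^ (3 ^ d + 34) := by
          rw [hz, pow_succ _ (3 ^ d + 33)]
          ring
      _ ≤ ((2 : ℝ) ^ (3 ^ d + 34))⁻¹ * 2 ^ (3 ^ d + 34) :=
          mul_le_mul_of_nonneg_right h1 (by positivity)
      _ = 1 := inv_mul_cancel₀ (by positivity)
  have hz1 : z * 2 ^ (3 ^ d) ≤ 1 := by
    refine le_trans ?_ hzs
    refine mul_le_mul_of_nonneg_left ?_ hz0.le
    exact pow_le_pow_right₀ (by norm_num) (Nat.le_add_right (3 ^ d) 33)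
  have hz33 : z * 2 ^ 33 ≤ 1 := by
    refine le_trans ?_ hzs
    refine mul_le_mul_of_nonneg_left ?_ hz0.le
    exact pow_le_pow_right₀ (by norm_num) (Nat.le_add_left 33 (3 ^ d))
  have hzlt : z ≤ 1 / 2 := by
    rw [le_div_iff₀ (by norm_num)]
    refine le_trans ?_ hz33
    refine mul_le_mul_of_nonneg_left ?_ hz0.le
    norm_num
  have hzκ : z * 8192 ≤ κ := by
    have h1 : Real.exp (-(τ / 2)) ≤ Real.exp (-(Real.log (16384 / κ))) :=
      Real.exp_le_exp.2 (by linarith)
    rw [Real.exp_neg (Real.log (16384 / κ)), Real.exp_log (by positivity), inv_div] at h1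
    rw [hz]
    linarith
  clear_value z
  -- sums over connected sets
  have hsum : ∀ (K : Finset (Zd d) → ℝ) (β : ℝ), 0 ≤ β →
      (∀ G, G.Nonempty → K G ≤ β * z ^ G.card) → ∀ A x, ∑ G ∈ SS A x, K G ≤ β := by
    intro K β hβ hK A x
    calc ∑ G ∈ SS A x, K G ≤ ∑ G ∈ SS A x, β * z ^ G.card :=
          sum_le_sum fun G hG => hK G ⟨x, (mem_SS.1 hG).2.1⟩
      _ = β * ∑ G ∈ SS A x, z ^ G.card := by rw [mul_sum]
      _ ≤ β * 1 := by
          refine mul_le_mul_of_nonneg_left ?_ hβ
          exact sum_small x _ (fun G hG => (mem_SS.1 hG).2) hz0.le hz1 le_rfl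
      _ = β := mul_one β
  -- the weights of the configurations
  have hw : ∀ (s : ℕ) (a : ℝ) (A L : Finset (Zd d)), L ∈ Fam A s →
      wP (fun G => if s ≤ (fill G).card then
        (z * z) ^ G.card * (if (fill G).card = s then a else 1) else 0) L =
        (z * z) ^ L.card * a ^ num L s := by
    intro s a A L hL
    rw [Ent.mem_Fam] at hL
    have h1 : wP (fun G => if s ≤ (fill G).card then
        (z * z) ^ G.card * (if (fill G).card = s then a else 1) else 0) L =
        wP (fun G => (z * z) ^ G.card * (if (fill G).card = s then a else 1)) L := by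
      unfold wP
      refine prod_congr rfl fun G hG => ?_
      rw [mem_image] at hG
      obtain ⟨x, hx, rfl⟩ := hG
      simp only [if_pos (hL.2 x hx)]
    rw [h1, Ent.wP_mul, Ent.wP_pow _ _ L le_rfl]
    congr 1
    unfold wP num
    rw [prod_ite, prod_const, prod_const_one, mul_one]
  refine ⟨fun s hs A V hAV => ?_, fun ζ hζ => ?_⟩
  · rw [hzy]
    set β : ℝ := Real.exp 1 * (512 * z / (s : ℝ) ^ 3) with hβ
    have hs0 : (0 : ℝ) < s := by exact_mod_cast hs
    have hβ0 : 0 ≤ β := by positivity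
    set K : Finset (Zd d) → ℝ := fun G => if s ≤ (fill G).card then
        (z * z) ^ G.card * (if (fill G).card = s then Real.exp 1 else 1) else 0 with hK
    have hK0 : ∀ G, 0 ≤ K G := by
      intro G
      rw [hK]
      dsimp only
      split_ifs <;> positivity
    have hzn : ∀ G : Finset (Zd d), G.Nonempty → s ≤ (fill G).card →
        z ^ G.card ≤ 512 * z / (s : ℝ) ^ 3 := by
      intro G hG h1
      have hn : 1 ≤ G.card := card_pos.2 hG
      have h2 : s ≤ 2 * G.card ^ 2 := h1.trans (Ent.card_fill_le hd G)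
      have h3 : G.card ≤ 2 ^ G.card := Nat.lt_two_pow_self.le
      have h4 : (s : ℝ) ≤ 2 * (2 ^ G.card) ^ 2 := by
        have h5 : s ≤ 2 * (2 ^ G.card) ^ 2 :=
          h2.trans (Nat.mul_le_mul_left 2 (Nat.pow_le_pow_left h3 2))
        exact_mod_cast h5
      have h5 : (s : ℝ) ^ 3 ≤ 8 * 64 ^ G.card := by
        calc (s : ℝ) ^ 3 ≤ (2 * (2 ^ G.card) ^ 2) ^ 3 := pow_le_pow_left₀ hs0.le h4 3
          _ = 8 * (2 ^ G.card) ^ 6 := by ring
          _ = 8 * 64 ^ G.card := by
            rw [← pow_mul, mul_comm G.card 6, pow_mul]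
            norm_num
      rw [le_div_iff₀ (by positivity)]
      have h6 : 64 * z ≤ 1 := by linarith
      calc z ^ G.card * (s : ℝ) ^ 3 ≤ z ^ G.card * (8 * 64 ^ G.card) :=
            mul_le_mul_of_nonneg_left h5 (by positivity)
        _ = 8 * (64 * z) ^ G.card := by rw [mul_pow]; ring
        _ ≤ 8 * (64 * z) ^ 1 := by
            refine mul_le_mul_of_nonneg_left ?_ (by norm_num)
            exact pow_le_pow_of_le_one (by positivity) h6 hn
        _ = 512 * z := by ring
    have he1 : (1 : ℝ) ≤ Real.exp 1 := Real.one_le_exp (by norm_num)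
    have hKb : ∀ G : Finset (Zd d), G.Nonempty → K G ≤ β * z ^ G.card := by
      intro G hG
      rw [hK]
      dsimp only
      split_ifs with h1 h2
      · have h3 := hzn G hG h1
        calc (z * z) ^ G.card * Real.exp 1 = Real.exp 1 * z ^ G.card * z ^ G.card := by
              rw [mul_pow]; ring
          _ ≤ Real.exp 1 * (512 * z / (s : ℝ) ^ 3) * z ^ G.card := by
              refine mul_le_mul_of_nonneg_right ?_ (by positivity)
              exact mul_le_mul_of_nonneg_left h3 (by positivity)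
      · have h3 := hzn G hG h1
        calc (z * z) ^ G.card * 1 = 1 * z ^ G.card * z ^ G.card := by
              rw [mul_pow]; ring
          _ ≤ Real.exp 1 * (512 * z / (s : ℝ) ^ 3) * z ^ G.card := by
              refine mul_le_mul_of_nonneg_right ?_ (by positivity)
              exact mul_le_mul he1 h3 (by positivity) (by positivity)
      · positivity
    have hZ := Ent.ZP_le_exp hK0 (hsum K β hβ0 hKb) _ A le_rfl
    set ν : ℝ := κ * V / 2 / (s : ℝ) ^ 3 with hν
    calc ∑ L ∈ (Fam A s).filter (fun L => κ * V ≤ 2 * s ^ 3 * num L s),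
          (z * z) ^ L.card
        ≤ ∑ L ∈ (Fam A s).filter (fun L => κ * V ≤ 2 * s ^ 3 * num L s),
          Real.exp (-ν) * wP K L := by
          refine sum_le_sum fun L hL => ?_
          rw [mem_filter] at hL
          rw [hK, hw s (Real.exp 1) A L hL.1]
          have h1 : ν ≤ num L s := by
            rw [hν, div_le_iff₀ (by positivity)]
            have := hL.2
            nlinarith
          have h2 : 1 ≤ Real.exp (-ν) * Real.exp 1 ^ num L s := by
            rw [← Real.exp_nat_mul, ← Real.exp_add, mul_one]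
            exact Real.one_le_exp (by linarith)
          calc (z * z) ^ L.card = (z * z) ^ L.card * 1 := (mul_one _).symm
            _ ≤ (z * z) ^ L.card * (Real.exp (-ν) * Real.exp 1 ^ num L s) :=
                mul_le_mul_of_nonneg_left h2 (by positivity)
            _ = _ := by ring
      _ = Real.exp (-ν) * ∑ L ∈ (Fam A s).filter
          (fun L => κ * V ≤ 2 * s ^ 3 * num L s), wP K L := by rw [mul_sum]
      _ ≤ Real.exp (-ν) * ZP K A := by
          refine mul_le_mul_of_nonneg_left ?_ (Real.exp_pos _).le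
          refine sum_le_sum_of_subset_of_nonneg ?_ fun L _ _ => wP_nonneg hK0 L
          intro L hL
          rw [mem_filter, Ent.mem_Fam] at hL
          exact mem_powerset.2 hL.1.1
      _ ≤ Real.exp (-ν) * Real.exp (β * A.card) :=
          mul_le_mul_of_nonneg_left hZ (Real.exp_pos _).le
      _ ≤ 1 := by
          rw [← Real.exp_add]
          refine Real.exp_le_one_iff.2 ?_
          have h1 : (A.card : ℝ) ≤ 2 * V := by exact_mod_cast hAV
          have h2 : β * A.card ≤ ν := by
            have he : Real.exp 1 ≤ 4 := by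
              have := Real.exp_one_lt_d9
              linarith
            calc β * A.card ≤ β * (2 * V) := mul_le_mul_of_nonneg_left h1 hβ0
              _ = Real.exp 1 * (1024 * z * V / (s : ℝ) ^ 3) := by rw [hβ]; ring
              _ ≤ 4 * (1024 * z * V / (s : ℝ) ^ 3) :=
                  mul_le_mul_of_nonneg_right he (by positivity)
              _ = (z * 8192) * (V / 2 / (s : ℝ) ^ 3) := by ring
              _ ≤ κ * (V / 2 / (s : ℝ) ^ 3) :=
                  mul_le_mul_of_nonneg_right hzκ (by positivity)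
              _ = ν := by rw [hν]; ring
          linarith
  · obtain ⟨n, hn⟩ : ∃ n : ℕ, z ^ n ≤ ζ := by
      obtain ⟨n, hn⟩ := exists_pow_lt_of_lt_one hζ (show z < 1 by linarith)
      exact ⟨n, hn.le⟩
    refine ⟨2 * n ^ 2 + 1, by omega, fun A => ?_⟩
    rw [hzy]
    set K : Finset (Zd d) → ℝ := fun G => if 2 * n ^ 2 + 1 ≤ (fill G).card then
        (z * z) ^ G.card * (if (fill G).card = 2 * n ^ 2 + 1 then 1 else 1) else 0 with hK
    have hK0 : ∀ G, 0 ≤ K G := by
      intro G
      rw [hK]
      dsimp only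
      split_ifs <;> positivity
    have hKb : ∀ G : Finset (Zd d), G.Nonempty → K G ≤ ζ * z ^ G.card := by
      intro G hG
      rw [hK]
      dsimp only
      rw [ite_self, mul_one]
      split_ifs with h1
      · have h2 := Ent.card_fill_le hd G
        have h3 : n ≤ G.card := by
          by_contra hlt
          have h4 : G.card ^ 2 ≤ n ^ 2 := Nat.pow_le_pow_left (by omega) 2
          omega
        calc (z * z) ^ G.card = z ^ G.card * z ^ G.card := mul_pow _ _ _
          _ ≤ z ^ n * z ^ G.card := by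
              refine mul_le_mul_of_nonneg_right ?_ (by positivity)
              exact pow_le_pow_of_le_one hz0.le (by linarith) h3
          _ ≤ ζ * z ^ G.card := mul_le_mul_of_nonneg_right hn (by positivity)
      · positivity
    have hZ := Ent.ZP_le_exp hK0 (hsum K ζ hζ.le hKb) _ A le_rfl
    refine le_trans ?_ hZ
    calc ∑ L ∈ Fam A (2 * n ^ 2 + 1), (z * z) ^ L.card
        = ∑ L ∈ Fam A (2 * n ^ 2 + 1), wP K L := by
          refine sum_congr rfl fun L hL => ?_
          rw [hK, hw _ 1 A L hL, one_pow, mul_one]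
      _ ≤ ZP K A := by
          refine sum_le_sum_of_subset_of_nonneg ?_ fun L _ _ => wP_nonneg hK0 L
          intro L hL
          rw [Ent.mem_Fam] at hL
          exact mem_powerset.2 hL.1
-- END ROW EK

end Pool.Agent.Mix
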