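import Pool.Agent.Lib.MP_09cbbd_mix.GlueP
import Pool.Agent.Lib.MP_09cbbd_mix.Tor
import Pool.Agent.Lib.MP_09cbbd_mix.TorP
import Pool.Agent.Lib.MP_09cbbd_mix.Emp
import Pool.Agent.Lib.MP_09cbbd_mix.Comp

/-!
# The gluing inequalities
-/

set_option autoImplicit false

namespace Pool.Agent.Mix

open MeasureTheory Finset Filter Topology Pool.Agent.StableGas Pool.Agent.SquareWell
open Pool.Agent.Kac (Tor cst)

variable {d : ℕ} {E : Type} [MeasurableSpace E] {M : Mx d E} {p q : ℝ → ℝ → ℝ}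

/-
ROW GT. V = (2 L + 1)^d, lz μ t = log ZT, B' = univ \ image of inn X, D' = image of Dr r X (inside B': injectivity of cst on fatr r X, coordinates at most L).
 1. ZC L (image inn X) (fun _ => μ) (t - F on D', t elsewhere) <= prod_{j in D'} (1 + mB (t - F)) * lm B' (1[no B in D'] wG B' with those fields)   (lm_noB)
    and on [no B in D'] the weight equals the weight with the field t (st does not depend on τ if nB = 0); mB (t - F) <= ex (-F) mB t (nB >= 1).
 2. torus_lower: ZT (μ, t - F |D'| / (V - |inn X|)) ^ ((V - |inn X|) / V) <= ZC ...  (as in kc Gl.le_ZC).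
 3. convexity of t -> lz μ t: lz μ (t - s) >= lz μ t - s (lz μ (t + h) - lz μ t) / h for s >= 0.
 4. int X (1_FA w X) <= int (inn X) (..) (int_FA_le); int (inn X) (..) * lm B' (1[no B in D'] wG B') <= ZT (glue_point, transfer with Kac.Gl.vm as in
    kc Gl.glue_torus, and the factorisation Bas.lm_mul or: the left factor depends on the cells of the image only).
 Together: log int X (1_FA w) <= lz - ((V - |inn X|) / V) lz + (F |D'| / V) (lz μ (t+h) - lz μ t) / h + |D'| log (1 + e^-F mB t), |inn X| = |X| - |bd X|,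
 |D'| <= (2 r + 1)^d |bd X| (card_Dr_le).
-/
-- BEGIN ROW GT
namespace GT

/-- Away from the `B`-contents the field does not matter. -/
theorem wG_noB {Γ : Type} [AddCommGroup Γ] (φ : Zd d → Γ) (μ : ℝ) {τ τ' : Γ → ℝ}
    {A D : Finset Γ} (h : ∀ i ∈ A, i ∉ D → τ i = τ' i) {ω : Γ → E} (hω : ∀ j ∈ D, M.nB (ω j) = 0) :
    M.wG φ (fun _ => μ) τ A ω = M.wG φ (fun _ => μ) τ' A ω := by
  unfold Mx.wG
  congr 1
  refine prod_congr rfl fun i hi => ?_
  by_cases hD : i ∈ D
  · rw [Bas.st_A M (hω i hD), Bas.st_A M (hω i hD)]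
  · rw [h i hi hD]

theorem mB_sub_le {t F : ℝ} (hF : 0 ≤ F) : M.mB (t - F) ≤ ex (-F) * M.mB t := by
  unfold Mx.mB
  rw [← lintegral_const_mul' _ _ (ex_ne_top _)]
  refine setLIntegral_mono' (Bas.measurableSet_B M) fun x hx => ?_
  rw [← ex_add, ex_le_ex]
  have h1 : (1 : ℝ) ≤ M.nB x := by exact_mod_cast (show 1 ≤ M.nB x from hx)
  nlinarith

theorem one_add_mB {t F : ℝ} (hF : 0 ≤ F) : 1 + M.mB (t - F) ≤
    ex (Real.log (1 + Real.exp (-F) * (M.mB t).toReal)) := by
  have h0 : (0 : ℝ) < 1 + Real.exp (-F) * (M.mB t).toReal := by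
    have := Real.exp_pos (-F)
    positivity
  have h1 : ex (Real.log (1 + Real.exp (-F) * (M.mB t).toReal)) = 1 + ex (-F) * M.mB t := by
    unfold ex
    rw [Real.exp_log h0, ENNReal.ofReal_add zero_le_one (by have := Real.exp_pos (-F); positivity),
      ENNReal.ofReal_one, ENNReal.ofReal_mul (Real.exp_pos _).le,
      ENNReal.ofReal_toReal (Bas.mB_ne_top M t)]
  rw [h1]
  exact add_le_add le_rfl (mB_sub_le hF)

/-- Convexity. -/
theorem cvx (L : ℕ) (μ t : ℝ) {s h : ℝ} (hs : 0 ≤ s) (hh : 0 < h) :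
    Real.log (M.ZT L μ t).toReal - s * ((Real.log (M.ZT L μ (t + h)).toReal -
      Real.log (M.ZT L μ t).toReal) / h) ≤ Real.log (M.ZT L μ (t - s)).toReal := by
  rcases hs.eq_or_lt with hs | hs
  · rw [← hs]; simp
  have h1 := (ZT_convex M L).2 (Set.mem_univ (μ, t - s)) (Set.mem_univ (μ, t + h))
    (show 0 ≤ h / (s + h) by positivity) (show 0 ≤ s / (s + h) by positivity)
    (by field_simp; ring)
  have e : (h / (s + h)) • ((μ, t - s) : ℝ × ℝ) + (s / (s + h)) • ((μ, t + h) : ℝ × ℝ) = (μ, t) := by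
    ext
    · simp only [Prod.fst_add, Prod.smul_fst, smul_eq_mul]
      field_simp
      ring
    · simp only [Prod.snd_add, Prod.smul_snd, smul_eq_mul]
      field_simp
      ring
  rw [e] at h1
  simp only [smul_eq_mul] at h1
  set a := Real.log (M.ZT L μ t).toReal
  set b := Real.log (M.ZT L μ (t - s)).toReal
  set c := Real.log (M.ZT L μ (t + h)).toReal
  have h2 : (s + h) * a ≤ h * b + s * c := by
    have h3 := mul_le_mul_of_nonneg_left h1 (by positivity : (0 : ℝ) ≤ s + h)
    refine h3.trans (le_of_eq ?_)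
    field_simp
  have h4 : s * ((c - a) / h) = (s * c - s * a) / h := by ring
  rw [h4, sub_le_iff_le_add, ← sub_le_iff_le_add', le_div_iff₀ hh]
  linarith

theorem mono (L : ℕ) (μ t : ℝ) {h : ℝ} (hh : 0 ≤ h) :
    Real.log (M.ZT L μ t).toReal ≤ Real.log (M.ZT L μ (t + h)).toReal := by
  refine Real.log_le_log (ENNReal.toReal_pos (lt_of_lt_of_le one_pos (one_le_ZT M L μ t)).ne'
    (ZT_ne_top M L μ t)) (ENNReal.toReal_mono (ZT_ne_top M L μ _) ?_)
  unfold Mx.ZT
  refine lintegral_mono fun ω => ?_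
  exact Bas.wG_mono M _ (fun _ _ => le_rfl) (fun _ _ => by linarith) ω

/-- Lower bound for the complement. -/
theorem le_ZC (L : ℕ) {A D : Finset (Tor d L)} (hA : A.card < (2 * L + 1) ^ d)
    (hD : D ⊆ univ \ A) (μ t F h : ℝ) (hF : 0 ≤ F) (hh : 0 < h) :
    ex (((2 * L + 1 : ℝ) ^ d - A.card) / (2 * L + 1 : ℝ) ^ d * Real.log (M.ZT L μ t).toReal -
      F * D.card * (((Real.log (M.ZT L μ (t + h)).toReal -
        Real.log (M.ZT L μ t).toReal) / h) / (2 * L + 1 : ℝ) ^ d)) ≤
      M.ZC L A (fun _ => μ) (fun j => if j ∈ D then t - F else t) := by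
  classical
  have hcard : (univ : Finset (Tor d L)).card = (2 * L + 1) ^ d := by
    rw [card_univ, Fintype.card_fun, ZMod.card, Fintype.card_fin]
  have h := torus_lower M L A hA (fun _ => μ) (fun j => if j ∈ D then t - F else t)
  set V : ℝ := (2 * L + 1 : ℝ) ^ d with hV
  have hV0 : 0 < V := by rw [hV]; positivity
  have hVa : 0 < V - A.card := by
    have : (A.card : ℝ) < (((2 * L + 1) ^ d : ℕ) : ℝ) := by exact_mod_cast hA
    push_cast at this
    linarith
  have hB : ((univ \ A).card : ℝ) = V - A.card := by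
    rw [card_sdiff_of_subset (subset_univ A), hcard, Nat.cast_sub hA.le]
    push_cast
    rfl
  have e1 : (∑ _j ∈ univ \ A, μ) / (V - A.card) = μ := by
    rw [sum_const, nsmul_eq_mul, hB]
    field_simp
  have e2 : (∑ j ∈ univ \ A, if j ∈ D then t - F else t) / (V - A.card) =
      t - F * D.card / (V - A.card) := by
    have e3 : ∀ j, (if j ∈ D then t - F else t) = t - if j ∈ D then F else 0 := by
      intro j
      split_ifs <;> ring
    simp only [e3]
    rw [sum_sub_distrib, sum_const, nsmul_eq_mul, hB, sum_ite_mem,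
      inter_eq_right.2 hD, sum_const, nsmul_eq_mul]
    field_simp
  rw [e1, e2] at h
  have h0 : 0 ≤ (V - A.card) / V := by positivity
  have h2 : M.ZT L μ (t - F * D.card / (V - A.card)) ^ ((V - A.card) / V) ≤
      M.ZC L A (fun _ => μ) (fun j => if j ∈ D then t - F else t) := by
    calc _ ≤ (M.ZC L A (fun _ => μ) (fun j => if j ∈ D then t - F else t) ^
          (V / (V - A.card))) ^ ((V - A.card) / V) := ENNReal.rpow_le_rpow h h0
      _ = _ := by
        rw [← ENNReal.rpow_mul]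
        have : V / (V - A.card) * ((V - A.card) / V) = 1 := by field_simp
        rw [this, ENNReal.rpow_one]
  refine le_trans ?_ h2
  rw [← ex_log (lt_of_lt_of_le one_pos (one_le_ZT M L μ (t - F * D.card / (V - A.card)))).ne'
    (ZT_ne_top M L _ _), ex_rpow, ex_le_ex]
  have h3 := mul_le_mul_of_nonneg_right (cvx (M := M) L μ t
    (s := F * D.card / (V - A.card)) (by positivity) hh) h0
  refine le_trans (le_of_eq ?_) h3
  field_simp

end GT

theorem glueA_torus (L : ℕ) (X : Finset (Zd d)) (hX : ∀ i ∈ X, ∀ k, |i k| + 2 * M.r ≤ L)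
    (hL : X.card < (2 * L + 1) ^ d) (μ t F h : ℝ) (hF : 0 ≤ F) (hh : 0 < h) :
    M.int X ({ω | M.FA X ω}.indicator (M.w μ t X)) ≤
      ex (((X.card : ℝ) - (bd X).card) * (Real.log (M.ZT L μ t).toReal / (2 * L + 1 : ℝ) ^ d) +
        (F * ((Real.log (M.ZT L μ (t + h)).toReal / (2 * L + 1 : ℝ) ^ d -
          Real.log (M.ZT L μ t).toReal / (2 * L + 1 : ℝ) ^ d) / h) +
          Real.log (1 + Real.exp (-F) * (M.mB t).toReal)) *
          ((2 * M.r + 1 : ℝ) ^ d * (bd X).card)) := by
  classical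
  have hXL : ∀ i ∈ X, ∀ k, |i k| ≤ L := fun i hi k => by
    have := hX i hi k
    omega
  have hfat : ∀ i ∈ fatr M.r X, ∀ k, |i k| ≤ L := fun i hi k => by
    obtain ⟨x, hx, hn⟩ := Topo.mem_fatr.1 hi
    have h1 := hX x hx k
    have h2 := abs_le.1 (hn k)
    have h3 := abs_le.1 (show |x k| ≤ L - 2 * M.r by omega)
    rw [abs_le]
    constructor <;> omega
  have hinnX : inn X ⊆ X := fun i hi => (mem_inn.1 hi).1
  have hinjf : ∀ i j : Zd d, (∀ k, |i k| ≤ L) → (∀ k, |j k| ≤ L) → cst L i = cst L j → i = j :=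
    fun i j hi hj h => by
      rw [← Kac.Gl.vm_cst hi, ← Kac.Gl.vm_cst hj, h]
  set A := (inn X).image (cst L) with hA
  set D := (Dr M.r X).image (cst L) with hD
  have hAc : A.card = (inn X).card := card_image_of_injOn fun i hi j hj h =>
    hinjf i j (hXL i (hinnX hi)) (hXL j (hinnX hj)) h
  have hAX : A.card ≤ X.card := by rw [hAc]; exact card_le_card hinnX
  have hAL : A.card < (2 * L + 1) ^ d := lt_of_le_of_lt hAX hL
  have hDA : D ⊆ univ \ A := by
    intro s hs
    obtain ⟨i, hi, rfl⟩ := mem_image.1 hs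
    rw [Finset.mem_sdiff]
    refine ⟨mem_univ _, fun h => ?_⟩
    obtain ⟨j, hj, hj2⟩ := mem_image.1 h
    have h1 := mem_Dr.1 hi
    have h2 : j = i := hinjf j i (hXL j (hinnX hj)) (hfat i h1.1) hj2
    exact h1.2 (h2 ▸ hj)
  have hDc : D.card ≤ (2 * M.r + 1) ^ d * (bd X).card := card_image_le.trans (card_Dr_le M.r X)
  set V : ℝ := (2 * L + 1 : ℝ) ^ d with hV
  have hV0 : 0 < V := by rw [hV]; positivity
  set lz : ℝ := Real.log (M.ZT L μ t).toReal with hlz
  set lh : ℝ := Real.log (M.ZT L μ (t + h)).toReal with hlh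
  set κ : ℝ := Real.log (1 + Real.exp (-F) * (M.mB t).toReal) with hκ
  have hκ0 : 0 ≤ κ := Real.log_nonneg (by
    have := Real.exp_pos (-F)
    have : 0 ≤ Real.exp (-F) * (M.mB t).toReal := by positivity
    linarith)
  have hmono : lz ≤ lh := GT.mono L μ t hh.le
  -- the functions
  set G : (Zd d → E) → ENNReal := {ω | M.FA X ω}.indicator (M.w μ t (inn X)) with hG
  have hGm : Measurable G := (Bas.measurable_w M μ t (inn X)).indicator (measurableSet_FA M X)
  set G0 : (Zd d → E) → ENNReal := fun ω => G fun i => if i ∈ inn X then ω i else M.e0 with hG0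
  have hcut : Measurable fun (ω : Zd d → E) (i : Zd d) => if i ∈ inn X then ω i else M.e0 := by
    refine measurable_pi_iff.2 fun i => ?_
    by_cases hi : i ∈ inn X
    · simp only [hi, if_true]
      exact measurable_pi_apply i
    · simp only [hi, if_false]
      exact measurable_const
  have hG0m : Measurable G0 := hGm.comp hcut
  have hG0d : ∀ x y : Zd d → E, (∀ i ∈ inn X, x i = y i) → G0 x = G0 y := by
    intro x y hxy
    simp only [hG0]
    congr 1
    funext i
    by_cases hi : i ∈ inn X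
    · simp only [hi, if_true]; exact hxy i hi
    · simp only [hi, if_false]
  have hint : M.int (inn X) G = M.int (inn X) G0 := by
    unfold Mx.int lmarginal
    refine lintegral_congr fun y => ?_
    simp only [hG0]
    congr 1
    funext i
    rw [Function.updateFinset_def]
    by_cases hi : i ∈ inn X
    · simp [hi]
    · simp [hi]
  have htr := transfer M Kac.Gl.vm_inj (B := inn X)
    (fun i hi => Kac.Gl.vm_cst (hXL i (hinnX hi))) hG0m hG0d
  -- the second factor
  set W : (Tor d L → E) → ENNReal := {ω : Tor d L → E | ∀ j ∈ D, M.nB (ω j) = 0}.indicator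
    (M.wG (cst L) (fun _ => μ) (fun _ => t) (univ \ A)) with hW
  have hset : MeasurableSet {ω : Tor d L → E | ∀ j ∈ D, M.nB (ω j) = 0} := by
    have e : {ω : Tor d L → E | ∀ j ∈ D, M.nB (ω j) = 0} =
        ⋂ j ∈ D, {ω : Tor d L → E | M.nB (ω j) = 0} := by
      ext ω; simp
    rw [e]
    refine Finset.measurableSet_biInter _ fun j _ => ?_
    have h1 : Measurable fun ω : Tor d L → E => ω j := measurable_pi_apply j
    exact h1 (Bas.measurableSet_nB0 M)
  have hWm : Measurable W := (Bas.measurable_wG M _ _ _ _).indicator hset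
  have hWd : ∀ x y : Tor d L → E, (∀ i ∈ univ \ A, x i = y i) → W x = W y := by
    intro x y hxy
    simp only [hW]
    by_cases hx : ∀ j ∈ D, M.nB (x j) = 0
    · have hy : ∀ j ∈ D, M.nB (y j) = 0 := fun j hj => by rw [← hxy j (hDA hj)]; exact hx j hj
      rw [Set.indicator_of_mem (show x ∈ {ω : Tor d L → E | ∀ j ∈ D, M.nB (ω j) = 0} from hx),
        Set.indicator_of_mem (show y ∈ {ω : Tor d L → E | ∀ j ∈ D, M.nB (ω j) = 0} from hy)]
      exact Bas.wG_dep M _ _ _ _ hxy
    · have hy : ¬ ∀ j ∈ D, M.nB (y j) = 0 := fun hy => hx fun j hj => by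
        rw [hxy j (hDA hj)]; exact hy j hj
      rw [Set.indicator_of_notMem (show x ∉ {ω : Tor d L → E | ∀ j ∈ D, M.nB (ω j) = 0} from hx),
        Set.indicator_of_notMem (show y ∉ {ω : Tor d L → E | ∀ j ∈ D, M.nB (ω j) = 0} from hy)]
  -- lower bound of the second factor
  have hlow : ex ((V - A.card) / V * lz - F * D.card * (((lh - lz) / h) / V)) ≤
      ex (κ * D.card) * lmarginal (fun _ : Tor d L => M.π) (univ \ A) W (fun _ => M.e0) := by
    refine (GT.le_ZC L hAL hDA μ t F h hF hh).trans ?_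
    have h1 := lm_noB M (cst L) (fun _ => μ) (fun j => if j ∈ D then t - F else t)
      (univ \ A) D hDA (fun _ => M.e0)
    refine (show M.ZC L A (fun _ => μ) (fun j => if j ∈ D then t - F else t) ≤ _ from h1).trans ?_
    refine mul_le_mul' ?_ (le_of_eq ?_)
    · calc ∏ j ∈ D, (1 + M.mB (if j ∈ D then t - F else t)) ≤ ∏ _j ∈ D, ex κ := by
            refine Bas.prod_mono fun j hj => ?_
            rw [if_pos hj]
            exact GT.one_add_mB hF
        _ = ex (κ * D.card) := by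
            rw [prod_const, ex_pow, mul_comm]
    · congr 1
      funext ω
      simp only [hW]
      by_cases hω : ∀ j ∈ D, M.nB (ω j) = 0
      · rw [Set.indicator_of_mem (show ω ∈ {ω : Tor d L → E | ∀ j ∈ D, M.nB (ω j) = 0} from hω),
          Set.indicator_of_mem (show ω ∈ {ω : Tor d L → E | ∀ j ∈ D, M.nB (ω j) = 0} from hω)]
        exact GT.wG_noB (cst L) μ (fun i _ hi => by rw [if_neg hi]) hω
      · rw [Set.indicator_of_notMem (show ω ∉ {ω : Tor d L → E | ∀ j ∈ D, M.nB (ω j) = 0} from hω),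
          Set.indicator_of_notMem (show ω ∉ {ω : Tor d L → E | ∀ j ∈ D, M.nB (ω j) = 0} from hω)]
  -- the gluing
  have hglue : M.int X ({ω | M.FA X ω}.indicator (M.w μ t X)) *
      lmarginal (fun _ : Tor d L => M.π) (univ \ A) W (fun _ => M.e0) ≤ M.ZT L μ t := by
    have := Bas.fin_π M
    have hG1m : Measurable fun ω : Tor d L → E => G0 fun i => ω (cst L i) :=
      hG0m.comp (measurable_pi_iff.2 fun i => measurable_pi_apply _)
    have hG1d : ∀ x y : Tor d L → E, (∀ i ∈ A, x i = y i) →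
        (fun ω : Tor d L → E => G0 fun i => ω (cst L i)) x =
        (fun ω : Tor d L → E => G0 fun i => ω (cst L i)) y := by
      intro x y hxy
      exact hG0d _ _ fun i hi => hxy _ (mem_image_of_mem _ hi)
    calc M.int X ({ω | M.FA X ω}.indicator (M.w μ t X)) *
        lmarginal (fun _ : Tor d L => M.π) (univ \ A) W (fun _ => M.e0)
        ≤ M.int (inn X) G *
          lmarginal (fun _ : Tor d L => M.π) (univ \ A) W (fun _ => M.e0) :=
          mul_le_mul' (int_FA_le M X μ t) le_rfl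
      _ = lmarginal (fun _ : Tor d L => M.π) (A ∪ univ \ A)
          (fun ω => (G0 fun i => ω (cst L i)) * W ω) (fun _ => M.e0) := by
          rw [hint, ← htr, Bas.lm_mul M disjoint_sdiff hG1m hWm hG1d hWd]
      _ ≤ M.ZT L μ t := by
          unfold Mx.ZT
          rw [union_sdiff_of_subset (subset_univ A),
            lintegral_eq_lmarginal_univ (fun _ => M.e0)]
          refine Bas.lm_mono M univ (fun ω => ?_) _
          exact glue_point M hX μ t ω
  -- conclusion
  have hZ : M.ZT L μ t = ex lz := (ex_log (lt_of_lt_of_le one_pos (one_le_ZT M L μ t)).ne'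
    (ZT_ne_top M L μ t)).symm
  rw [hZ] at hglue
  set I := M.int X ({ω | M.FA X ω}.indicator (M.w μ t X)) with hI
  set c : ℝ := (V - A.card) / V * lz - F * D.card * (((lh - lz) / h) / V) with hc
  have h5 : ex c * I ≤ ex (κ * D.card) * ex lz := by
    calc ex c * I ≤ ex (κ * D.card) *
          lmarginal (fun _ : Tor d L => M.π) (univ \ A) W (fun _ => M.e0) * I :=
          mul_le_mul' hlow le_rfl
      _ = ex (κ * D.card) * (I *
          lmarginal (fun _ : Tor d L => M.π) (univ \ A) W (fun _ => M.e0)) := by ring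
      _ ≤ _ := mul_le_mul' le_rfl hglue
  have h6 : I ≤ ex (κ * D.card + lz - c) := by
    have h7 := mul_le_mul' (le_refl (ex (-c))) h5
    rw [← mul_assoc, ← ex_add, neg_add_cancel, ex_zero, one_mul, ← ex_add, ← ex_add] at h7
    refine h7.trans (ex_le_ex.2 (le_of_eq ?_))
    ring
  refine h6.trans (ex_le_ex.2 ?_)
  have hac : (A.card : ℝ) = (X.card : ℝ) - (bd X).card := by
    rw [hAc]
    unfold inn
    rw [card_sdiff_of_subset (fun i hi => (mem_bd.1 hi).1),
      Nat.cast_sub (card_le_card fun i hi => (mem_bd.1 hi).1)]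
  have hDc' : (D.card : ℝ) ≤ (2 * M.r + 1 : ℝ) ^ d * (bd X).card := by exact_mod_cast hDc
  have hsl : 0 ≤ (lh / V - lz / V) / h := by
    rw [← sub_div]
    have : 0 ≤ lh - lz := sub_nonneg.2 hmono
    positivity
  have hfin : κ * D.card + lz - c =
      (A.card : ℝ) * (lz / V) + (F * ((lh / V - lz / V) / h) + κ) * D.card := by
    rw [hc]
    field_simp
    ring
  rw [hfin, hac]
  refine add_le_add le_rfl ?_
  exact mul_le_mul_of_nonneg_left hDc' (by positivity)
-- END ROW GT

/-
ROW GL. Limit L -> infinity of glueA_torus (ge_of_tendsto as in kc `glue`, Mx.IsP.torus), glueB = glueA for M.swap (Bas.isP_swap, Bas.int_swap,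
M.FB X ω is M.swap.FA X ω by definition, M.swap.w t μ X = M.w μ t X by Bas.wG_swap, M.swap.mB = M.mA), glue_pureA = glueA for M.onlyA with F = 0, h = 1,
mB_onlyA, int_onlyA; glue_pureB = glue_pureA for M.swap.
-/
-- BEGIN ROW GL
namespace GLrow

theorem tendsto_ex {u : ℕ → ℝ} {l : ℝ} (h : Tendsto u atTop (𝓝 l)) :
    Tendsto (fun n => ex (u n)) atTop (𝓝 (ex l)) := by
  unfold ex
  exact ENNReal.tendsto_ofReal ((Real.continuous_exp.tendsto l).comp h)

/-- The torus inequality holds for large tori. -/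
theorem eventually_torus (hd : 1 ≤ d) (X : Finset (Zd d)) (r : ℕ) : ∀ᶠ L : ℕ in atTop,
    (∀ i ∈ X, ∀ k, |i k| + 2 * r ≤ L) ∧ X.card < (2 * L + 1) ^ d := by
  obtain ⟨L0, hL0⟩ : ∃ L0 : ℕ, ∀ i ∈ X, ∀ k, |i k| + 2 * r ≤ L0 := by
    refine ⟨(∑ i ∈ X, ∑ k, (i k).natAbs) + 2 * r, fun i hi k => ?_⟩
    have h1 : (i k).natAbs ≤ ∑ k, (i k).natAbs :=
      single_le_sum (f := fun k => (i k).natAbs) (fun _ _ => Nat.zero_le _) (mem_univ k)
    have h2 : ∑ k, (i k).natAbs ≤ ∑ i ∈ X, ∑ k, (i k).natAbs :=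
      single_le_sum (f := fun i : Zd d => ∑ k, (i k).natAbs) (fun _ _ => Nat.zero_le _) hi
    have h3 : |i k| = ((i k).natAbs : ℤ) := Int.abs_eq_natAbs _
    rw [h3]
    push_cast
    have h4 : ((i k).natAbs : ℤ) ≤ ∑ i ∈ X, ∑ k, ((i k).natAbs : ℤ) := by
      exact_mod_cast h1.trans h2
    simp only [Nat.cast_natAbs] at h4 ⊢
    simp only [Int.cast_abs, Int.cast_id] at h4 ⊢
    linarith
  filter_upwards [eventually_ge_atTop L0, eventually_ge_atTop X.card] with L h1 h2
  refine ⟨fun i hi k => ?_, ?_⟩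
  · have := hL0 i hi k
    omega
  · calc X.card < 2 * L + 1 := by omega
      _ = (2 * L + 1) ^ 1 := (pow_one _).symm
      _ ≤ _ := Nat.pow_le_pow_right (by omega) hd

end GLrow

theorem glueA (hd : 1 ≤ d) (hp : M.IsP p) (X : Finset (Zd d)) (μ t F h : ℝ) (hF : 0 ≤ F)
    (hh : 0 < h) :
    M.int X ({ω | M.FA X ω}.indicator (M.w μ t X)) ≤
      ex (((X.card : ℝ) - (bd X).card) * p μ t +
        (F * ((p μ (t + h) - p μ t) / h) + Real.log (1 + Real.exp (-F) * (M.mB t).toReal)) *
          ((2 * M.r + 1 : ℝ) ^ d * (bd X).card)) := by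
  have hlim : Tendsto (fun L : ℕ =>
      ((X.card : ℝ) - (bd X).card) * (Real.log (M.ZT L μ t).toReal / (2 * L + 1 : ℝ) ^ d) +
        (F * ((Real.log (M.ZT L μ (t + h)).toReal / (2 * L + 1 : ℝ) ^ d -
          Real.log (M.ZT L μ t).toReal / (2 * L + 1 : ℝ) ^ d) / h) +
          Real.log (1 + Real.exp (-F) * (M.mB t).toReal)) *
          ((2 * M.r + 1 : ℝ) ^ d * (bd X).card)) atTop
      (𝓝 (((X.card : ℝ) - (bd X).card) * p μ t +
        (F * ((p μ (t + h) - p μ t) / h) + Real.log (1 + Real.exp (-F) * (M.mB t).toReal)) *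
          ((2 * M.r + 1 : ℝ) ^ d * (bd X).card))) := by
    have h1 := hp.torus hd μ t
    have h2 := hp.torus hd μ (t + h)
    exact (h1.const_mul _).add
      (((((h2.sub h1).div_const h).const_mul F).add_const _).mul_const _)
  refine ge_of_tendsto (GLrow.tendsto_ex hlim) ?_
  filter_upwards [GLrow.eventually_torus hd X M.r] with L hL
  exact glueA_torus L X hL.1 hL.2 μ t F h hF hh

theorem glueB (hd : 1 ≤ d) (hp : M.IsP p) (X : Finset (Zd d)) (μ t F h : ℝ) (hF : 0 ≤ F)
    (hh : 0 < h) :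
    M.int X ({ω | M.FB X ω}.indicator (M.w μ t X)) ≤
      ex (((X.card : ℝ) - (bd X).card) * p μ t +
        (F * ((p (μ + h) t - p μ t) / h) + Real.log (1 + Real.exp (-F) * (M.mA μ).toReal)) *
          ((2 * M.r + 1 : ℝ) ^ d * (bd X).card)) := by
  have h1 := glueA (M := M.swap) hd (Bas.isP_swap M hp) X t μ F h hF hh
  have e : M.swap.w t μ X = M.w μ t X := by
    funext ω
    exact Bas.wG_swap M id _ _ X ω
  rw [Bas.int_swap, e] at h1
  exact h1

theorem glue_pureA (hd : 1 ≤ d) (hq : M.onlyA.IsP q) (X : Finset (Zd d)) (μ t : ℝ) :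
    M.int X ({ω | M.FA X ω ∧ ∀ i ∈ X, M.nB (ω i) = 0}.indicator (M.w μ t X)) ≤
      ex (((X.card : ℝ) - (bd X).card) * q μ t) := by
  have h1 := glueA (M := M.onlyA) hd hq X μ t 0 1 le_rfl one_pos
  have e1 : M.onlyA.int X ({ω | M.onlyA.FA X ω}.indicator (M.onlyA.w μ t X)) =
      M.int X ({ω | M.FA X ω ∧ ∀ i ∈ X, M.nB (ω i) = 0}.indicator (M.w μ t X)) := by
    have hm : Measurable ({ω | M.FA X ω}.indicator (M.w μ t X)) :=
      (Bas.measurable_w M μ t X).indicator (measurableSet_FA M X)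
    refine (int_onlyA (M := M) X hm).trans ?_
    congr 1
    funext ω
    by_cases g1 : M.FA X ω
    · by_cases g2 : ∀ i ∈ X, M.nB (ω i) = 0
      · rw [Set.indicator_of_mem (show ω ∈ {ω | ∀ i ∈ X, M.nB (ω i) = 0} from g2),
          Set.indicator_of_mem (show ω ∈ {ω | M.FA X ω} from g1),
          Set.indicator_of_mem (show ω ∈ {ω | M.FA X ω ∧ ∀ i ∈ X, M.nB (ω i) = 0} from ⟨g1, g2⟩)]
      · rw [Set.indicator_of_notMem (show ω ∉ {ω | ∀ i ∈ X, M.nB (ω i) = 0} from g2),
          Set.indicator_of_notMem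
            (show ω ∉ {ω | M.FA X ω ∧ ∀ i ∈ X, M.nB (ω i) = 0} from fun g => g2 g.2)]
    · rw [Set.indicator_of_notMem
        (show ω ∉ {ω | M.FA X ω ∧ ∀ i ∈ X, M.nB (ω i) = 0} from fun g => g1 g.1)]
      have e2 : {ω | M.FA X ω}.indicator (M.w μ t X) ω = 0 :=
        Set.indicator_of_notMem (show ω ∉ {ω | M.FA X ω} from g1) _
      rw [Set.indicator_apply]
      split_ifs
      · exact e2
      · rfl
  rw [e1, mB_onlyA] at h1
  simpa using h1

theorem glue_pureB (hd : 1 ≤ d) (hq : M.onlyB.IsP q) (X : Finset (Zd d)) (μ t : ℝ) :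
    M.int X ({ω | M.FB X ω ∧ ∀ i ∈ X, M.nA (ω i) = 0}.indicator (M.w μ t X)) ≤
      ex (((X.card : ℝ) - (bd X).card) * q μ t) := by
  have h1 := glue_pureA (M := M.swap) hd (Bas.isP_swap M.onlyB hq) X t μ
  have e : M.swap.w t μ X = M.w μ t X := by
    funext ω
    exact Bas.wG_swap M id _ _ X ω
  rw [Bas.int_swap, e] at h1
  exact h1
-- END ROW GL

end Pool.Agent.Mix
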