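import Pool.Agent.Lib.MP_09cbbd_mix.Sum
import Pool.Agent.Lib.MP_09cbbd_mix.BoxA
import Pool.Agent.Lib.MP_09cbbd_mix.GlueA

/-!
# The main estimate
-/

set_option autoImplicit false

namespace Pool.Agent.Mix

open MeasureTheory Finset Filter Topology Pool.Agent.StableGas Pool.Agent.SquareWell

/-
ROW CB. P' = p μ t - θ D = p μ (t - D) = p (μ - D) t.
 XY: on sum nB <= N K: w μ t <= ex (D N K) * w μ (t - D) (Bas.wG_eq); glueA at (μ, t - D) with h = D, F = max 0 (log mB (t - D)): (p μ t - p μ (t - D)) / D = θ,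
  exp (-F) mB <= 1, F <= log (1 + mA + mB) <= (r + 1)^d P' (ge_mass; if mB = 0 take F = 0), so the coefficient of |bd XY| is
  (F θ + log 2) (2 r + 1)^d <= P' / 4 + (2 r + 1)^d log 2.
 XW: w μ t <= ex (D N K) * w (μ - D) t, glueB at (μ - D, t) with h = D, F = max 0 (log mA (μ - D)): same.
 Sum of the exponents: 2 D N K + P' (|XY| + |XW|) - (3 P' / 4 - c0) (|bd XY| + |bd XW|), c0 = (2 r + 1)^d log 2;  |XY| + |XW| = |A| + 2 |lay| - |OL|;
  b <= 3 P' / 4 - c0 <= P', so - b (|bd XY| + |OL|) <= - b (|L| / R - |bd A|).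
 If the class is empty the left side is 0.
-/
-- BEGIN ROW CB
namespace CB

variable {d : ℕ} {E : Type} [MeasurableSpace E] {M : Mx d E}

theorem w_shift_t {μ t D c : ℝ} (hD : 0 < D) (X : Finset (Zd d)) (ω : Zd d → E)
    (h : ∑ i ∈ X, (M.nB (ω i) : ℝ) ≤ c) : M.w μ t X ω ≤ ex (D * c) * M.w μ (t - D) X ω := by
  unfold Mx.w
  rw [Bas.wG_eq M id μ t, Bas.wG_eq M id μ (t - D), ← mul_assoc, ← ex_add]
  refine mul_le_mul' (ex_le_ex.2 ?_) le_rfl
  have := mul_le_mul_of_nonneg_left h hD.le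
  linarith

theorem w_shift_m {μ t D c : ℝ} (hD : 0 < D) (X : Finset (Zd d)) (ω : Zd d → E)
    (h : ∑ i ∈ X, (M.nA (ω i) : ℝ) ≤ c) : M.w μ t X ω ≤ ex (D * c) * M.w (μ - D) t X ω := by
  unfold Mx.w
  rw [Bas.wG_eq M id μ t, Bas.wG_eq M id (μ - D) t, ← mul_assoc, ← ex_add]
  refine mul_le_mul' (ex_le_ex.2 ?_) le_rfl
  have := mul_le_mul_of_nonneg_left h hD.le
  linarith

theorem int_shift_t {μ t D c : ℝ} (hD : 0 < D) (X : Finset (Zd d)) :
    M.int X ({ω | M.FA X ω ∧ ∑ i ∈ X, (M.nB (ω i) : ℝ) ≤ c}.indicator (M.w μ t X)) ≤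
      ex (D * c) * M.int X ({ω | M.FA X ω}.indicator (M.w μ (t - D) X)) := by
  rw [← Bas.int_const_mul M X ((Bas.measurable_w M μ (t - D) X).indicator
    (measurableSet_FA M X)) (ex (D * c))]
  refine Bas.int_mono M X fun ω => ?_
  by_cases h : ω ∈ {ω | M.FA X ω ∧ ∑ i ∈ X, (M.nB (ω i) : ℝ) ≤ c}
  · rw [Set.indicator_of_mem h, Set.indicator_of_mem (show ω ∈ {ω | M.FA X ω} from h.1)]
    exact w_shift_t hD X ω h.2
  · rw [Set.indicator_of_notMem h]
    exact zero_le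

theorem int_shift_m {μ t D c : ℝ} (hD : 0 < D) (X : Finset (Zd d)) :
    M.int X ({ω | M.FB X ω ∧ ∑ i ∈ X, (M.nA (ω i) : ℝ) ≤ c}.indicator (M.w μ t X)) ≤
      ex (D * c) * M.int X ({ω | M.FB X ω}.indicator (M.w (μ - D) t X)) := by
  rw [← Bas.int_const_mul M X ((Bas.measurable_w M (μ - D) t X).indicator
    (show MeasurableSet {ω : Zd d → E | M.FB X ω} from measurableSet_FA M.swap X)) (ex (D * c))]
  refine Bas.int_mono M X fun ω => ?_
  by_cases h : ω ∈ {ω | M.FB X ω ∧ ∑ i ∈ X, (M.nA (ω i) : ℝ) ≤ c}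
  · rw [Set.indicator_of_mem h, Set.indicator_of_mem (show ω ∈ {ω | M.FB X ω} from h.1)]
    exact w_shift_m hD X ω h.2
  · rw [Set.indicator_of_notMem h]
    exact zero_le

theorem log_two_bound {x : ℝ} (hx : 0 ≤ x) :
    Real.log (1 + Real.exp (-(max 0 (Real.log x))) * x) ≤ Real.log 2 := by
  have h1 : Real.exp (-(max 0 (Real.log x))) * x ≤ 1 := by
    rcases hx.eq_or_lt with h | h
    · rw [← h, mul_zero]
      exact zero_le_one
    · calc Real.exp (-(max 0 (Real.log x))) * x ≤ Real.exp (-(Real.log x)) * x := by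
            refine mul_le_mul_of_nonneg_right (Real.exp_le_exp.2 ?_) hx
            exact neg_le_neg (le_max_right _ _)
        _ = 1 := by
            rw [Real.exp_neg, Real.exp_log h, inv_mul_cancel₀ h.ne']
  have h2 : 0 ≤ Real.exp (-(max 0 (Real.log x))) * x := mul_nonneg (Real.exp_pos _).le hx
  refine Real.log_le_log (by linarith) (by linarith)

theorem max_le_log {x y : ENNReal} (hx : x ≠ ⊤) (hy : y ≠ ⊤) :
    max 0 (Real.log x.toReal) ≤ Real.log (1 + (y + x).toReal) := by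
  have h0 : 0 ≤ (y + x).toReal := ENNReal.toReal_nonneg
  have h1 : x.toReal ≤ (y + x).toReal := by
    rw [ENNReal.toReal_add hy hx]
    have : 0 ≤ y.toReal := ENNReal.toReal_nonneg
    linarith
  refine max_le (Real.log_nonneg (by linarith)) ?_
  rcases (ENNReal.toReal_nonneg (a := x)).eq_or_lt with h | h
  · rw [← h, Real.log_zero]
    exact Real.log_nonneg (by linarith)
  · exact Real.log_le_log h (by linarith)

theorem coef {F l θ R1 R2 P n : ℝ} (hF : F ≤ R1 * P) (hl : l ≤ Real.log 2) (hθ0 : 0 ≤ θ)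
    (hR2 : 0 ≤ R2) (hθ : 4 * R1 * R2 * θ ≤ 1) (hP : 0 ≤ P) (hn : 0 ≤ n) :
    (F * θ + l) * (R2 * n) ≤ (P / 4 + R2 * Real.log 2) * n := by
  have h1 : F * θ * R2 ≤ P / 4 := by
    have h2 : F * (θ * R2) ≤ R1 * P * (θ * R2) :=
      mul_le_mul_of_nonneg_right hF (mul_nonneg hθ0 hR2)
    have h3 : P * (4 * R1 * R2 * θ) ≤ P * 1 := mul_le_mul_of_nonneg_left hθ hP
    nlinarith
  have h4 : l * R2 ≤ R2 * Real.log 2 := by
    rw [mul_comm]
    exact mul_le_mul_of_nonneg_left hl hR2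
  have h5 : (F * θ + l) * R2 ≤ P / 4 + R2 * Real.log 2 := by
    rw [add_mul]
    exact add_le_add h1 h4
  calc (F * θ + l) * (R2 * n) = (F * θ + l) * R2 * n := by ring
    _ ≤ _ := mul_le_mul_of_nonneg_right h5 hn

theorem boundA {p : ℝ → ℝ → ℝ} (hd : 1 ≤ d) (hp : M.IsP p) {μ t D θ b P : ℝ} (hD : 0 < D)
    (hθ0 : 0 ≤ θ) (hθ : 4 * (M.r + 1 : ℝ) ^ d * (2 * M.r + 1 : ℝ) ^ d * θ ≤ 1)
    (hP0 : 0 ≤ P) (hP : p μ (t - D) = P) (h2 : p μ t - P = θ * D)
    (hb' : b ≤ 3 / 4 * P - (2 * M.r + 1 : ℝ) ^ d * Real.log 2) (X : Finset (Zd d)) :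
    M.int X ({ω | M.FA X ω}.indicator (M.w μ (t - D) X)) ≤
      ex (X.card * P - b * (bd X).card) := by
  have hF0 : (0 : ℝ) ≤ max 0 (Real.log (M.mB (t - D)).toReal) := le_max_left _ _
  refine (glueA hd hp X μ (t - D) _ D hF0 hD).trans (ex_le_ex.2 ?_)
  rw [sub_add_cancel, hP, h2, mul_div_cancel_right₀ _ hD.ne']
  have hF := (max_le_log (Bas.mB_ne_top M (t - D)) (Bas.mA_ne_top M μ)).trans
    (hp.ge_mass hd μ (t - D))
  rw [hP] at hF
  have hc := coef hF (log_two_bound (ENNReal.toReal_nonneg (a := M.mB (t - D)))) hθ0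
    (by positivity : (0 : ℝ) ≤ (2 * M.r + 1 : ℝ) ^ d) hθ hP0
    (Nat.cast_nonneg (α := ℝ) (bd X).card)
  have hn : (0 : ℝ) ≤ (bd X).card := Nat.cast_nonneg _
  have := mul_le_mul_of_nonneg_right hb' hn
  nlinarith

theorem boundB {p : ℝ → ℝ → ℝ} (hd : 1 ≤ d) (hp : M.IsP p) {μ t D θ b P : ℝ} (hD : 0 < D)
    (hθ0 : 0 ≤ θ) (hθ : 4 * (M.r + 1 : ℝ) ^ d * (2 * M.r + 1 : ℝ) ^ d * θ ≤ 1)
    (hP0 : 0 ≤ P) (hP : p (μ - D) t = P) (h2 : p μ t - P = θ * D)
    (hb' : b ≤ 3 / 4 * P - (2 * M.r + 1 : ℝ) ^ d * Real.log 2) (X : Finset (Zd d)) :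
    M.int X ({ω | M.FB X ω}.indicator (M.w (μ - D) t X)) ≤
      ex (X.card * P - b * (bd X).card) := by
  have hF0 : (0 : ℝ) ≤ max 0 (Real.log (M.mA (μ - D)).toReal) := le_max_left _ _
  refine (glueB hd hp X (μ - D) t _ D hF0 hD).trans (ex_le_ex.2 ?_)
  rw [sub_add_cancel, hP, h2, mul_div_cancel_right₀ _ hD.ne']
  have hF2 := hp.ge_mass hd (μ - D) t
  rw [add_comm (M.mA (μ - D)) (M.mB t), hP] at hF2
  have hF := (max_le_log (Bas.mA_ne_top M (μ - D)) (Bas.mB_ne_top M t)).trans hF2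
  have hc := coef hF (log_two_bound (ENNReal.toReal_nonneg (a := M.mA (μ - D)))) hθ0
    (by positivity : (0 : ℝ) ≤ (2 * M.r + 1 : ℝ) ^ d) hθ hP0
    (Nat.cast_nonneg (α := ℝ) (bd X).card)
  have hn : (0 : ℝ) ≤ (bd X).card := Nat.cast_nonneg _
  have := mul_le_mul_of_nonneg_right hb' hn
  nlinarith

end CB

theorem class_bound {d : ℕ} {E : Type} [MeasurableSpace E] {M : Mx d E} {p : ℝ → ℝ → ℝ}
    (hd : 1 ≤ d) (hp : M.IsP p) {μ t D θ b : ℝ} (hD : 0 < D) (hθ0 : 0 ≤ θ)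
    (hθ : 4 * (M.r + 1 : ℝ) ^ d * (2 * M.r + 1 : ℝ) ^ d * θ ≤ 1)
    (h1 : p μ t - p (μ - D) t = θ * D) (h2 : p μ t - p μ (t - D) = θ * D) (hb : 0 ≤ b)
    (hb' : b ≤ 3 / 4 * (p μ t - θ * D) - (2 * M.r + 1 : ℝ) ^ d * Real.log 2)
    (A : Finset (Zd d)) (s : ℕ) (K : ℝ) (L Y DL OL : Finset (Zd d)) :
    M.int A ((M.Class A s K L Y DL OL).indicator (M.w μ t A)) ≤
      ex (2 * D * M.N * K + (p μ t - θ * D) * (A.card + 2 * (lay (M.r + 2) A).card) +
        b * (bd A).card - b / (2 * (M.r + 2) + 1 : ℝ) ^ d * L.card) := by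
  rcases (M.Class A s K L Y DL OL).eq_empty_or_nonempty with he | hne
  · rw [he, Set.indicator_empty]
    refine le_trans (le_of_eq ?_) zero_le
    show M.int A (fun _ => 0) = 0
    have := Bas.int_const_mul M A (measurable_const (a := (0 : ENNReal))) 0
    simp only [zero_mul] at this
    exact this
  have hP1 : p (μ - D) t = p μ t - θ * D := by linarith
  have hP2 : p μ (t - D) = p μ t - θ * D := by linarith
  set P : ℝ := p μ t - θ * D with hPdef
  have hP0 : 0 ≤ P := by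
    have h := hp.ge_mass hd μ (t - D)
    rw [hP2] at h
    have h0 : 0 ≤ Real.log (1 + (M.mA μ + M.mB (t - D)).toReal) :=
      Real.log_nonneg (by
        have : 0 ≤ (M.mA μ + M.mB (t - D)).toReal := ENNReal.toReal_nonneg
        linarith)
    have hr : (0 : ℝ) < (M.r + 1 : ℝ) ^ d := by positivity
    by_contra hc
    push Not at hc
    have := mul_neg_of_pos_of_neg hr hc
    linarith
  have hPt : p μ t - P = θ * D := by rw [hPdef]; ring
  have hc0 : (0 : ℝ) ≤ (2 * M.r + 1 : ℝ) ^ d * Real.log 2 :=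
    mul_nonneg (by positivity) (Real.log_nonneg (by norm_num))
  have hbP : b ≤ P := by linarith
  set X1 := XY (M.r + 2) A Y DL with hX1
  set X2 := XW (M.r + 2) A Y DL OL with hX2
  have e1 : M.int X1 ({ω | M.FA X1 ω ∧ ∑ i ∈ X1, (M.nB (ω i) : ℝ) ≤ M.N * K}.indicator
      (M.w μ t X1)) ≤ ex (D * (M.N * K) + (X1.card * P - b * (bd X1).card)) := by
    rw [ex_add]
    exact (CB.int_shift_t hD X1).trans (mul_le_mul' le_rfl
      (CB.boundA hd hp hD hθ0 hθ hP0 hP2 hPt hb' X1))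
  have e2 : M.int X2 ({ω | M.FB X2 ω ∧ ∑ i ∈ X2, (M.nA (ω i) : ℝ) ≤ M.N * K}.indicator
      (M.w μ t X2)) ≤ ex (D * (M.N * K) + (X2.card * P - b * (bd X2).card)) := by
    rw [ex_add]
    exact (CB.int_shift_m hD X2).trans (mul_le_mul' le_rfl
      (CB.boundB hd hp hD hθ0 hθ hP0 hP1 hPt hb' X2))
  refine (split M A s K L Y DL OL μ t).trans ((mul_le_mul' e1 e2).trans ?_)
  rw [← ex_add, ex_le_ex]
  have c1 : (L.card : ℝ) ≤ (2 * (M.r + 2) + 1 : ℝ) ^ d *
      ((bd X1).card + (bd A).card + OL.card) := by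
    have := card_L_le M hne
    exact_mod_cast this
  have c2 : (X1.card : ℝ) + X2.card + OL.card = A.card + 2 * (lay (M.r + 2) A).card := by
    have := card_XY_XW M hne
    exact_mod_cast this
  have hR : (0 : ℝ) < (2 * (M.r + 2) + 1 : ℝ) ^ d := by positivity
  have c3 : b / (2 * (M.r + 2) + 1 : ℝ) ^ d * L.card ≤
      b * ((bd X1).card + (bd A).card + OL.card) := by
    rw [div_mul_eq_mul_div, div_le_iff₀ hR]
    calc b * (L.card : ℝ) ≤ b * ((2 * (M.r + 2) + 1 : ℝ) ^ d *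
          ((bd X1).card + (bd A).card + OL.card)) := mul_le_mul_of_nonneg_left c1 hb
      _ = _ := by ring
  have c4 : 0 ≤ b * ((bd X2).card : ℝ) := mul_nonneg hb (Nat.cast_nonneg _)
  have c5 : b * (OL.card : ℝ) ≤ P * OL.card := mul_le_mul_of_nonneg_right hbP (Nat.cast_nonneg _)
  have c6 : P * ((X1.card : ℝ) + X2.card + OL.card) =
      P * (A.card + 2 * (lay (M.r + 2) A).card) := by rw [c2]
  nlinarith
-- END ROW CB

/-
ROW MA. κ = θ / (4 (N + 1)), τ0 from entropy' κ, R = (2 (r + 2) + 1)^d, b = R * max τ0 1, C = θ + (4 / 3) (b + (2 r + 1)^d log 2) (so that hb' holds for D <= 1/2).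
 Suppose both equalities. sum_classes with T s L = ex (X n - (b / R) |L|), X n = 2 D N κ |A| + P' (|A| + 2 |lay|) + b |bd A|, A = bx n; 2 D N κ <= θ D / 2.
 entropy' (first part with V = |A|, eventually_fatr; second part with ζ = θ D / 8 gives m; the sum over Fam (fatr A) m is <= exp (ζ |fatr A|)):
 xi <= ex (X n) * (m + exp (ζ |fatr A|)) (Asm.sum_T of kc: sum_L 4^|L| ex (X - τ |L|) = ex X * ofReal (sum (4 e^-τ)^|L|)). Logarithm / n^d -> :
 p μ t <= θ D / 2 + P' + ζ = p μ t - θ D / 2 + θ D / 8: contradiction. (log (m + exp y) <= log (m + 1) + y for y >= 0.)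
-/
-- BEGIN ROW MA
namespace MA

/-- The weights of the classes sum up. -/
theorem sum_T {d : ℕ} {F : Finset (Finset (Zd d))} {X τ : ℝ} :
    ∑ L ∈ F, 4 ^ L.card * ex (X - τ * L.card) =
      ex X * ENNReal.ofReal (∑ L ∈ F, (4 * Real.exp (-τ)) ^ L.card) := by
  rw [ENNReal.ofReal_sum_of_nonneg fun L _ => by positivity, mul_sum]
  refine sum_congr rfl fun L _ => ?_
  rw [sub_eq_add_neg, ex_add, mul_left_comm]
  congr 1
  rw [mul_pow, ENNReal.ofReal_mul (by positivity), ENNReal.ofReal_pow (by norm_num)]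
  congr 1
  · norm_num
  · unfold ex
    rw [← Real.exp_nat_mul]
    congr 2
    ring

end MA

theorem no_equal (d r N : ℕ) (hd : 2 ≤ d) {θ : ℝ} (hθ0 : 0 < θ)
    (hθ : 4 * (r + 1 : ℝ) ^ d * (2 * r + 1 : ℝ) ^ d * θ ≤ 1) :
    ∃ C : ℝ, ∀ (E : Type) (_ : MeasurableSpace E) (M : Mx d E), M.r = r → M.N = N →
      ∀ p : ℝ → ℝ → ℝ, M.IsP p → ∀ μ t D : ℝ, 0 < D → D ≤ 1 / 2 → C ≤ p μ t →
        ¬ (p μ t - p (μ - D) t = θ * D ∧ p μ t - p μ (t - D) = θ * D) := by
  classical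
  have hd1 : 1 ≤ d := by omega
  obtain ⟨κ, hκ⟩ : ∃ κ : ℝ, κ = θ / (4 * (N + 1)) := ⟨_, rfl⟩
  have hκ0 : 0 < κ := by rw [hκ]; positivity
  obtain ⟨τ0, hτ0⟩ := entropy' (d := d) hd hκ0
  obtain ⟨τ, hτ⟩ : ∃ τ : ℝ, τ = max τ0 1 := ⟨_, rfl⟩
  have hτ1 : 0 < τ := by rw [hτ]; exact lt_max_of_lt_right one_pos
  obtain ⟨he1, he2⟩ := hτ0 τ (by rw [hτ]; exact le_max_left _ _)
  obtain ⟨R, hR⟩ : ∃ R : ℝ, R = (2 * (r + 2) + 1 : ℝ) ^ d := ⟨_, rfl⟩
  have hR0 : 0 < R := by rw [hR]; positivity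
  obtain ⟨b, hb⟩ : ∃ b : ℝ, b = R * τ := ⟨_, rfl⟩
  have hb0 : 0 ≤ b := by rw [hb]; positivity
  refine ⟨θ + 4 / 3 * (b + (2 * r + 1 : ℝ) ^ d * Real.log 2), ?_⟩
  intro E _ M hMr hMN p hp μ t D hD hD2 hC
  rintro ⟨h1, h2⟩
  obtain ⟨P', hP'⟩ : ∃ P' : ℝ, P' = p μ t - θ * D := ⟨_, rfl⟩
  have hθD : 0 < θ * D := by positivity
  have hθD2 : θ * D ≤ θ / 2 := by
    have := mul_le_mul_of_nonneg_left hD2 hθ0.le
    linarith
  have hb' : b ≤ 3 / 4 * (p μ t - θ * D) - (2 * M.r + 1 : ℝ) ^ d * Real.log 2 := by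
    rw [hMr]
    linarith
  have hCB := class_bound hd1 hp hD hθ0.le (by rw [hMr]; exact hθ) h1 h2 hb0 hb'
  obtain ⟨m, hm1, hm⟩ := he2 (θ * D / 8) (by positivity)
  -- the finite volumes
  obtain ⟨X, hX⟩ : ∃ X : ℕ → ℝ, X = fun n => 2 * D * M.N * (κ * (SquareWell.bx d n).card) +
    P' * ((SquareWell.bx d n).card + 2 * (lay (M.r + 2) (SquareWell.bx d n)).card) +
    b * (bd (SquareWell.bx d n)).card := ⟨_, rfl⟩
  have hbR : b / (2 * (M.r + 2) + 1 : ℝ) ^ d = τ := by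
    rw [hMr, ← hR, hb]
    field_simp
  have hfin : ∀ᶠ n : ℕ in atTop, Real.log (M.xi μ t (SquareWell.bx d n)).toReal ≤
      X n + (Real.log (m + 1) +
        θ * D / 8 * (fatr (M.r + 2) (SquareWell.bx d n)).card) := by
    filter_upwards [eventually_fatr (d := d) hd1 (M.r + 2)] with n hn
    have hs := sum_classes M hd μ t (SquareWell.bx d n) (NConn_bx hd n) m hm1 hκ0
      (fun _ L => ex (X n - τ * L.card)) (fun s L Y DL OL => by
        refine (hCB (SquareWell.bx d n) s _ L Y DL OL).trans (le_of_eq ?_)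
        rw [hbR, hX, hP'])
    have h3 : ∑ s ∈ Finset.Ico 1 m, ∑ L ∈ (Fam (fatr (M.r + 2) (SquareWell.bx d n)) s).filter
        (fun L => κ * (SquareWell.bx d n).card ≤ 2 * s ^ 3 * num L s),
          4 ^ L.card * ex (X n - τ * L.card) ≤ ex (X n) * m := by
      calc _ ≤ ∑ _s ∈ Finset.Ico 1 m, ex (X n) := by
            refine sum_le_sum fun s hs => ?_
            rw [MA.sum_T]
            have h4 := he1 s (Finset.mem_Ico.1 hs).1 (fatr (M.r + 2) (SquareWell.bx d n))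
              (SquareWell.bx d n).card hn
            calc _ ≤ ex (X n) * 1 := by
                  refine mul_le_mul' le_rfl ?_
                  rw [← ENNReal.ofReal_one]
                  exact ENNReal.ofReal_le_ofReal h4
              _ = _ := mul_one _
        _ = ex (X n) * ((m - 1 : ℕ) : ENNReal) := by
            rw [sum_const, Nat.card_Ico, nsmul_eq_mul, mul_comm]
        _ ≤ _ := by
            refine mul_le_mul' le_rfl ?_
            exact_mod_cast Nat.sub_le m 1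
    have h4 : ∑ L ∈ Fam (fatr (M.r + 2) (SquareWell.bx d n)) m,
        4 ^ L.card * ex (X n - τ * L.card) ≤
        ex (X n) * ex (θ * D / 8 * (fatr (M.r + 2) (SquareWell.bx d n)).card) := by
      rw [MA.sum_T]
      refine mul_le_mul' le_rfl ?_
      unfold ex
      exact ENNReal.ofReal_le_ofReal (hm _)
    have h5 : (m : ENNReal) + ex (θ * D / 8 * (fatr (M.r + 2) (SquareWell.bx d n)).card) ≤
        ex (Real.log (m + 1) + θ * D / 8 * (fatr (M.r + 2) (SquareWell.bx d n)).card) := by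
      have h6 : 1 ≤ ex (θ * D / 8 * (fatr (M.r + 2) (SquareWell.bx d n)).card) :=
        one_le_ex.2 (by positivity)
      have h7 : ex (Real.log (m + 1)) = (m : ENNReal) + 1 := by
        unfold ex
        rw [Real.exp_log (by positivity), ENNReal.ofReal_add (by positivity) zero_le_one,
          ENNReal.ofReal_natCast, ENNReal.ofReal_one]
      rw [ex_add, h7, add_mul, one_mul]
      refine add_le_add ?_ le_rfl
      calc (m : ENNReal) = m * 1 := (mul_one _).symm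
        _ ≤ _ := mul_le_mul' le_rfl h6
    have h6 : M.xi μ t (SquareWell.bx d n) ≤ ex (X n + (Real.log (m + 1) +
        θ * D / 8 * (fatr (M.r + 2) (SquareWell.bx d n)).card)) := by
      rw [ex_add]
      refine hs.trans ((add_le_add h3 h4).trans ?_)
      rw [← mul_add]
      exact mul_le_mul' le_rfl h5
    have h7 := ENNReal.toReal_mono (ex_ne_top _) h6
    rw [ex_toReal] at h7
    have h8 := Real.log_le_log (Bas.xi_pos M μ t _) h7
    rwa [Real.log_exp] at h8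
  -- the limit
  have hlim : Tendsto (fun n : ℕ => (X n + (Real.log (m + 1) +
      θ * D / 8 * (fatr (M.r + 2) (SquareWell.bx d n)).card)) / (n : ℝ) ^ d) atTop
      (𝓝 (2 * D * M.N * κ + P' * (1 + 2 * 0) + b * 0 + (0 + θ * D / 8 * 1))) := by
    have hinf : Tendsto (fun n : ℕ => (n : ℝ) ^ d) atTop atTop :=
      (tendsto_pow_atTop (by omega)).comp tendsto_natCast_atTop_atTop
    have g1 := tendsto_lay (d := d) hd1 (M.r + 2)
    have g2 := tendsto_bd (d := d) hd1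
    have g3 := tendsto_fatr (d := d) hd1 (M.r + 2)
    have g4 : Tendsto (fun n : ℕ => Real.log (m + 1) / (n : ℝ) ^ d) atTop (𝓝 0) :=
      hinf.const_div_atTop _
    have g5 := (((tendsto_const_nhds (x := 2 * D * M.N * κ)).add
      (((g1.const_mul 2).const_add 1).const_mul P')).add (g2.const_mul b)).add
      (g4.add (g3.const_mul (θ * D / 8)))
    refine g5.congr' ?_
    filter_upwards [eventually_ge_atTop 1] with n hn
    have hn0 : (0 : ℝ) < n := by exact_mod_cast hn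
    rw [hX]
    simp only
    rw [card_bx_real]
    field_simp
  have hle : p μ t ≤ 2 * D * M.N * κ + P' * (1 + 2 * 0) + b * 0 + (0 + θ * D / 8 * 1) := by
    refine le_of_tendsto_of_tendsto (hp μ t) hlim ?_
    filter_upwards [hfin] with n hn
    exact div_le_div_of_nonneg_right hn (by positivity)
  have hκD : 2 * D * M.N * κ ≤ θ * D / 2 := by
    rw [hκ, hMN]
    have h3 : (N : ℝ) / (N + 1) ≤ 1 := by
      rw [div_le_one (by positivity)]
      linarith
    calc 2 * D * N * (θ / (4 * (N + 1))) = θ * D / 2 * (N / (N + 1)) := by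
          field_simp
          ring
      _ ≤ θ * D / 2 * 1 := mul_le_mul_of_nonneg_left h3 (by positivity)
      _ = _ := mul_one _
  rw [hP'] at hle
  linarith
-- END ROW MA

end Pool.Agent.Mix
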