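import Pool.Agent.Lib.MP_09cbbd_mix.Bas
import Pool.Agent.Lib.MP_09cbbd_sw.Topo

/-!
# Gluing: geometry and the pointwise inequality
-/

set_option autoImplicit false

namespace Pool.Agent.Mix

open MeasureTheory Finset Filter Topology Pool.Agent.StableGas Pool.Agent.SquareWell
open Pool.Agent.Kac (Tor cst)

variable {d : ℕ} {E : Type} [MeasurableSpace E] (M : Mx d E)

/-- The interior. -/
noncomputable def inn (X : Finset (Zd d)) : Finset (Zd d) := by
  classical exact X \ bd X

/-- The cells near `X` which are not in the interior. -/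
noncomputable def Dr (r : ℕ) (X : Finset (Zd d)) : Finset (Zd d) := by
  classical exact fatr r X \ inn X

theorem mem_inn {X : Finset (Zd d)} {i : Zd d} : i ∈ inn X ↔ i ∈ X ∧ Nb i ⊆ X := by
  classical
  unfold inn
  rw [Finset.mem_sdiff, mem_bd]
  tauto

theorem mem_Dr {r : ℕ} {X : Finset (Zd d)} {i : Zd d} :
    i ∈ Dr r X ↔ i ∈ fatr r X ∧ i ∉ inn X := by
  classical
  unfold Dr
  rw [Finset.mem_sdiff]

/-
ROW GD. Every i in Dr r X has a point of bd X in i + Qr: if i in X, then i in bd X itself (i not in inn X). If i notin X take x in X near i; along the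
path from x to i (SquareWell.Topo.path, Topo.Btw.near) there are adjacent z in X, z' notin X with z between x and i, so z in bd X and |z - i| <= r.
So Dr r X is contained in the union over z in bd X of z + Qr d r (Bas.card_Qr).
-/
-- BEGIN ROW GD
theorem card_Dr_le (r : ℕ) (X : Finset (Zd d)) :
    (Dr r X).card ≤ (2 * r + 1) ^ d * (bd X).card := by
  classical
  have key : Dr r X ⊆ (bd X).biUnion fun z => (Qr d r).image fun v => z + v := by
    intro i hi
    obtain ⟨h1, h2⟩ := mem_Dr.1 hi
    rw [Topo.mem_fatr] at h1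
    obtain ⟨x, hx, hxi⟩ := h1
    have main : ∃ z ∈ bd X, near r z i := by
      by_cases hiX : i ∈ X
      · refine ⟨i, mem_bd.2 ⟨hiX, fun h => h2 (mem_inn.2 ⟨hiX, h⟩)⟩, Topo.near_self r i⟩
      · obtain ⟨z, z', hz, -, hadj, hzX, hz'X⟩ := Topo.path x i (fun u => u ∈ X) hx hiX
        exact ⟨z, mem_bd.2 ⟨hzX, fun h => hz'X (h hadj.mem_Nb)⟩,
          hz.near hxi (Topo.near_self r i)⟩
    obtain ⟨z, hz, hzi⟩ := main
    rw [mem_biUnion]
    refine ⟨z, hz, mem_image.2 ⟨i - z, ?_, by abel⟩⟩
    rw [mem_Qr]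
    intro k
    exact hzi k
  refine (card_le_card key).trans (card_biUnion_le.trans ?_)
  calc ∑ z ∈ bd X, ((Qr d r).image fun v => z + v).card
      ≤ ∑ _z ∈ bd X, (2 * r + 1) ^ d :=
        sum_le_sum fun z _ => card_image_le.trans (Bas.card_Qr r).le
    _ = (2 * r + 1) ^ d * (bd X).card := by rw [sum_const, smul_eq_mul, mul_comm]
-- END ROW GD

/-
ROW GI. On FA X the contents of the cells of bd X are vacua (type A at j would give j + 0 + q in X for all q in Q_1, so Nb j subset X; the same for
type B with v in Q_1 subset Q_(r+1)). Let ω' be ω with the cells of bd X replaced by e0. Then FA X ω' and w μ t (inn X) ω' = w μ t (inn X) ω and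
w μ t X ω <= w μ t (inn X) ω (the site weights of vacua are one; cp_mono). So
  (indicator of FA X of w X) ω <= (indicator of FA X of w (inn X)) (ω') * prod_{i in bd X} 1[ω i vacuum];
 integrate with Bas.lm_mul over X = inn X ∪ bd X and Bas.lm_prod, M.π_vac.
-/
-- BEGIN ROW GI
namespace GI

/-- Fewer particles. -/
private theorem FA_of_emp {X : Finset (Zd d)} {ω ω' : Zd d → E} (hω : M.FA X ω)
    (h : ∀ j ∈ X, ω' j = ω j ∨ ω' j = M.e0) : M.FA X ω' := by
  intro j hj
  rcases h j hj with e | e
  · rw [e]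
    exact hω j hj
  · rw [e, M.nA_e0, M.nB_e0]
    exact ⟨fun h => absurd h (by norm_num), fun h => absurd h (by norm_num)⟩

private theorem FA_dep {X : Finset (Zd d)} {ω ω' : Zd d → E} (h : ∀ j ∈ X, ω j = ω' j)
    (hω : M.FA X ω) : M.FA X ω' :=
  FA_of_emp M hω fun j hj => Or.inl (h j hj).symm

/-- The boundary cells are vacua. -/
private theorem vac_of_FA {X : Finset (Zd d)} {ω : Zd d → E} (hω : M.FA X ω) {i : Zd d}
    (hi : i ∈ bd X) : M.nA (ω i) = 0 ∧ M.nB (ω i) = 0 := by
  rw [mem_bd] at hi
  obtain ⟨hiX, hn⟩ := hi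
  obtain ⟨hA, hB⟩ := hω i hiX
  rcases Bas.tri M (ω i) with h | h | h
  · exact h
  · exfalso
    apply hn
    intro j hj
    have hj' := Bas.mem_Nb_iff.1 hj
    have := hA h.1 0 M.zero_SA _ hj'
    rwa [add_zero, add_sub_cancel] at this
  · exfalso
    apply hn
    intro j hj
    have hj' := Bas.Qr_mono (by omega : 1 ≤ M.r + 1) (Bas.mem_Nb_iff.1 hj)
    have := hB h.2 _ hj'
    rwa [add_sub_cancel] at this

end GI

theorem measurableSet_FA (X : Finset (Zd d)) : MeasurableSet {ω : Zd d → E | M.FA X ω} := by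
  -- finite intersection over j in X of conditions on ω j (measurableSet_A, measurableSet_B)
  classical
  have e : {ω : Zd d → E | M.FA X ω} = ⋂ j ∈ X, ({ω : Zd d → E | 1 ≤ M.nA (ω j) →
      ∀ v ∈ M.SA, ∀ q ∈ Qr d 1, j + v + q ∈ X} ∩ {ω : Zd d → E | 1 ≤ M.nB (ω j) →
      ∀ v ∈ Qr d (M.r + 1), j + v ∈ X}) := by
    ext ω
    simp only [Mx.FA, Set.mem_ofPred_eq, Set.mem_iInter, Set.mem_inter_iff]
  rw [e]
  refine Finset.measurableSet_biInter _ fun j _ => MeasurableSet.inter ?_ ?_
  · have h1 : {ω : Zd d → E | 1 ≤ M.nA (ω j) → ∀ v ∈ M.SA, ∀ q ∈ Qr d 1, j + v + q ∈ X} =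
        {ω : Zd d → E | 1 ≤ M.nA (ω j)}ᶜ ∪
          {_ω : Zd d → E | ∀ v ∈ M.SA, ∀ q ∈ Qr d 1, j + v + q ∈ X} := by
      ext ω
      simp only [Set.mem_ofPred_eq, Set.mem_union, Set.mem_compl_iff]
      tauto
    rw [h1]
    have hm : MeasurableSet {ω : Zd d → E | 1 ≤ M.nA (ω j)} :=
      measurableSet_le measurable_const (M.measurable_nA.comp (measurable_pi_apply j))
    exact hm.compl.union (MeasurableSet.const _)
  · have h1 : {ω : Zd d → E | 1 ≤ M.nB (ω j) → ∀ v ∈ Qr d (M.r + 1), j + v ∈ X} =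
        {ω : Zd d → E | 1 ≤ M.nB (ω j)}ᶜ ∪
          {_ω : Zd d → E | ∀ v ∈ Qr d (M.r + 1), j + v ∈ X} := by
      ext ω
      simp only [Set.mem_ofPred_eq, Set.mem_union, Set.mem_compl_iff]
      tauto
    rw [h1]
    have hm : MeasurableSet {ω : Zd d → E | 1 ≤ M.nB (ω j)} :=
      measurableSet_le measurable_const (M.measurable_nB.comp (measurable_pi_apply j))
    exact hm.compl.union (MeasurableSet.const _)

theorem int_FA_le (X : Finset (Zd d)) (μ t : ℝ) :
    M.int X ({ω | M.FA X ω}.indicator (M.w μ t X)) ≤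
      M.int (inn X) ({ω | M.FA X ω}.indicator (M.w μ t (inn X))) := by
  classical
  have hXu : X = inn X ∪ bd X := by
    ext i
    rw [mem_union, mem_inn, mem_bd]
    tauto
  have hdis : Disjoint (inn X) (bd X) := by
    rw [disjoint_left]
    intro i hi hi'
    exact (mem_bd.1 hi').2 (mem_inn.1 hi).2
  set f : (Zd d → E) → ENNReal := {ω | M.FA X ω}.indicator (M.w μ t (inn X)) with hf
  have hfm : Measurable f := (Bas.measurable_w M μ t (inn X)).indicator (measurableSet_FA M X)
  set emp : (Zd d → E) → (Zd d → E) := fun ω i => if i ∈ bd X then M.e0 else ω i with hemp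
  have hempm : Measurable emp := by
    rw [measurable_pi_iff]
    intro i
    by_cases hi : i ∈ bd X
    · simp only [hemp, hi, if_true]
      exact measurable_const
    · simp only [hemp, hi, if_false]
      exact measurable_pi_apply i
  set v : E → ENNReal := {x | M.nA x = 0 ∧ M.nB x = 0}.indicator fun _ => 1 with hv
  have hV : MeasurableSet {x | M.nA x = 0 ∧ M.nB x = 0} :=
    (Bas.measurableSet_nA0 M).inter (Bas.measurableSet_nB0 M)
  have hvm : Measurable v := measurable_const.indicator hV
  have key : ∀ ω, ({ω | M.FA X ω}.indicator (M.w μ t X)) ω ≤ f (emp ω) * ∏ i ∈ bd X, v (ω i) := by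
    intro ω
    by_cases hω : M.FA X ω
    · have hvac : ∀ i ∈ bd X, M.nA (ω i) = 0 ∧ M.nB (ω i) = 0 := fun i hi =>
        GI.vac_of_FA M hω hi
      have h1 : M.FA X (emp ω) := by
        refine GI.FA_of_emp M hω fun j _ => ?_
        by_cases hj : j ∈ bd X
        · right
          simp [hemp, hj]
        · left
          simp [hemp, hj]
      have h2 : ∏ i ∈ bd X, v (ω i) = 1 := by
        refine prod_eq_one fun i hi => ?_
        rw [hv, Set.indicator_of_mem (show ω i ∈ {x | M.nA x = 0 ∧ M.nB x = 0} from hvac i hi)]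
      have h3 : M.w μ t (inn X) (emp ω) = M.w μ t (inn X) ω := by
        refine Bas.w_dep M μ t (inn X) _ _ fun i hi => ?_
        have hi' : i ∉ bd X := disjoint_left.1 hdis hi
        simp [hemp, hi']
      rw [Set.indicator_of_mem (show ω ∈ {ω | M.FA X ω} from hω), h2, mul_one, hf,
        Set.indicator_of_mem (show emp ω ∈ {ω | M.FA X ω} from h1), h3]
      by_cases hc : M.cp id X ω
      · have hc' : M.cp id (inn X) ω := Bas.cp_mono M id (fun i hi => (mem_inn.1 hi).1) hc
        rw [Bas.w_of_cp M hc, Bas.w_of_cp M hc']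
        have e : ∏ i ∈ X, M.st μ t (ω i) = ∏ i ∈ inn X ∪ bd X, M.st μ t (ω i) := by
          rw [← hXu]
        rw [e, prod_union hdis,
          prod_eq_one (s := bd X) fun i hi => Bas.st_vac M (hvac i hi).1 (hvac i hi).2, mul_one]
      · rw [Bas.w_of_not M hc]
        exact zero_le
    · rw [Set.indicator_of_notMem (show ω ∉ {ω | M.FA X ω} from hω)]
      exact zero_le
  have dg : ∀ x y : Zd d → E, (∀ i ∈ inn X, x i = y i) → f (emp x) = f (emp y) := by
    intro x y hxy
    have hem : ∀ j ∈ X, emp x j = emp y j := by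
      intro j hj
      by_cases hjb : j ∈ bd X
      · simp [hemp, hjb]
      · have : j ∈ inn X := by
          have := hXu ▸ hj
          rcases mem_union.1 this with h | h
          · exact h
          · exact absurd h hjb
        simp [hemp, hjb, hxy j this]
    by_cases hx : M.FA X (emp x)
    · have hy : M.FA X (emp y) := GI.FA_dep M hem hx
      rw [hf, Set.indicator_of_mem (show emp x ∈ {ω | M.FA X ω} from hx),
        Set.indicator_of_mem (show emp y ∈ {ω | M.FA X ω} from hy)]
      exact Bas.w_dep M μ t (inn X) _ _ fun i hi => hem i (mem_inn.1 hi).1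
    · have hy : ¬ M.FA X (emp y) := fun hy =>
        hx (GI.FA_dep M (fun j hj => (hem j hj).symm) hy)
      rw [hf, Set.indicator_of_notMem (show emp x ∉ {ω | M.FA X ω} from hx),
        Set.indicator_of_notMem (show emp y ∉ {ω | M.FA X ω} from hy)]
  have hvp : Measurable fun ω : Zd d → E => ∏ i ∈ bd X, v (ω i) :=
    Finset.measurable_prod _ fun i _ => hvm.comp (measurable_pi_apply i)
  have e1 : M.int (inn X ∪ bd X) (fun ω => f (emp ω) * ∏ i ∈ bd X, v (ω i)) =
      M.int (inn X) (fun ω => f (emp ω)) * M.int (bd X) (fun ω => ∏ i ∈ bd X, v (ω i)) :=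
    Bas.int_mul M hdis (hfm.comp hempm) hvp dg
      (fun x y h => prod_congr rfl fun i hi => by rw [h i hi])
  have e2 : M.int (bd X) (fun ω => ∏ i ∈ bd X, v (ω i)) = 1 := by
    refine (Bas.lm_prod M (bd X) (fun _ => hvm) _).trans ?_
    refine prod_eq_one fun i _ => ?_
    rw [hv, lintegral_indicator hV, setLIntegral_one, M.π_vac]
  have e3 : M.int (inn X) (fun ω => f (emp ω)) = M.int (inn X) f := by
    unfold Mx.int lmarginal
    refine lintegral_congr fun y => ?_
    show f (emp _) = f _
    congr 1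
    funext i
    by_cases hi : i ∈ bd X
    · have hi' : i ∉ inn X := disjoint_right.1 hdis hi
      simp [hemp, hi, Function.updateFinset_def, hi']
    · simp [hemp, hi]
  calc M.int X ({ω | M.FA X ω}.indicator (M.w μ t X))
      ≤ M.int X (fun ω => f (emp ω) * ∏ i ∈ bd X, v (ω i)) := Bas.int_mono M X key
    _ = M.int (inn X ∪ bd X) (fun ω => f (emp ω) * ∏ i ∈ bd X, v (ω i)) := by rw [← hXu]
    _ = M.int (inn X) f := by rw [e1, e2, mul_one, e3]
-- END ROW GI

/-
ROW GP. Let ω' be the left configuration. If the left side is not zero then FA X ω', cp id (inn X) ω', cp (univ \ image) ω and nB = 0 on the image of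
Dr. Show cp univ ω: take v in Qr, v ≠ 0 and s, s + cst v. (a) both in the image of inn X: s = cst i, s + cst v = cst j with i, j in inn X, then j = i + v
(coordinates are small: |i k| + 2 r <= L; Kac.TorP.cst_inj) and cp id (inn X) ω'. (b) both outside the image: cp (univ \ image). (c) s = cst i with i in inn X,
s + cst v = cst (i + v) not in the image, so i + v notin inn X. Content of i type A: FA gives i + u + q in X for all u in SA, q in Q_1, i.e. i + u in inn X
for u in SA, so v notin SA; if the other content is type A use ok_A; if it is type B then i + v in fatr r X \ inn X = Dr: contradiction; vacuum: ok. Content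
of i type B: i + v in inn X by FA (v + q in Q_(r+1)): contradiction. Content of i vacuum: ok_vac. (d) symmetric to (c) by ok_symm (v -> -v).
The product of the site weights: univ = image of inn X ∪ rest.
-/
-- BEGIN ROW GP
namespace GP

variable {M}

theorem mem_inn_of {X : Finset (Zd d)} {i : Zd d} (h : ∀ q ∈ Qr d 1, i + q ∈ X) : i ∈ inn X := by
  rw [mem_inn]
  refine ⟨?_, fun j hj => ?_⟩
  · have := h 0 (Bas.zero_mem_Qr 1)
    rwa [add_zero] at this
  · rw [Bas.mem_Nb_iff] at hj
    have := h _ hj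
    rwa [add_sub_cancel] at this

theorem out {L : ℕ} {X : Finset (Zd d)} {ω : Tor d L → E}
    (hFA : M.FA X (fun i => if i ∈ inn X then ω (cst L i) else M.e0))
    (hB : ∀ j ∈ (Dr M.r X).image (cst L), M.nB (ω j) = 0) {v : Zd d} (hv : v ∈ Qr d M.r)
    {i : Zd d} (hi : i ∈ inn X) (hout : cst L i + cst L v ∉ (inn X).image (cst L)) :
    M.ok v (ω (cst L i)) (ω (cst L i + cst L v)) := by
  have hiv : i + v ∉ inn X := by
    intro h
    apply hout
    rw [← Pool.Agent.Kac.TorP.cst_add]
    exact mem_image_of_mem _ h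
  have hiX : i ∈ X := (mem_inn.1 hi).1
  have h1 := hFA i hiX
  have e : (if i ∈ inn X then ω (cst L i) else M.e0) = ω (cst L i) := if_pos hi
  simp only [e] at h1
  rcases Bas.tri M (ω (cst L i)) with h | h | h
  · exact M.ok_vac v _ _ h.1 h.2
  · have hvS : v ∉ M.SA := fun hs => hiv (mem_inn_of fun q hq => h1.1 h.1 v hs q hq)
    rcases Bas.tri M (ω (cst L i + cst L v)) with g | g | g
    · exact Bas.ok_vac_right M v g.1 g.2
    · exact M.ok_A v _ _ h.1 g.1 hvS
    · exfalso
      have hD : i + v ∈ Dr M.r X := by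
        rw [mem_Dr]
        refine ⟨?_, hiv⟩
        rw [Topo.mem_fatr]
        refine ⟨i, hiX, fun k => ?_⟩
        have := mem_Qr.1 hv k
        rwa [Pi.add_apply, add_sub_cancel_left]
      have h2 := hB (cst L i + cst L v) (by
        rw [← Pool.Agent.Kac.TorP.cst_add]
        exact mem_image_of_mem _ hD)
      omega
  · exfalso
    refine hiv (mem_inn_of fun q hq => ?_)
    rw [add_assoc]
    exact h1.2 h.2 _ (Bas.add_mem_Qr hv hq)

theorem cpU {L : ℕ} {X : Finset (Zd d)} (hX : ∀ i ∈ X, ∀ k, |i k| + 2 * M.r ≤ L)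
    {ω : Tor d L → E} (hFA : M.FA X (fun i => if i ∈ inn X then ω (cst L i) else M.e0))
    (hB : ∀ j ∈ (Dr M.r X).image (cst L), M.nB (ω j) = 0)
    (h1 : M.cp id (inn X) (fun i => if i ∈ inn X then ω (cst L i) else M.e0))
    (h2 : M.cp (cst L) (univ \ (inn X).image (cst L)) ω) : M.cp (cst L) univ ω := by
  intro v hv h0 s _ _
  by_cases hs : s ∈ (inn X).image (cst L)
  · obtain ⟨i, hi, rfl⟩ := mem_image.1 hs
    by_cases ht : cst L i + cst L v ∈ (inn X).image (cst L)
    · obtain ⟨j, hj, hij⟩ := mem_image.1 ht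
      have e : i + v = j := by
        refine Pool.Agent.Kac.TorP.cst_inj (L := L) ?_ fun k => ?_
        · rw [Pool.Agent.Kac.TorP.cst_add, hij]
        · have g1 := hX i (mem_inn.1 hi).1 k
          have g2 := hX j (mem_inn.1 hj).1 k
          have g3 := mem_Qr.1 hv k
          rw [Pi.add_apply]
          have g4 : |i k + v k - j k| ≤ |i k| + |v k| + |j k| := by
            refine (abs_sub _ _).trans ?_
            exact add_le_add (abs_add_le _ _) le_rfl
          have g5 : (0 : ℤ) ≤ M.r := Int.natCast_nonneg _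
          linarith
      have h3 := h1 v hv h0 i hi (by rw [id, e]; exact hj)
      simp only [id] at h3
      rw [if_pos hi, e, if_pos hj] at h3
      rw [← hij]
      exact h3
    · exact out hFA hB hv hi ht
  · by_cases ht : s + cst L v ∈ (inn X).image (cst L)
    · obtain ⟨j, hj, hij⟩ := mem_image.1 ht
      have e : cst L j + cst L (-v) = s := by
        rw [hij, add_assoc, ← Pool.Agent.Kac.TorP.cst_add, add_neg_cancel]
        have e0 : cst L (0 : Zd d) = 0 := by
          funext k
          simp [cst]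
        rw [e0, add_zero]
      have h3 := out hFA hB (v := -v) (Bas.Qr_neg.2 hv) hj (by rw [e]; exact hs)
      rw [e, hij] at h3
      have h4 := M.ok_symm _ _ _ h3
      rwa [neg_neg] at h4
    · exact h2 v hv h0 s (mem_sdiff.2 ⟨mem_univ s, hs⟩) (mem_sdiff.2 ⟨mem_univ _, ht⟩)

end GP

theorem glue_point {L : ℕ} {X : Finset (Zd d)} (hX : ∀ i ∈ X, ∀ k, |i k| + 2 * M.r ≤ L) (μ t : ℝ)
    (ω : Tor d L → E) :
    {ω | M.FA X ω}.indicator (M.w μ t (inn X))
        (fun i => if i ∈ inn X then ω (cst L i) else M.e0) *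
      {ω : Tor d L → E | ∀ j ∈ (Dr M.r X).image (cst L), M.nB (ω j) = 0}.indicator
        (M.wG (cst L) (fun _ => μ) (fun _ => t) (univ \ (inn X).image (cst L))) ω ≤
      M.wG (cst L) (fun _ => μ) (fun _ => t) univ ω := by
  classical
  by_cases hFA : M.FA X (fun i => if i ∈ inn X then ω (cst L i) else M.e0)
  swap
  · rw [Set.indicator_of_notMem (by exact hFA), zero_mul]
    exact zero_le
  by_cases hB : ∀ j ∈ (Dr M.r X).image (cst L), M.nB (ω j) = 0
  swap
  · rw [Set.indicator_of_notMem (s := {ω : Tor d L → E | ∀ j ∈ (Dr M.r X).image (cst L),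
      M.nB (ω j) = 0}) (by exact hB), mul_zero]
    exact zero_le
  rw [Set.indicator_of_mem (by exact hFA), Set.indicator_of_mem (by exact hB)]
  by_cases h1 : M.cp id (inn X) (fun i => if i ∈ inn X then ω (cst L i) else M.e0)
  swap
  · rw [Bas.w_of_not M h1, zero_mul]
    exact zero_le
  by_cases h2 : M.cp (cst L) (univ \ (inn X).image (cst L)) ω
  swap
  · rw [Bas.wG_of_not M _ h2, mul_zero]
    exact zero_le
  rw [Bas.w_of_cp M h1, Bas.wG_of_cp M _ h2, Bas.wG_of_cp M _ (GP.cpU hX hFA hB h1 h2)]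
  refine le_of_eq ?_
  have e1 : ∏ i ∈ inn X, M.st μ t (if i ∈ inn X then ω (cst L i) else M.e0) =
      ∏ s ∈ (inn X).image (cst L), M.st μ t (ω s) := by
    rw [prod_image]
    · exact prod_congr rfl fun i hi => by rw [if_pos hi]
    · intro i hi j hj hij
      refine Pool.Agent.Kac.TorP.cst_inj hij fun k => ?_
      have g1 := hX i (mem_inn.1 hi).1 k
      have g2 := hX j (mem_inn.1 hj).1 k
      have g4 : |i k - j k| ≤ |i k| + |j k| := abs_sub _ _
      have g5 : (0 : ℤ) ≤ M.r := Int.natCast_nonneg _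
      linarith
  rw [e1, mul_comm]
  exact prod_sdiff (subset_univ _)
-- END ROW GP

end Pool.Agent.Mix
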