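import Pool.Agent.Lib.MP_09cbbd_mix.Comp

/-!
# The pressure decreases when both fields decrease
-/

set_option autoImplicit false

namespace Pool.Agent.Mix

open MeasureTheory Finset Filter Topology Pool.Agent.StableGas Pool.Agent.SquareWell

variable {d : ℕ} {E : Type} [MeasurableSpace E] {M : Mx d E} {p q : ℝ → ℝ → ℝ}

/-
ROW ST. c = 1 / (2 (r + 1)^d). Let A = bx n, m = mA μ + mB t, oc ω = #{i in A : 1 <= nA (ω i) + nB (ω i)} (occupied cells), k = nat ceil of c |A|.
 * if k <= oc ω: w (μ-1) (t-1) A ω <= ex (-k) * w μ t A ω   (the exponent decreases by at least 1 per occupied cell).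
 * if oc ω < k: w (μ-1) (t-1) A ω <= prod_i st μ t (ω i) <= sum over S subset A, |S| < k, of prod_{i in S} st(ω i) 1[occupied] prod_{i in A \ S} 1[vacuum];
   the integral of the S-term is m^|S| * 1 (Bas.lm_prod, M.π_vac, Bas.lintegral_st) <= (1 + m)^k; there are at most 2^|A| terms.
 Hence xi (μ-1) (t-1) A <= ex (-k) xi μ t A + 2^|A| (1 + m)^k <= 2 max(..). Logarithm, divide by n^d, n -> infinity:
 p (μ-1) (t-1) <= max (p μ t - c) (log 2 + c log (1 + m)), and c log (1 + m) <= p μ t / 2 by ge_mass. With p μ t >= 4 and c <= 1/2 the second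
 is <= p μ t - c.
-/

-- BEGIN ROW ST
variable (M) in
/-- The indicator of the occupied contents. -/
private noncomputable def occ (x : E) : ℝ := by
  classical exact if M.nA x = 0 ∧ M.nB x = 0 then 0 else 1

private theorem occ_nonneg (x : E) : 0 ≤ occ M x := by
  unfold occ
  split_ifs <;> norm_num

private theorem measurable_occ : Measurable (occ M) := by
  unfold occ
  exact Measurable.ite ((Bas.measurableSet_nA0 M).inter (Bas.measurableSet_nB0 M))
    measurable_const measurable_const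

/-- Lowering both fields. -/
private theorem st_sub_one (μ t : ℝ) (x : E) :
    M.st (μ - 1) (t - 1) x ≤ ex (-occ M x) * M.st μ t x := by
  unfold Mx.st
  rw [← ex_add, ex_le_ex]
  have hA : (0 : ℝ) ≤ M.nA x := Nat.cast_nonneg _
  have hB : (0 : ℝ) ≤ M.nB x := Nat.cast_nonneg _
  have h : occ M x ≤ M.nA x + M.nB x := by
    unfold occ
    split_ifs with h
    · positivity
    · have h1 : 1 ≤ M.nA x + M.nB x := by
        by_contra h2
        exact h (by omega)
      exact_mod_cast h1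
  linarith

private theorem lintegral_g {μ t s : ℝ}
    (hs : ex (-s) * (1 + (M.mA μ + M.mB t)) = 1) :
    ∫⁻ x, ex (-(s * occ M x)) * M.st μ t x ∂M.π ≤ 2 := by
  have hV : MeasurableSet {x | M.nA x = 0 ∧ M.nB x = 0} :=
    (Bas.measurableSet_nA0 M).inter (Bas.measurableSet_nB0 M)
  calc ∫⁻ x, ex (-(s * occ M x)) * M.st μ t x ∂M.π
      ≤ ∫⁻ x, ({x | M.nA x = 0 ∧ M.nB x = 0}.indicator (fun _ => 1) x +
          ex (-s) * M.st μ t x) ∂M.π := by
        refine lintegral_mono fun x => ?_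
        by_cases h : M.nA x = 0 ∧ M.nB x = 0
        · rw [Set.indicator_of_mem (show x ∈ {x | M.nA x = 0 ∧ M.nB x = 0} from h)]
          have e : occ M x = 0 := by
            unfold occ
            rw [if_pos h]
          rw [e, mul_zero, neg_zero, ex_zero, one_mul, Bas.st_vac M h.1 h.2]
          exact le_self_add
        · rw [Set.indicator_of_notMem (show x ∉ {x | M.nA x = 0 ∧ M.nB x = 0} from h)]
          have e : occ M x = 1 := by
            unfold occ
            rw [if_neg h]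
          rw [e, mul_one, zero_add]
    _ = 2 := by
        rw [lintegral_add_left (measurable_const.indicator hV), lintegral_indicator hV,
          setLIntegral_one, M.π_vac, lintegral_const_mul _ (Bas.measurable_st M μ t),
          Bas.lintegral_st, hs]
        norm_num

private theorem w_sub_one (μ t : ℝ) {s k : ℝ} (hs : 0 ≤ s) (A : Finset (Zd d)) (ω : Zd d → E) :
    M.w (μ - 1) (t - 1) A ω ≤ ex (-k) * M.w μ t A ω +
      ex (s * k) * ∏ i ∈ A, ex (-(s * occ M (ω i))) * M.st μ t (ω i) := by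
  by_cases hc : M.cp id A ω
  · rw [Bas.w_of_cp M hc, Bas.w_of_cp M hc]
    have h1 : ∏ i ∈ A, M.st (μ - 1) (t - 1) (ω i) ≤
        ex (-∑ i ∈ A, occ M (ω i)) * ∏ i ∈ A, M.st μ t (ω i) := by
      refine (Bas.prod_mono fun i _ => st_sub_one μ t (ω i)).trans (le_of_eq ?_)
      rw [prod_mul_distrib, prod_ex, sum_neg_distrib]
    by_cases hk : k ≤ ∑ i ∈ A, occ M (ω i)
    · refine h1.trans (le_trans ?_ le_self_add)
      exact mul_le_mul' (ex_le_ex.2 (by linarith)) le_rfl
    · refine le_trans ?_ le_add_self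
      rw [prod_mul_distrib, prod_ex, ← mul_assoc, ← ex_add]
      have h0 : 0 ≤ ∑ i ∈ A, occ M (ω i) := sum_nonneg fun i _ => occ_nonneg _
      have h2 : ∏ i ∈ A, M.st (μ - 1) (t - 1) (ω i) ≤ 1 * ∏ i ∈ A, M.st μ t (ω i) := by
        refine h1.trans (mul_le_mul' ?_ le_rfl)
        rw [← ex_zero, ex_le_ex]
        linarith
      refine h2.trans (mul_le_mul' ?_ le_rfl)
      rw [← ex_zero, ex_le_ex, sum_neg_distrib, ← mul_sum]
      push Not at hk
      have := mul_le_mul_of_nonneg_left hk.le hs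
      linarith
  · rw [Bas.w_of_not M hc]
    exact zero_le

private theorem xi_sub_one (μ t : ℝ) {s k : ℝ} (hs : 0 ≤ s)
    (hs1 : ex (-s) * (1 + (M.mA μ + M.mB t)) = 1) (A : Finset (Zd d)) :
    M.xi (μ - 1) (t - 1) A ≤ ex (-k) * M.xi μ t A + ex (s * k) * 2 ^ A.card := by
  have hg : Measurable fun x : E => ex (-(s * occ M x)) * M.st μ t x :=
    (Bas.measurable_ex ((measurable_occ.const_mul s).neg)).mul (Bas.measurable_st M μ t)
  have hp : Measurable fun ω : Zd d → E => ∏ i ∈ A, ex (-(s * occ M (ω i))) * M.st μ t (ω i) :=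
    Finset.measurable_prod _ fun i _ => hg.comp (measurable_pi_apply i)
  unfold Mx.xi
  calc M.int A (M.w (μ - 1) (t - 1) A) ≤ M.int A (fun ω => ex (-k) * M.w μ t A ω +
        ex (s * k) * ∏ i ∈ A, ex (-(s * occ M (ω i))) * M.st μ t (ω i)) :=
        Bas.int_mono M A fun ω => w_sub_one μ t hs A ω
    _ = ex (-k) * M.int A (M.w μ t A) + ex (s * k) *
        M.int A (fun ω => ∏ i ∈ A, ex (-(s * occ M (ω i))) * M.st μ t (ω i)) := by
        rw [← Bas.int_const_mul M A (Bas.measurable_w M μ t A), ← Bas.int_const_mul M A hp]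
        exact Bas.int_add M A (measurable_const.mul (Bas.measurable_w M μ t A))
    _ ≤ _ := by
        refine add_le_add le_rfl (mul_le_mul' le_rfl ?_)
        unfold Mx.int
        rw [Bas.lm_prod M A (f := fun _ x => ex (-(s * occ M x)) * M.st μ t x) (fun _ => hg)]
        rw [prod_const]
        exact pow_le_pow_left' (lintegral_g hs1) _

theorem star (hd : 1 ≤ d) (hp : M.IsP p) {μ t : ℝ} (h : 4 ≤ p μ t) :
    p (μ - 1) (t - 1) ≤ p μ t - 1 / (2 * (M.r + 1 : ℝ) ^ d) := by
  obtain ⟨c, hc⟩ : ∃ c : ℝ, c = 1 / (2 * (M.r + 1 : ℝ) ^ d) := ⟨_, rfl⟩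
  rw [← hc]
  have hr : (1 : ℝ) ≤ (M.r + 1 : ℝ) ^ d := one_le_pow₀ (by
    have : (0 : ℝ) ≤ M.r := Nat.cast_nonneg _
    linarith)
  have hc0 : 0 < c := by rw [hc]; positivity
  have hc1 : c ≤ 1 / 2 := by
    rw [hc, div_le_div_iff₀ (by positivity) (by norm_num)]
    linarith
  have hcr : c * (M.r + 1 : ℝ) ^ d = 1 / 2 := by
    rw [hc]
    field_simp
  have hm : M.mA μ + M.mB t ≠ ⊤ := ENNReal.add_ne_top.2 ⟨Bas.mA_ne_top M μ, Bas.mB_ne_top M t⟩
  obtain ⟨s, hs⟩ : ∃ s : ℝ, s = Real.log (1 + (M.mA μ + M.mB t).toReal) := ⟨_, rfl⟩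
  have hs0 : 0 ≤ s := by
    rw [hs]
    refine Real.log_nonneg ?_
    have : (0 : ℝ) ≤ (M.mA μ + M.mB t).toReal := ENNReal.toReal_nonneg
    linarith
  have hsc : s * c ≤ p μ t / 2 := by
    have h1 := Mx.IsP.ge_mass hd hp μ t
    rw [← hs] at h1
    calc s * c ≤ (M.r + 1 : ℝ) ^ d * p μ t * c := mul_le_mul_of_nonneg_right h1 hc0.le
      _ = c * (M.r + 1 : ℝ) ^ d * p μ t := by ring
      _ = _ := by rw [hcr]; ring
  have hs1 : ex (-s) * (1 + (M.mA μ + M.mB t)) = 1 := by
    have h1 : (1 : ENNReal) + (M.mA μ + M.mB t) = ex s := by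
      rw [hs, show (1 : ℝ) + (M.mA μ + M.mB t).toReal = (1 + (M.mA μ + M.mB t)).toReal by
        rw [ENNReal.toReal_add ENNReal.one_ne_top hm]; rfl]
      rw [ex_log (by simp) (ENNReal.add_ne_top.2 ⟨ENNReal.one_ne_top, hm⟩)]
    rw [h1, ← ex_add, neg_add_cancel, ex_zero]
  have hcard : ∀ n : ℕ, (bx d n).card = n ^ d := fun n => by simp [bx]
  have key : ∀ n : ℕ, 1 ≤ n → Real.log (M.xi (μ - 1) (t - 1) (bx d n)).toReal / (n : ℝ) ^ d ≤
      Real.log 2 / (n : ℝ) ^ d + max (Real.log (M.xi μ t (bx d n)).toReal / (n : ℝ) ^ d - c)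
        (p μ t / 2 + Real.log 2) := by
    intro n hn
    have hn0 : (0 : ℝ) < n := by exact_mod_cast hn
    have hN : (0 : ℝ) < (n : ℝ) ^ d := by positivity
    obtain ⟨N, hNdef⟩ : ∃ N : ℝ, N = (n : ℝ) ^ d := ⟨_, rfl⟩
    rw [← hNdef] at hN ⊢
    obtain ⟨b, hb⟩ : ∃ b : ℝ, b = Real.log (M.xi μ t (bx d n)).toReal / N := ⟨_, rfl⟩
    rw [← hb]
    have h1 := xi_sub_one (M := M) μ t (k := c * N) hs0 hs1 (bx d n)
    have h2 : M.xi μ t (bx d n) = ex (b * N) := by
      rw [hb, div_mul_cancel₀ _ hN.ne', Bas.xi_eq_ex]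
    have h3 : (2 : ENNReal) ^ (bx d n).card = ex (Real.log 2 * N) := by
      have e2 : (2 : ENNReal) = ex (Real.log 2) := by
        have := ex_log (x := (2 : ENNReal)) (by simp) (by simp)
        rw [← this]
        simp
      rw [hcard, e2, ex_pow, hNdef]
      push_cast
      rw [mul_comm]
    rw [h2, h3, ← ex_add, ← ex_add] at h1
    have h4 : M.xi (μ - 1) (t - 1) (bx d n) ≤
        ex (Real.log 2 + N * max (b - c) (p μ t / 2 + Real.log 2)) := by
      refine h1.trans ?_
      have e3 : ex (Real.log 2 + N * max (b - c) (p μ t / 2 + Real.log 2)) =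
          ex (N * max (b - c) (p μ t / 2 + Real.log 2)) +
          ex (N * max (b - c) (p μ t / 2 + Real.log 2)) := by
        have e2 : (2 : ENNReal) = ex (Real.log 2) := by
          have := ex_log (x := (2 : ENNReal)) (by simp) (by simp)
          rw [← this]
          simp
        rw [ex_add, ← e2, two_mul]
      rw [e3]
      refine add_le_add (ex_le_ex.2 ?_) (ex_le_ex.2 ?_)
      · have h5 := mul_le_mul_of_nonneg_left (le_max_left (b - c) (p μ t / 2 + Real.log 2)) hN.le
        linarith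
      · have h5 := mul_le_mul_of_nonneg_left (le_max_right (b - c) (p μ t / 2 + Real.log 2)) hN.le
        have h6 := mul_le_mul_of_nonneg_right hsc hN.le
        linarith
    have h5 : Real.log (M.xi (μ - 1) (t - 1) (bx d n)).toReal ≤
        Real.log 2 + N * max (b - c) (p μ t / 2 + Real.log 2) := by
      have h6 := ENNReal.toReal_mono (ex_ne_top _) h4
      rw [ex_toReal] at h6
      have h7 := Real.log_le_log (Bas.xi_pos M (μ - 1) (t - 1) (bx d n)) h6
      rwa [Real.log_exp] at h7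
    rw [div_le_iff₀ hN, add_mul, div_mul_cancel₀ _ hN.ne']
    linarith
  have hlim : Tendsto (fun n : ℕ => Real.log 2 / (n : ℝ) ^ d +
      max (Real.log (M.xi μ t (bx d n)).toReal / (n : ℝ) ^ d - c) (p μ t / 2 + Real.log 2))
      atTop (𝓝 (0 + max (p μ t - c) (p μ t / 2 + Real.log 2))) := by
    refine Tendsto.add ?_ (Tendsto.max ((hp μ t).sub tendsto_const_nhds) tendsto_const_nhds)
    refine tendsto_const_nhds.div_atTop ?_
    exact (tendsto_pow_atTop (by omega)).comp tendsto_natCast_atTop_atTop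
  have hfin := le_of_tendsto_of_tendsto (hp (μ - 1) (t - 1)) hlim
    (by filter_upwards [eventually_ge_atTop 1] with n hn using key n hn)
  rw [zero_add] at hfin
  refine hfin.trans (max_le le_rfl ?_)
  have : Real.log 2 ≤ 1 := by
    have := Real.log_le_sub_one_of_pos (show (0 : ℝ) < 2 by norm_num)
    linarith
  linarith
-- END ROW ST

end Pool.Agent.Mix
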