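import Pool.Agent.Lib.MP_09cbbd_mix.Pei
import Pool.Agent.Lib.MP_09cbbd_mix.Est
import Pool.Agent.Lib.MP_09cbbd_mix.Star
import Pool.Agent.Lib.MP_09cbbd_mix.Cvx

/-!
# The pressure of the lattice model is not differentiable
-/

set_option autoImplicit false

namespace Pool.Agent.Mix

open MeasureTheory Finset Filter Topology Pool.Agent.StableGas Pool.Agent.SquareWell

/-
ROW LA. θ = 1 / (8 (r + 1)^d (2 r + 1)^d): 4 (r+1)^d (2r+1)^d θ <= 1, 3 θ < c = 1 / (2 (r + 1)^d). C1 from no_equal, C2 with 4 exp (-C2 / (2 (r + 2) + 1)^d) <= θ / 2.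
 C = (r + 1)^d max(4, C1, C2): for t >= 0 every p μ t >= qb μ t >= log (1 + mB t) / (r + 1)^d >= log (mB 0) / (r + 1)^d >= max(4, C1, C2)
 (onlyB_ge_mass, onlyB_le, mB monotone in t; mB 0 = π {1 <= nB}).
 h1 of no_both: if both θ D <= ... then with Q = max (qa μ t) (qb μ t) >= C2: p μ t <= Q + θ / 2 (peierls); if Q = qa μ t = qa μ (t - D) <= p μ (t - D) (onlyA_indep,
 onlyA_le) then θ D <= p μ t - p μ (t - D) <= θ / 2; if Q = qb μ t = qb (μ - D) t <= p (μ - D) t similarly. So D <= 1/2.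
 hlin: log (1 + (mA μ + mB 0).toReal) <= (r + 1)^d p μ 0 and mA μ >= e^μ π {1 <= nA} for μ >= 0, so p μ 0 >= (μ + log π_A) / (r + 1)^d and 3 θ <= 1 / (r + 1)^d.
 Then star, no_both with t0 = 0, not_diff. The pressures qa, qb exist by exists_p for onlyA, onlyB.
-/
-- BEGIN ROW LA
namespace LA

variable {d : ℕ} {E : Type} [MeasurableSpace E] (M : Mx d E)

theorem πB_le_mB {t : ℝ} (ht : 0 ≤ t) : M.π {x | 1 ≤ M.nB x} ≤ M.mB t := by
  unfold Mx.mB
  rw [← setLIntegral_one]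
  refine lintegral_mono fun x => ?_
  rw [← ex_zero]
  exact ex_le_ex.2 (mul_nonneg ht (Nat.cast_nonneg _))

theorem πA_le_mA {μ : ℝ} (hμ : 0 ≤ μ) : ex μ * M.π {x | 1 ≤ M.nA x} ≤ M.mA μ := by
  unfold Mx.mA
  rw [← setLIntegral_const]
  refine setLIntegral_mono' (Bas.measurableSet_A M) fun x hx => ?_
  refine ex_le_ex.2 ?_
  have h1 : (1 : ℝ) ≤ M.nA x := by exact_mod_cast hx
  nlinarith

theorem exp_small {θ R Q : ℝ} (hθ : 0 < θ) (hR : 0 < R) (hQ : R * Real.log (8 / θ) ≤ Q) :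
    4 * Real.exp (-(Q / R)) ≤ θ / 2 := by
  have h1 : Real.log (8 / θ) ≤ Q / R := by
    rw [le_div_iff₀ hR]
    linarith [mul_comm R (Real.log (8 / θ))]
  have h2 : Real.exp (-(Q / R)) ≤ Real.exp (-Real.log (8 / θ)) :=
    Real.exp_le_exp.2 (neg_le_neg h1)
  rw [Real.exp_neg (Real.log (8 / θ)), Real.exp_log (by positivity)] at h2
  have h3 : (8 / θ)⁻¹ = θ / 8 := by rw [inv_div]
  rw [h3] at h2
  linarith

end LA

theorem not_differentiable (d r N : ℕ) (hd : 2 ≤ d) : ∃ C : ℝ, ∀ (E : Type) (_ : MeasurableSpace E)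
    (M : Mx d E), M.r = r → M.N = N → M.π {x | 1 ≤ M.nA x} ≠ 0 →
      C ≤ Real.log (M.π {x | 1 ≤ M.nB x}).toReal → ∀ p : ℝ → ℝ → ℝ, M.IsP p →
        ¬ Differentiable ℝ fun μ => p μ 0 := by
  have hd1 : 1 ≤ d := by omega
  set R1 : ℝ := ((r : ℝ) + 1) ^ d with hR1
  set R2 : ℝ := (2 * (r : ℝ) + 1) ^ d with hR2
  set R3 : ℝ := (2 * ((r : ℝ) + 2) + 1) ^ d with hR3
  have r0 : (0 : ℝ) ≤ r := Nat.cast_nonneg r
  have R1pos : 0 < R1 := by positivity
  have R2one : 1 ≤ R2 := one_le_pow₀ (by linarith)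
  have R3pos : 0 < R3 := by positivity
  set θ : ℝ := 1 / (8 * R1 * R2) with hθdef
  have hθ : 0 < θ := by positivity
  have hθ1 : 4 * R1 * R2 * θ ≤ 1 := by
    rw [hθdef]
    have : 4 * R1 * R2 * (1 / (8 * R1 * R2)) = 1 / 2 := by field_simp; norm_num
    rw [this]
    norm_num
  have h3 : 3 * θ < 1 / (2 * R1) := by
    rw [hθdef, mul_one_div, div_lt_div_iff₀ (by positivity) (by positivity)]
    nlinarith
  obtain ⟨C1, hC1⟩ := no_equal d r N hd hθ hθ1
  set C2 : ℝ := R3 * Real.log (8 / θ) with hC2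
  set C0 : ℝ := max (max 4 C1) C2 with hC0
  have hC04 : 4 ≤ C0 := (le_max_left _ _).trans (le_max_left _ _)
  have hC01 : C1 ≤ C0 := (le_max_right _ _).trans (le_max_left _ _)
  have hC02 : C2 ≤ C0 := le_max_right _ _
  refine ⟨R1 * C0, ?_⟩
  intro E _ M hr hN hA hB p hp
  obtain ⟨qa, hqa⟩ := exists_p M.onlyA hd1
  obtain ⟨qb, hqb⟩ := exists_p M.onlyB hd1
  have hBtop : M.π {x | 1 ≤ M.nB x} ≠ ⊤ :=
    ne_top_of_le_ne_top M.π_fin (measure_mono (Set.subset_univ _))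
  have hAtop : M.π {x | 1 ≤ M.nA x} ≠ ⊤ :=
    ne_top_of_le_ne_top M.π_fin (measure_mono (Set.subset_univ _))
  have hBpos : 0 < (M.π {x | 1 ≤ M.nB x}).toReal := by
    rcases eq_or_lt_of_le (ENNReal.toReal_nonneg (a := M.π {x | 1 ≤ M.nB x})) with h | h
    · rw [← h, Real.log_zero] at hB
      nlinarith
    · exact h
  have hq : ∀ μ t, 0 ≤ t → C0 ≤ qb μ t := by
    intro μ t ht
    have h1 := onlyB_ge_mass hd1 hqb μ t
    rw [hr] at h1
    have h2 : (M.π {x | 1 ≤ M.nB x}).toReal ≤ (M.mB t).toReal :=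
      ENNReal.toReal_mono (Bas.mB_ne_top M t) (LA.πB_le_mB M ht)
    have h4 : Real.log (M.π {x | 1 ≤ M.nB x}).toReal ≤ Real.log (1 + (M.mB t).toReal) :=
      Real.log_le_log hBpos (by linarith)
    have h5 : R1 * C0 ≤ R1 * qb μ t := (hB.trans h4).trans h1
    exact le_of_mul_le_mul_left h5 R1pos
  have hpq : ∀ μ t, 0 ≤ t → C0 ≤ p μ t := fun μ t ht =>
    (hq μ t ht).trans (hp.onlyB_le hqb μ t)
  have key := no_both p hp.convex (t0 := 0) hθ (fun μ t D ht hD e1 e2 => by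
    have h1 := peierls hd hp hqa hqb μ t
    rw [hr] at h1
    have h2 : 4 * Real.exp (-(max (qa μ t) (qb μ t) / R3)) ≤ θ / 2 :=
      LA.exp_small hθ R3pos (hC02.trans ((hq μ t ht).trans (le_max_right _ _)))
    have h4 : p μ t ≤ max (qa μ t) (qb μ t) + θ / 2 := h1.trans (by linarith)
    rcases le_total (qa μ t) (qb μ t) with h | h
    · rw [max_eq_right h, onlyB_indep hqb μ (μ - D) t] at h4
      have h5 := hp.onlyB_le hqb (μ - D) t
      have h6 : θ * D ≤ θ * (1 / 2) := by linarith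
      exact le_of_mul_le_mul_left h6 hθ
    · rw [max_eq_left h, onlyA_indep hqa μ t (t - D)] at h4
      have h5 := hp.onlyA_le hqa μ (t - D)
      have h6 : θ * D ≤ θ * (1 / 2) := by linarith
      exact le_of_mul_le_mul_left h6 hθ)
    (fun μ t D ht hD hD2 => hC1 E _ M hr hN p hp μ t D hD hD2 (hC01.trans (hpq μ t ht)))
  have hApos : 0 < (M.π {x | 1 ≤ M.nA x}).toReal := ENNReal.toReal_pos hA hAtop
  refine not_diff p hp.convex (fun μ μ' h => hp.mono h le_rfl) (fun μ => hp.nonneg μ 0)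
    (θ := θ) (c := 1 / (2 * R1)) (b := -(Real.log (M.π {x | 1 ≤ M.nA x}).toReal / R1)) hθ h3
    (fun μ => ?_) (fun μ D hD => ?_) (fun μ hμ => ?_)
  · have h1 := star hd1 hp (μ := μ) (t := 0) (hC04.trans (hpq μ 0 le_rfl))
    rw [hr, zero_sub] at h1
    exact h1
  · have h1 := key μ 0 D le_rfl hD
    rw [zero_sub] at h1
    exact h1
  · have h1 := hp.ge_mass hd1 μ 0
    rw [hr] at h1
    have h2 : Real.exp μ * (M.π {x | 1 ≤ M.nA x}).toReal ≤ (M.mA μ + M.mB 0).toReal := by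
      have e1 : (ex μ * M.π {x | 1 ≤ M.nA x}).toReal
          = Real.exp μ * (M.π {x | 1 ≤ M.nA x}).toReal := by
        rw [ENNReal.toReal_mul]
        congr 1
        unfold ex
        exact ENNReal.toReal_ofReal (Real.exp_pos μ).le
      rw [← e1]
      exact ENNReal.toReal_mono (ENNReal.add_ne_top.2 ⟨Bas.mA_ne_top M μ, Bas.mB_ne_top M 0⟩)
        ((LA.πA_le_mA M hμ).trans le_self_add)
    have h4 : μ + Real.log (M.π {x | 1 ≤ M.nA x}).toReal
        ≤ Real.log (1 + (M.mA μ + M.mB 0).toReal) := by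
      have e2 : μ + Real.log (M.π {x | 1 ≤ M.nA x}).toReal
          = Real.log (Real.exp μ * (M.π {x | 1 ≤ M.nA x}).toReal) := by
        rw [Real.log_mul (Real.exp_pos μ).ne' hApos.ne', Real.log_exp]
      rw [e2]
      exact Real.log_le_log (by positivity) (by linarith)
    have h5 : μ + Real.log (M.π {x | 1 ≤ M.nA x}).toReal ≤ R1 * p μ 0 := h4.trans h1
    have h6 : 3 * θ * μ ≤ 1 / R1 * μ := by
      refine mul_le_mul_of_nonneg_right ?_ hμ
      have : 1 / (2 * R1) ≤ 1 / R1 := one_div_le_one_div_of_le R1pos (by linarith)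
      linarith
    have h7 : (μ + Real.log (M.π {x | 1 ≤ M.nA x}).toReal) / R1 ≤ p μ 0 := by
      rw [div_le_iff₀ R1pos]
      linarith
    have h8 : (μ + Real.log (M.π {x | 1 ≤ M.nA x}).toReal) / R1
        = 1 / R1 * μ + Real.log (M.π {x | 1 ≤ M.nA x}).toReal / R1 := by ring
    linarith
-- END ROW LA

end Pool.Agent.Mix
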