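import Pool.Agent.Lib.MP_09cbbd_mix.ClsD

/-!
# Classes: the configurations in the two regions
-/

set_option autoImplicit false

namespace Pool.Agent.Mix

open MeasureTheory Finset Filter Topology Pool.Agent.StableGas Pool.Agent.SquareWell

variable {d : ℕ} {E : Type} [MeasurableSpace E] (M : Mx d E)

/-
ROW CM.
disj: i = j + v + q = j' + v' + q' with j type A, j' type B, v in SA, v' in SB, q, q' in Q_1. Put u = j' - j = v - v' + (q - q'): with a = v in SA,
b = -v' in SB (SB_neg): u - a - b = q - q' in Q_2, so M.no_AB says not ok u (ω j) (ω j'). But u in Qr d r (otherwise Bas.ok_far), u ≠ 0 (j = j' would be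
of both types, M.not_AB), so cp gives ok u (ω j) (ω (j + u)): contradiction.
-/
-- BEGIN ROW CMa
theorem disj_DD_VC {A : Finset (Zd d)} {ω : Zd d → E} (h : M.cp id A ω) {i : Zd d}
    (h1 : i ∈ M.DD A ω) (h2 : i ∈ M.VC A ω) : False := by
  rw [mem_DD] at h1
  rw [mem_VC] at h2
  obtain ⟨-, v, hv, q, hq, hj, hA⟩ := h1
  obtain ⟨-, v', hv', q', hq', hj', hB⟩ := h2
  have e1 : i - v - q + (v - v' + (q - q')) = i - v' - q' := by abel
  have e2 : v - v' + (q - q') - v - -v' = q + -q' := by abel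
  have h3 : v - v' + (q - q') - v - -v' ∈ Qr d 2 := by
    rw [e2]
    have h3' := Bas.add_mem_Qr hq (Bas.Qr_neg.2 hq')
    rwa [show (1 + 1 : ℕ) = 2 from rfl] at h3'
  have h4 := M.no_AB (v - v' + (q - q')) _ _ hA hB v hv (-v') (M.SB_neg v' hv') h3
  by_cases hu : v - v' + (q - q') ∈ Qr d M.r
  · by_cases hu0 : v - v' + (q - q') = 0
    · rw [hu0, add_zero] at e1
      rw [← e1] at hB
      rcases M.not_AB (ω (i - v - q)) with h5 | h5
      · omega
      · omega
    · have h5 := h _ hu hu0 (i - v - q) hj (by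
        show i - v - q + (v - v' + (q - q')) ∈ A
        rw [e1]
        exact hj')
      have h6 : M.ok (v - v' + (q - q')) (ω (i - v - q))
        (ω (i - v - q + (v - v' + (q - q')))) := h5
      rw [e1] at h6
      exact h4 h6
  · exact h4 (Bas.ok_far M _ _ _ hu)
-- END ROW CMa

theorem DD_of_A {A : Finset (Zd d)} {ω : Zd d → E} {i : Zd d} (hi : i ∈ A)
    (h : 1 ≤ M.nA (ω i)) : i ∈ M.DD A ω := by
  rw [mem_DD]
  refine ⟨hi, 0, M.zero_SA, 0, Bas.zero_mem_Qr 1, ?_, ?_⟩
  · rwa [sub_zero, sub_zero]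
  · rwa [sub_zero, sub_zero]

theorem VC_of_B {A : Finset (Zd d)} {ω : Zd d → E} {i : Zd d} (hi : i ∈ A)
    (h : 1 ≤ M.nB (ω i)) : i ∈ M.VC A ω := by
  rw [mem_VC]
  refine ⟨hi, 0, M.zero_SB, 0, Bas.zero_mem_Qr 1, ?_, ?_⟩
  · rwa [sub_zero, sub_zero]
  · rwa [sub_zero, sub_zero]

variable {A : Finset (Zd d)} {s : ℕ} {K : ℝ} {L Y DL OL : Finset (Zd d)} {ω : Zd d → E}

-- BEGIN ROW CMa
theorem vac_OL (hω : ω ∈ M.Class A s K L Y DL OL) {i : Zd d} (hi : i ∈ OL) :
    i ∈ A ∧ M.nA (ω i) = 0 ∧ M.nB (ω i) = 0 := by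
  obtain ⟨-, -, -, hOL, -⟩ := hω
  rw [← hOL, Finset.mem_sdiff, mem_inter, mem_union, not_or] at hi
  obtain ⟨⟨-, hiA⟩, hD, hV⟩ := hi
  refine ⟨hiA, ?_, ?_⟩
  · by_contra h
    exact hD (DD_of_A M hiA (Nat.pos_of_ne_zero h))
  · by_contra h
    exact hV (VC_of_B M hiA (Nat.pos_of_ne_zero h))
-- END ROW CMa

/-
FA: let j in XY and ω' j = ω j if j in YY, e0 otherwise (nothing to prove for e0); j in YY.
 Type A at j, i = j + v + q. If i notin A then i in lay (|v + q| <= r + 1 <= r + 2, j in A). If i in A then i in DD. Suppose i notin YY: i notin Y; i notin L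
 (else i in L ∩ DD = DL). j in Y or j in DL (so in L), near (r + 2) i j: Cut.nearW gives (i notin A or i in VC): contradiction with disj_DD_VC.
 Type B at j: j in VC, so j notin DD, j notin DL, j in Y. v in Q_(r+1), i = j + v: if i notin Y then Cut.nearY gives j in DD: contradiction; so i in Y.
 (Y ⊆ A is Cut.Y_sub, DL ⊆ DD ⊆ A.)
FB: j in WW. Type B at j, v in SB, q in Q_1, i = j + v + q: i notin A: i in lay. i in A: i in VC; i notin OL (OL is disjoint from VC), i notin DL (DL in DD);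
 if i in Y then (j notin Y) Cut.nearY for i gives i in DD: contradiction. So i in WW.
 Type A at j: j in DD, so j notin L (else j in DL), j notin Y. v in Q_(r+1), i = j + v: if i in Y or i in L, Cut.nearW for j gives j notin A or j in VC: contradiction.
 So i notin Y, i notin L, hence i notin DL, OL: i in WW if i in A, otherwise i in lay.
-/
-- BEGIN ROW CMa
theorem FA_of_class (hω : ω ∈ M.Class A s K L Y DL OL) :
    M.FA (XY (M.r + 2) A Y DL) (fun i => if i ∈ YY Y DL then ω i else M.e0) := by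
  obtain ⟨hcp, hcut, hDL, -, -⟩ := hω
  have hDLL : ∀ j ∈ DL, j ∈ L ∧ j ∈ M.DD A ω := by
    intro j hj
    rw [← hDL, mem_inter] at hj
    exact hj
  have hYA : ∀ j, j ∈ YY Y DL → j ∈ A := by
    intro j hj
    rcases mem_YY.1 hj with h | h
    · exact hcut.Y_sub h
    · exact ((mem_DD M).1 (hDLL j h).2).1
  have hnear : ∀ (j v : Zd d), v ∈ Qr d (M.r + 1) → near (M.r + 2) j (j + v) := by
    intro j v hv k
    have h1 := mem_Qr.1 hv k
    rw [Pi.add_apply, add_sub_cancel_left]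
    refine h1.trans ?_
    push_cast
    linarith
  intro j _
  refine ⟨fun hA v hv q hq => ?_, fun hB v hv => ?_⟩
  · by_cases hjY : j ∈ YY Y DL
    · have hA' : 1 ≤ M.nA (ω j) := by
        have h1 : 1 ≤ M.nA (if j ∈ YY Y DL then ω j else M.e0) := hA
        rwa [if_pos hjY] at h1
      have hjA := hYA j hjY
      have hvq : v + q ∈ Qr d (M.r + 1) := Bas.add_mem_Qr (M.SA_r v hv) hq
      have hn : near (M.r + 2) j (j + v + q) := by
        rw [add_assoc]
        exact hnear j (v + q) hvq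
      by_cases hi : j + v + q ∈ A
      · have hD : j + v + q ∈ M.DD A ω := by
          rw [mem_DD]
          have e : j + v + q - v - q = j := by abel
          refine ⟨hi, v, hv, q, hq, ?_, ?_⟩
          · rw [e]
            exact hjA
          · rw [e]
            exact hA'
        by_contra hcon
        have h1 : j + v + q ∉ YY Y DL := fun h => hcon (mem_XY.2 (Or.inl h))
        rw [mem_YY, not_or] at h1
        have h2 : j + v + q ∉ L := by
          intro h
          apply h1.2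
          rw [← hDL, mem_inter]
          exact ⟨h, hD⟩
        have h3 : j ∈ Y ∨ j ∈ L := by
          rcases mem_YY.1 hjY with h | h
          · exact Or.inl h
          · exact Or.inr (hDLL j h).1
        obtain ⟨h4, -, -⟩ := hcut.nearW _ h1.1 h2 j h3 (SquareWell.Topo.near_symm hn)
        rcases h4 with h4 | h4
        · exact h4 hi
        · exact disj_DD_VC M hcp hD h4
      · refine mem_XY.2 (Or.inr (mem_lay.2 ⟨?_, hi⟩))
        exact SquareWell.Topo.mem_fatr.2 ⟨j, hjA, hn⟩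
    · have h1 : 1 ≤ M.nA (if j ∈ YY Y DL then ω j else M.e0) := hA
      rw [if_neg hjY, M.nA_e0] at h1
      omega
  · by_cases hjY : j ∈ YY Y DL
    · have hB' : 1 ≤ M.nB (ω j) := by
        have h1 : 1 ≤ M.nB (if j ∈ YY Y DL then ω j else M.e0) := hB
        rwa [if_pos hjY] at h1
      have hjA := hYA j hjY
      have hjV := VC_of_B M hjA hB'
      have hjD : j ∉ M.DD A ω := fun h => disj_DD_VC M hcp h hjV
      have hjY' : j ∈ Y := by
        rcases mem_YY.1 hjY with h | h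
        · exact h
        · exact absurd (hDLL j h).2 hjD
      by_contra hcon
      have h1 : j + v ∉ YY Y DL := fun h => hcon (mem_XY.2 (Or.inl h))
      rw [mem_YY, not_or] at h1
      exact hjD (hcut.nearY j hjY' _ h1.1 (hnear j v hv)).1
    · have h1 : 1 ≤ M.nB (if j ∈ YY Y DL then ω j else M.e0) := hB
      rw [if_neg hjY, M.nB_e0] at h1
      omega
-- END ROW CMa

-- BEGIN ROW CMb
private theorem cmb_near {r : ℕ} {i j : Zd d} (h : j - i ∈ Qr d r) : near r i j := by
  intro k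
  have := mem_Qr.1 h k
  rwa [Pi.sub_apply] at this

theorem FB_of_class (hω : ω ∈ M.Class A s K L Y DL OL) :
    M.FB (XW (M.r + 2) A Y DL OL) (fun i => if i ∈ WW A Y DL OL then ω i else M.e0) := by
  obtain ⟨hcp, hcut, hDL, hOL, -⟩ := hω
  have hDL' : ∀ i, i ∈ DL ↔ i ∈ L ∧ i ∈ M.DD A ω := fun i => by rw [← hDL, mem_inter]
  have hOL' : ∀ i, i ∈ OL → i ∈ L ∧ i ∉ M.DD A ω ∧ i ∉ M.VC A ω := fun i hi => by
    rw [← hOL, Finset.mem_sdiff, mem_inter, mem_union, not_or] at hi
    exact ⟨hi.1.1, hi.2⟩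
  intro j _
  by_cases hjW : j ∈ WW A Y DL OL
  · obtain ⟨hjA, hjY, hjDL, hjOL⟩ := mem_WW.1 hjW
    constructor
    · intro h v hv q hq
      have h1 : 1 ≤ M.nB (ω j) := by
        have h2 : 1 ≤ M.nB (if j ∈ WW A Y DL OL then ω j else M.e0) := h
        rwa [if_pos hjW] at h2
      have hv' : v ∈ M.SB := hv
      have hnear : near (M.r + 2) j (j + v + q) := by
        refine cmb_near ?_
        rw [show j + v + q - j = v + q by abel]
        exact Bas.Qr_mono (by omega) (Bas.add_mem_Qr (M.SB_r v hv') hq)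
      by_cases hiA : j + v + q ∈ A
      · have hi : j + v + q ∈ M.VC A ω := by
          rw [mem_VC]
          refine ⟨hiA, v, hv', q, hq, ?_, ?_⟩
          · rwa [show j + v + q - v - q = j by abel]
          · rwa [show j + v + q - v - q = j by abel]
        refine mem_XW.2 (Or.inl (mem_WW.2 ⟨hiA, ?_, ?_, ?_⟩))
        · intro hiY
          exact disj_DD_VC M hcp (hcut.nearY _ hiY j hjY (Topo.near_symm hnear)).1 hi
        · intro hiDL
          exact disj_DD_VC M hcp ((hDL' _).1 hiDL).2 hi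
        · intro hiOL
          exact (hOL' _ hiOL).2.2 hi
      · exact mem_XW.2 (Or.inr (mem_lay.2 ⟨Topo.mem_fatr.2 ⟨j, hjA, hnear⟩, hiA⟩))
    · intro h v hv
      have h1 : 1 ≤ M.nA (ω j) := by
        have h2 : 1 ≤ M.nA (if j ∈ WW A Y DL OL then ω j else M.e0) := h
        rwa [if_pos hjW] at h2
      have hnear : near (M.r + 2) j (j + v) := by
        refine cmb_near ?_
        rw [add_sub_cancel_left]
        exact Bas.Qr_mono (by change M.r + 1 ≤ M.r + 2; omega) hv
      have hjD : j ∈ M.DD A ω := DD_of_A M hjA h1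
      have hjL : j ∉ L := fun hjL => hjDL ((hDL' j).2 ⟨hjL, hjD⟩)
      have key : ¬ (j + v ∈ Y ∨ j + v ∈ L) := by
        intro hi
        rcases (hcut.nearW j hjY hjL _ hi hnear).1 with h2 | h2
        · exact h2 hjA
        · exact disj_DD_VC M hcp hjD h2
      rw [not_or] at key
      by_cases hiA : j + v ∈ A
      · refine mem_XW.2 (Or.inl (mem_WW.2 ⟨hiA, key.1, ?_, ?_⟩))
        · intro h2
          exact key.2 ((hDL' _).1 h2).1
        · intro h2
          exact key.2 (hOL' _ h2).1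
      · exact mem_XW.2 (Or.inr (mem_lay.2 ⟨Topo.mem_fatr.2 ⟨j, hjA, hnear⟩, hiA⟩))
  · constructor
    · intro h
      have h2 : 1 ≤ M.nB (if j ∈ WW A Y DL OL then ω j else M.e0) := h
      rw [if_neg hjW, M.nB_e0] at h2
      omega
    · intro h
      have h2 : 1 ≤ M.nA (if j ∈ WW A Y DL OL then ω j else M.e0) := h
      rw [if_neg hjW, M.nA_e0] at h2
      omega
-- END ROW CMb

/-
Cut.small (with D' = DD A ω, V' = VC A ω) gives |Y \ DD| + |(A \ (Y ∪ L)) \ VC| <= K. A cell j of YY with 1 <= nB (ω j) is in Y \ DD (see above), and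
nB <= N; a cell j of WW with 1 <= nA (ω j) is in (A \ (Y ∪ L)) \ VC.
-/
-- BEGIN ROW CMb
private theorem cmb_sum (B C : Finset (Zd d)) (f : E → ℕ) (N : ℕ) (hf : ∀ x, f x ≤ N)
    (ω : Zd d → E) (h : ∀ i ∈ B, 1 ≤ f (ω i) → i ∈ C) {K : ℝ} (hK : (C.card : ℝ) ≤ K) :
    ∑ i ∈ B, (f (ω i) : ℝ) ≤ N * K := by
  classical
  calc ∑ i ∈ B, (f (ω i) : ℝ) ≤ ∑ i ∈ B, (if i ∈ C then (N : ℝ) else 0) := by
        refine sum_le_sum fun i hi => ?_
        split_ifs with hC
        · exact_mod_cast hf (ω i)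
        · have h1 : f (ω i) = 0 := by
            by_contra h2
            exact hC (h i hi (Nat.one_le_iff_ne_zero.2 h2))
          rw [h1, Nat.cast_zero]
    _ = ∑ i ∈ B.filter (fun i => i ∈ C), (N : ℝ) := (sum_filter _ _).symm
    _ = (B.filter (fun i => i ∈ C)).card * (N : ℝ) := by rw [sum_const, nsmul_eq_mul]
    _ ≤ C.card * (N : ℝ) := by
        refine mul_le_mul_of_nonneg_right ?_ (Nat.cast_nonneg _)
        exact_mod_cast card_le_card fun i hi => (mem_filter.1 hi).2
    _ ≤ K * (N : ℝ) := mul_le_mul_of_nonneg_right hK (Nat.cast_nonneg _)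
    _ = N * K := mul_comm _ _

private theorem cmb_small (hω : ω ∈ M.Class A s K L Y DL OL) :
    (((Y \ M.DD A ω).card + ((A \ (Y ∪ L)) \ M.VC A ω).card : ℕ) : ℝ) ≤ K := by
  obtain ⟨-, hcut, -, -, hK⟩ := hω
  refine le_trans ?_ hK
  exact_mod_cast hcut.small (M.DD A ω) (M.VC A ω) (fun i => Iff.rfl) fun i hi =>
    ⟨fun h => Or.inr h, fun h => h.resolve_left fun h' => h' hi⟩

theorem sum_nB_le (hω : ω ∈ M.Class A s K L Y DL OL) :
    ∑ i ∈ YY Y DL, (M.nB (ω i) : ℝ) ≤ M.N * K := by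
  have hK := cmb_small M hω
  obtain ⟨hcp, hcut, hDL, -, -⟩ := hω
  refine cmb_sum (YY Y DL) (Y \ M.DD A ω) M.nB M.N M.nB_le ω (fun i hi h => ?_)
    (le_trans (by exact_mod_cast Nat.le_add_right _ _) hK)
  have hDL' : i ∈ DL → i ∈ M.DD A ω := fun h2 => by
    rw [← hDL, mem_inter] at h2
    exact h2.2
  have hiA : i ∈ A := by
    rcases mem_YY.1 hi with h2 | h2
    · exact hcut.Y_sub h2
    · exact ((mem_DD M).1 (hDL' h2)).1
  have hiV : i ∈ M.VC A ω := VC_of_B M hiA h
  rcases mem_YY.1 hi with h2 | h2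
  · exact Finset.mem_sdiff.2 ⟨h2, fun h3 => disj_DD_VC M hcp h3 hiV⟩
  · exact (disj_DD_VC M hcp (hDL' h2) hiV).elim

theorem sum_nA_le (hω : ω ∈ M.Class A s K L Y DL OL) :
    ∑ i ∈ WW A Y DL OL, (M.nA (ω i) : ℝ) ≤ M.N * K := by
  have hK := cmb_small M hω
  obtain ⟨hcp, hcut, hDL, -, -⟩ := hω
  refine cmb_sum (WW A Y DL OL) ((A \ (Y ∪ L)) \ M.VC A ω) M.nA M.N M.nA_le ω (fun i hi h => ?_)
    (le_trans (by exact_mod_cast Nat.le_add_left _ _) hK)
  obtain ⟨hiA, hiY, hiDL, -⟩ := mem_WW.1 hi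
  have hiD : i ∈ M.DD A ω := DD_of_A M hiA h
  have hiL : i ∉ L := fun h2 => hiDL (by
    rw [← hDL, mem_inter]
    exact ⟨h2, hiD⟩)
  refine Finset.mem_sdiff.2 ⟨Finset.mem_sdiff.2 ⟨hiA, fun h2 => ?_⟩, fun h2 =>
    disj_DD_VC M hcp hiD h2⟩
  rcases mem_union.1 h2 with h3 | h3
  · exact hiY h3
  · exact hiL h3
-- END ROW CMb

end Pool.Agent.Mix
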