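import Pool.Agent.Lib.MP_09cbbd_mix.Sum
import Pool.Agent.Lib.MP_09cbbd_mix.BoxA
import Pool.Agent.Lib.MP_09cbbd_mix.GlueA

/-!
# The pressure is close to the maximum of the pressures of the pure systems
-/

set_option autoImplicit false

namespace Pool.Agent.Mix

open MeasureTheory Finset Filter Topology Pool.Agent.StableGas Pool.Agent.SquareWell

variable {d : ℕ} {E : Type} [MeasurableSpace E] {M : Mx d E} {p qa qb : ℝ → ℝ → ℝ}

/-
ROW PE. Q = max (qa μ t) (qb μ t) >= 0 (Mx.IsP.nonneg for the pure models), R = (2 (r + 2) + 1)^d. Class bound with K = 0, s = 1: split; on sum nB <= N * 0 all nB are 0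
(similarly nA), so glue_pureA, glue_pureB; with x = |XY|, y = |XW|, o = |OL|, card_XY_XW, card_L_le:
  qa (x - |bd XY|) + qb (y - |bd XW|) <= Q (|A| - o + 2 |lay| - |bd XY|) <= Q |A| + 2 Q |lay| - Q (|L| / R - |bd A|)   (x >= |bd XY| etc.).
 sum_classes_one with T L = ex (Q |A| + 2 Q |lay| + Q |bd A| - (Q / R) |L|); sum over L subset fatr A of (4 e^(-Q/R))^|L| = (1 + 4 e^(-Q/R))^|fatr A| <=
 exp (4 e^(-Q/R) |fatr A|). Logarithm, divide by n^d, A = bx n, BoxA.
-/
-- BEGIN ROW PE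
namespace PE

theorem int_A_le (hd : 1 ≤ d) (hqa : M.onlyA.IsP qa) (μ t : ℝ) (X : Finset (Zd d)) :
    M.int X ({ω | M.FA X ω ∧ ∑ i ∈ X, (M.nB (ω i) : ℝ) ≤ M.N * (0 : ℝ)}.indicator (M.w μ t X)) ≤
      ex (((X.card : ℝ) - (bd X).card) * qa μ t) := by
  refine le_trans (Bas.lm_mono M X (fun ω => ?_) _) (glue_pureA hd hqa X μ t)
  refine Set.indicator_le_indicator_of_subset ?_ (fun _ => zero_le) ω
  rintro ω ⟨h1, h2⟩
  refine ⟨h1, fun i hi => ?_⟩
  have h3 : ∑ i ∈ X, (M.nB (ω i) : ℝ) = 0 := by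
    refine le_antisymm (by simpa using h2) (Finset.sum_nonneg fun i _ => Nat.cast_nonneg _)
  rw [Finset.sum_eq_zero_iff_of_nonneg fun i _ => Nat.cast_nonneg _] at h3
  exact_mod_cast h3 i hi

theorem int_B_le (hd : 1 ≤ d) (hqb : M.onlyB.IsP qb) (μ t : ℝ) (X : Finset (Zd d)) :
    M.int X ({ω | M.FB X ω ∧ ∑ i ∈ X, (M.nA (ω i) : ℝ) ≤ M.N * (0 : ℝ)}.indicator (M.w μ t X)) ≤
      ex (((X.card : ℝ) - (bd X).card) * qb μ t) := by
  refine le_trans (Bas.lm_mono M X (fun ω => ?_) _) (glue_pureB hd hqb X μ t)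
  refine Set.indicator_le_indicator_of_subset ?_ (fun _ => zero_le) ω
  rintro ω ⟨h1, h2⟩
  refine ⟨h1, fun i hi => ?_⟩
  have h3 : ∑ i ∈ X, (M.nA (ω i) : ℝ) = 0 := by
    refine le_antisymm (by simpa using h2) (Finset.sum_nonneg fun i _ => Nat.cast_nonneg _)
  rw [Finset.sum_eq_zero_iff_of_nonneg fun i _ => Nat.cast_nonneg _] at h3
  exact_mod_cast h3 i hi

theorem card_bd_le (X : Finset (Zd d)) : ((bd X).card : ℝ) ≤ X.card := by
  have : (bd X).card ≤ X.card := Finset.card_le_card fun i hi => (mem_bd.1 hi).1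
  exact_mod_cast this

theorem class_le (hd : 1 ≤ d) (hqa : M.onlyA.IsP qa) (hqb : M.onlyB.IsP qb) (μ t : ℝ) {Q : ℝ}
    (hQ : 0 ≤ Q) (ha : qa μ t ≤ Q) (hb : qb μ t ≤ Q) (A L Y DL OL : Finset (Zd d)) :
    M.int A ((M.Class A 1 0 L Y DL OL).indicator (M.w μ t A)) ≤
      ex (Q * (A.card + 2 * (lay (M.r + 2) A).card + (bd A).card) +
        L.card * -(Q / (2 * (M.r + 2) + 1 : ℝ) ^ d)) := by
  rcases (M.Class A 1 0 L Y DL OL).eq_empty_or_nonempty with h | h
  · rw [h, Set.indicator_empty]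
    have : M.int A (fun _ => 0) = 0 := by
      unfold Mx.int lmarginal
      exact lintegral_zero
    exact (le_of_eq this).trans zero_le
  · refine (split M A 1 0 L Y DL OL μ t).trans ?_
    refine (mul_le_mul' (int_A_le hd hqa μ t _) (int_B_le hd hqb μ t _)).trans ?_
    rw [← ex_add, ex_le_ex]
    set x : ℝ := ((XY (M.r + 2) A Y DL).card : ℝ) with hx
    set y : ℝ := ((XW (M.r + 2) A Y DL OL).card : ℝ) with hy
    set bx' : ℝ := ((bd (XY (M.r + 2) A Y DL)).card : ℝ) with hbx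
    set by' : ℝ := ((bd (XW (M.r + 2) A Y DL OL)).card : ℝ) with hby
    have h1 : bx' ≤ x := card_bd_le _
    have h2 : by' ≤ y := card_bd_le _
    have h3 : x + y + OL.card = A.card + 2 * (lay (M.r + 2) A).card := by
      have := card_XY_XW M h
      rw [hx, hy]
      exact_mod_cast this
    set R : ℝ := (2 * (M.r + 2) + 1 : ℝ) ^ d with hR
    have hR0 : 0 < R := by positivity
    have h4 : (L.card : ℝ) ≤ R * (bx' + (bd A).card + OL.card) := by
      have := card_L_le M h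
      rw [hbx, hR]
      exact_mod_cast this
    have h5 : 0 ≤ by' := Nat.cast_nonneg _
    have h6 : (L.card : ℝ) / R ≤ bx' + (bd A).card + OL.card := by
      rw [div_le_iff₀ hR0]
      linarith
    have h7 : (x - bx') * qa μ t ≤ (x - bx') * Q := mul_le_mul_of_nonneg_left ha (by linarith)
    have h8 : (y - by') * qb μ t ≤ (y - by') * Q := mul_le_mul_of_nonneg_left hb (by linarith)
    have h9 : Q * (L.card / R) ≤ Q * (bx' + (bd A).card + OL.card) :=
      mul_le_mul_of_nonneg_left h6 hQ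
    have h10 : (L.card : ℝ) * -(Q / R) = -(Q * (L.card / R)) := by ring
    rw [h10]
    have h11 : 0 ≤ Q * by' := mul_nonneg hQ h5
    calc (x - bx') * qa μ t + (y - by') * qb μ t ≤ (x - bx') * Q + (y - by') * Q :=
          add_le_add h7 h8
      _ = Q * (A.card + 2 * (lay (M.r + 2) A).card) - Q * (bx' + OL.card) - Q * by' := by
          rw [← h3]
          ring
      _ ≤ Q * (A.card + 2 * (lay (M.r + 2) A).card) - Q * (bx' + OL.card) := by linarith
      _ ≤ _ := by linarith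

theorem log_le (hd : 2 ≤ d) (hqa : M.onlyA.IsP qa) (hqb : M.onlyB.IsP qb) (μ t : ℝ) {Q : ℝ}
    (hQ : 0 ≤ Q) (ha : qa μ t ≤ Q) (hb : qb μ t ≤ Q) (A : Finset (Zd d)) (hA : NConn A) :
    Real.log (M.xi μ t A).toReal ≤
      Q * (A.card + 2 * (lay (M.r + 2) A).card + (bd A).card) +
        4 * Real.exp (-(Q / (2 * (M.r + 2) + 1 : ℝ) ^ d)) * (fatr (M.r + 2) A).card := by
  set R : ℝ := (2 * (M.r + 2) + 1 : ℝ) ^ d with hR
  set c : ℝ := Q * (A.card + 2 * (lay (M.r + 2) A).card + (bd A).card) with hc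
  have h1 := sum_classes_one M hd μ t A hA (fun L => ex (c + L.card * -(Q / R)))
    (fun L Y DL OL => class_le (by omega) hqa hqb μ t hQ ha hb A L Y DL OL)
  have h2 : ∑ L ∈ (fatr (M.r + 2) A).powerset, (4 : ENNReal) ^ L.card * ex (c + L.card * -(Q / R)) =
      ex c * (4 * ex (-(Q / R)) + 1) ^ (fatr (M.r + 2) A).card := by
    rw [← Finset.sum_pow_mul_eq_add_pow, Finset.mul_sum]
    refine Finset.sum_congr rfl fun L _ => ?_
    rw [one_pow, mul_one, ex_add, mul_pow, ex_pow]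
    ring
  have h3 : 4 * ex (-(Q / R)) + 1 ≤ ex (4 * Real.exp (-(Q / R))) := by
    have e4 : (4 : ENNReal) = ENNReal.ofReal 4 := by norm_num
    have e1 : (1 : ENNReal) = ENNReal.ofReal 1 := by norm_num
    unfold ex
    rw [e4, e1, ← ENNReal.ofReal_mul (by norm_num), ← ENNReal.ofReal_add (by positivity)
      (by norm_num)]
    exact ENNReal.ofReal_le_ofReal (Real.add_one_le_exp _)
  have h4 : M.xi μ t A ≤ ex (c + 4 * Real.exp (-(Q / R)) * (fatr (M.r + 2) A).card) := by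
    refine h1.trans ?_
    rw [h2, ex_add]
    refine mul_le_mul' le_rfl ?_
    refine (pow_le_pow_left' h3 _).trans ?_
    rw [ex_pow, mul_comm]
  have h5 := ENNReal.toReal_mono (ex_ne_top _) h4
  rw [ex_toReal] at h5
  have h6 := Real.log_le_log (Bas.xi_pos M μ t A) h5
  rwa [Real.log_exp] at h6

end PE

theorem peierls (hd : 2 ≤ d) (hp : M.IsP p) (hqa : M.onlyA.IsP qa) (hqb : M.onlyB.IsP qb)
    (μ t : ℝ) : p μ t ≤ max (qa μ t) (qb μ t) +
      4 * Real.exp (-(max (qa μ t) (qb μ t) / (2 * (M.r + 2) + 1 : ℝ) ^ d)) := by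
  set Q := max (qa μ t) (qb μ t) with hQdef
  have hQ : 0 ≤ Q := (hqa.nonneg μ t).trans (le_max_left _ _)
  set e := 4 * Real.exp (-(Q / (2 * (M.r + 2) + 1 : ℝ) ^ d)) with he
  have hlim : Tendsto (fun n : ℕ => Q * (1 + 2 * (((lay (M.r + 2) (SquareWell.bx d n)).card : ℝ) /
      (n : ℝ) ^ d) + ((bd (SquareWell.bx d n)).card : ℝ) / (n : ℝ) ^ d) +
      e * (((fatr (M.r + 2) (SquareWell.bx d n)).card : ℝ) / (n : ℝ) ^ d)) atTop
      (𝓝 (Q * (1 + 2 * 0 + 0) + e * 1)) := by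
    refine Tendsto.add (Tendsto.const_mul _ (Tendsto.add (Tendsto.add tendsto_const_nhds
      ((tendsto_lay (by omega) (M.r + 2)).const_mul 2)) (tendsto_bd (by omega))))
      ((tendsto_fatr (by omega) (M.r + 2)).const_mul e)
  have h := le_of_tendsto_of_tendsto' (hp μ t) hlim fun n => ?_
  · calc p μ t ≤ Q * (1 + 2 * 0 + 0) + e * 1 := h
      _ = Q + e := by ring
  · have h1 := PE.log_le hd hqa hqb μ t hQ (le_max_left _ _) (le_max_right _ _)
      (SquareWell.bx d n) (NConn_bx hd n)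
    have hn : (0 : ℝ) ≤ (n : ℝ) ^ d := by positivity
    have h2 := div_le_div_of_nonneg_right h1 hn
    refine h2.trans ?_
    rw [card_bx_real]
    have h3 : (n : ℝ) ^ d / (n : ℝ) ^ d ≤ 1 := div_self_le_one _
    have h4 := mul_le_mul_of_nonneg_left h3 hQ
    calc (Q * ((n : ℝ) ^ d + 2 * ((lay (M.r + 2) (SquareWell.bx d n)).card : ℝ) +
          ((bd (SquareWell.bx d n)).card : ℝ)) +
          4 * Real.exp (-(Q / (2 * (M.r + 2) + 1 : ℝ) ^ d)) *
            ((fatr (M.r + 2) (SquareWell.bx d n)).card : ℝ)) / (n : ℝ) ^ d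
        = Q * ((n : ℝ) ^ d / (n : ℝ) ^ d) + Q * (2 * (((lay (M.r + 2) (SquareWell.bx d n)).card : ℝ) /
          (n : ℝ) ^ d) + ((bd (SquareWell.bx d n)).card : ℝ) / (n : ℝ) ^ d) +
          e * (((fatr (M.r + 2) (SquareWell.bx d n)).card : ℝ) / (n : ℝ) ^ d) := by
          rw [he]
          ring
      _ ≤ Q * 1 + Q * (2 * (((lay (M.r + 2) (SquareWell.bx d n)).card : ℝ) /
          (n : ℝ) ^ d) + ((bd (SquareWell.bx d n)).card : ℝ) / (n : ℝ) ^ d) +
          e * (((fatr (M.r + 2) (SquareWell.bx d n)).card : ℝ) / (n : ℝ) ^ d) := by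
          gcongr
      _ = _ := by ring
-- END ROW PE

end Pool.Agent.Mix
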