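import Pool.Agent.Lib.MP_09cbbd_mix.Bas
import Pool.Agent.Lib.MP_09cbbd_mp_h27.CgThermo

/-!
# The pressure
-/

set_option autoImplicit false

namespace Pool.Agent.Mix

open MeasureTheory Finset Filter Topology Pool.Agent.StableGas Pool.Agent.SquareWell

variable {d : ℕ} {E : Type} [MeasurableSpace E] (M : Mx d E)

/-
ROW P1. Recipe: adapt MP_09cbbd_kc/Pres.lean (xi_mono, xi_union, xi_shift, xi_box, lim_exists, exists_p, xi_convex).
Differences: (i) the exclusion has range r in the sup norm, so superadditivity holds for sets A, B with j - i notin Qr d M.r for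
i in A, j in B (lemma Bas.ok_far: contents at a distance outside Qr are compatible); hence the boxes must be separated by gaps of
r cells: (xi (bx L))^(k^d) <= xi (bx (k (L + r))), and the limit is sup log xi (bx L) / (L + r)^d (generalise lim_exists: replace
L + 1 by L + r). (ii) xi_mono: A subset B -> xi A <= xi B by emptying the cells outside A (Bas.le_lm, Bas.ok_e0, Bas.st_e0).
(iii) joint convexity: Hoelder as in xi_convex with Bas.wG_eq (w mu t A w = ex (mu nA + t nB) * w 0 0 A w).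
(iv) upper bound: Bas.xi_le.
-/

-- BEGIN ROW P1a
theorem xi_mono (μ t : ℝ) {A B : Finset (Zd d)} (h : A ⊆ B) : M.xi μ t A ≤ M.xi μ t B := by
  classical
  have := Bas.fin_π M
  have e1 : M.xi μ t B = lmarginal (fun _ : Zd d => M.π) A
      (lmarginal (fun _ : Zd d => M.π) (B \ A) (M.w μ t B)) (fun _ => M.e0) := by
    unfold Mx.xi Mx.int
    rw [← lmarginal_union _ _ (Bas.measurable_w M μ t B) disjoint_sdiff, union_sdiff_of_subset h]
  rw [e1]
  refine Bas.int_mono M A fun ω => ?_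
  refine le_trans ?_ (Bas.le_lm M (B \ A) (Bas.measurable_w M μ t B) ω)
  set ω' : Zd d → E := fun i => if i ∈ B \ A then M.e0 else ω i with hω'
  have hω1 : ∀ i ∈ A, ω' i = ω i := fun i hi => by simp [hω', hi]
  have hω2 : ∀ i ∈ B, i ∉ A → ω' i = M.e0 := fun i hi hA => by simp [hω', hi, hA]
  rw [← Bas.w_dep M μ t A _ _ hω1]
  by_cases hc : M.cp id A ω'
  · have hcB : M.cp id B ω' := by
      intro v hv hv0 i hi hiv
      by_cases h1 : i ∈ A
      · by_cases h2 : i + id v ∈ A
        · exact hc v hv hv0 i h1 h2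
        · rw [hω2 _ hiv h2]
          exact Bas.ok_e0_right M _ _
      · rw [hω2 _ hi h1]
        exact Bas.ok_e0 M _ _
    rw [Bas.w_of_cp M hc, Bas.w_of_cp M hcB]
    refine le_of_eq (prod_subset h fun i hi hA => ?_)
    rw [hω2 i hi hA, Bas.st_e0]
  · rw [Bas.w_of_not M hc]
    exact zero_le
-- END ROW P1a

-- BEGIN ROW P1b
namespace P1b

theorem mem_bx {n : ℕ} {i : Zd d} : i ∈ bx d n ↔ ∀ k, 0 ≤ i k ∧ i k < n := by
  simp [bx, Fintype.mem_piFinset]

theorem card_bx (n : ℕ) : (bx d n).card = n ^ d := by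
  simp [bx, Fintype.card_piFinset]

end P1b

/-- Superadditivity. -/
theorem xi_union (μ t : ℝ) {A B : Finset (Zd d)} (hAB : Disjoint A B)
    (hs : ∀ i ∈ A, ∀ j ∈ B, j - i ∉ Qr d M.r) : M.xi μ t A * M.xi μ t B ≤ M.xi μ t (A ∪ B) := by
  classical
  unfold Mx.xi
  rw [← Bas.int_mul M hAB (Bas.measurable_w M μ t A) (Bas.measurable_w M μ t B)
    (Bas.w_dep M μ t A) (Bas.w_dep M μ t B)]
  refine Bas.int_mono M _ fun ω => ?_
  by_cases hA : M.cp id A ω
  · by_cases hB : M.cp id B ω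
    · have hc : M.cp id (A ∪ B) ω := by
        intro v hv hv0 i hi hj
        rw [mem_union] at hi hj
        rcases hi with hi | hi <;> rcases hj with hj | hj
        · exact hA v hv hv0 i hi hj
        · exact absurd hv (by
            have h := hs i hi _ hj
            simpa using h)
        · exact absurd hv (by
            have h := hs _ hj i hi
            have e : i - (i + id v) = -v := by simp
            rw [e] at h
            rwa [Bas.Qr_neg] at h)
        · exact hB v hv hv0 i hi hj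
      rw [Bas.w_of_cp M hA, Bas.w_of_cp M hB, Bas.w_of_cp M hc, prod_union hAB]
    · rw [Bas.w_of_not M hB, mul_zero]
      exact zero_le
  · rw [Bas.w_of_not M hA, zero_mul]
    exact zero_le

namespace P1b

theorem w_shift (μ t : ℝ) (A : Finset (Zd d)) (u : Zd d) (ω : Zd d → E) :
    M.w μ t (A.image fun i => i + u) ω = M.w μ t A fun i => ω (i + u) := by
  classical
  have hinj : Function.Injective fun i : Zd d => i + u := add_left_injective u
  have hcp : M.cp id (A.image fun i => i + u) ω ↔ M.cp id A fun i => ω (i + u) := by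
    constructor
    · intro h v hv hv0 i hi hj
      have h1 := h v hv hv0 (i + u) (mem_image_of_mem _ hi) (by
        have e : i + u + id v = (i + id v) + u := by abel
        rw [e]
        exact mem_image_of_mem _ hj)
      have e : i + u + id v = (i + id v) + u := by abel
      rwa [e] at h1
    · intro h v hv hv0 i hi hj
      obtain ⟨k, hk, rfl⟩ := mem_image.1 hi
      obtain ⟨l, hl, hle⟩ := mem_image.1 hj
      have e : l = k + id v := by
        have h1 : l + u = (k + id v) + u := by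
          rw [hle]
          abel
        exact add_right_cancel h1
      have h1 := h v hv hv0 k hk (by rw [← e]; exact hl)
      have e2 : k + u + id v = (k + id v) + u := by abel
      rw [e2]
      exact h1
  by_cases h : M.cp id A fun i => ω (i + u)
  · rw [Bas.w_of_cp M h, Bas.w_of_cp M (hcp.2 h), prod_image fun i _ j _ h => hinj h]
  · rw [Bas.w_of_not M h, Bas.w_of_not M fun h' => h (hcp.1 h')]

theorem xi_shift (μ t : ℝ) (A : Finset (Zd d)) (u : Zd d) :
    M.xi μ t (A.image fun i => i + u) = M.xi μ t A := by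
  classical
  have := Bas.fin_π M
  have hinj : Function.Injective fun i : Zd d => i + u := add_left_injective u
  have h := lmarginal_image (μ := fun _ : Zd d => M.π) (X := fun _ => E) hinj A
    (Bas.measurable_w M μ t A) (fun _ => M.e0)
  unfold Mx.xi Mx.int
  refine Eq.trans ?_ h
  congr 1
  funext ω
  exact w_shift M μ t A u ω

theorem xi_biUnion (μ t : ℝ) {ι : Type} [DecidableEq ι] (T : Finset ι) (B : ι → Finset (Zd d))
    (hs : ∀ u ∈ T, ∀ u' ∈ T, u ≠ u' → ∀ i ∈ B u, ∀ j ∈ B u', j - i ∉ Qr d M.r) :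
    ∏ u ∈ T, M.xi μ t (B u) ≤ M.xi μ t (T.biUnion B) := by
  classical
  induction T using Finset.induction_on with
  | empty => rw [prod_empty]; exact Bas.one_le_xi M μ t _
  | insert a T ha ih =>
    rw [prod_insert ha, biUnion_insert]
    refine (mul_le_mul' le_rfl (ih fun u hu u' hu' => hs u (mem_insert_of_mem hu) u'
      (mem_insert_of_mem hu'))).trans ?_
    have hsep : ∀ i ∈ B a, ∀ j ∈ T.biUnion B, j - i ∉ Qr d M.r := by
      intro i hi j hj
      obtain ⟨u, hu, hju⟩ := mem_biUnion.1 hj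
      exact hs a (mem_insert_self a T) u (mem_insert_of_mem hu) (fun h => ha (h ▸ hu)) i hi j hju
    refine xi_union M μ t ?_ hsep
    rw [disjoint_left]
    intro i hi hj
    refine hsep i hi i hj ?_
    rw [sub_self]
    exact Bas.zero_mem_Qr _

theorem xi_box (μ t : ℝ) (k L : ℕ) :
    M.xi μ t (bx d L) ^ (k ^ d) ≤ M.xi μ t (bx d (k * (L + M.r))) := by
  classical
  set B : Zd d → Finset (Zd d) := fun u => (bx d L).image fun i => i + ((L : ℤ) + M.r) • u with hB
  have hr : (1 : ℤ) ≤ M.r := by exact_mod_cast M.hr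
  have hmem : ∀ u i, i ∈ B u → ∀ q, (L + M.r) * u q ≤ i q ∧ i q < (L + M.r) * u q + L := by
    intro u i hi q
    obtain ⟨j, hj, rfl⟩ := mem_image.1 hi
    have := mem_bx.1 hj q
    simp only [Pi.add_apply, Pi.smul_apply, smul_eq_mul]
    constructor <;> linarith [this.1, this.2]
  have h1 := xi_biUnion M μ t (bx d k) B (by
    intro u _ u' _ huu i hi j hj hij
    apply huu
    funext q
    have h2 := hmem u i hi q
    have h3 := hmem u' j hj q
    have h4 := abs_le.1 (mem_Qr.1 hij q)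
    simp only [Pi.sub_apply] at h4
    rcases lt_trichotomy (u q) (u' q) with h | h | h
    · exfalso
      have h5 : ((L : ℤ) + M.r) * (u q + 1) ≤ (L + M.r) * u' q :=
        mul_le_mul_of_nonneg_left (by omega) (by positivity)
      linarith [h4.1, h4.2, h2.1, h2.2, h3.1, h3.2]
    · exact h
    · exfalso
      have h5 : ((L : ℤ) + M.r) * (u' q + 1) ≤ (L + M.r) * u q :=
        mul_le_mul_of_nonneg_left (by omega) (by positivity)
      linarith [h4.1, h4.2, h2.1, h2.2, h3.1, h3.2])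
  have h2 : ∏ u ∈ bx d k, M.xi μ t (B u) = M.xi μ t (bx d L) ^ (k ^ d) := by
    rw [prod_congr rfl fun u _ => xi_shift M μ t (bx d L) (((L : ℤ) + M.r) • u), prod_const,
      card_bx]
  rw [← h2]
  refine h1.trans (xi_mono M μ t ?_)
  intro i hi
  obtain ⟨u, hu, hiu⟩ := mem_biUnion.1 hi
  rw [mem_bx] at hu ⊢
  intro q
  have h3 := hmem u i hiu q
  have h4 := hu q
  push_cast
  constructor
  · have : (0 : ℤ) ≤ (L + M.r) * u q := mul_nonneg (by positivity) h4.1
    linarith
  · have h5 : ((L : ℤ) + M.r) * (u q + 1) ≤ (L + M.r) * k :=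
      mul_le_mul_of_nonneg_left (by omega) (by positivity)
    linarith

theorem tendsto_add (d r : ℕ) :
    Tendsto (fun L : ℕ => ((L : ℝ) + r) ^ d / (L : ℝ) ^ d) atTop (𝓝 1) := by
  have h1 : Tendsto (fun L : ℕ => 1 + (r : ℝ) * (1 / (L : ℝ))) atTop (𝓝 (1 + r * 0)) :=
    ((tendsto_one_div_atTop_nhds_zero_nat (𝕜 := ℝ)).const_mul (r : ℝ)).const_add 1
  have h2 := h1.pow d
  rw [mul_zero, add_zero, one_pow] at h2
  refine h2.congr' ?_
  filter_upwards [eventually_ge_atTop 1] with L hL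
  have : (0 : ℝ) < L := by exact_mod_cast hL
  rw [← div_pow]
  congr 1
  field_simp

/-- Existence of the limit. -/
theorem lim_exists (hd : 1 ≤ d) {r : ℕ} (hr : 1 ≤ r) (a : ℕ → ℝ) (h0 : ∀ L, 0 ≤ a L)
    (hm : ∀ L L', L ≤ L' → a L ≤ a L')
    (hs : ∀ k L : ℕ, (k : ℝ) ^ d * a L ≤ a (k * (L + r))) (C : ℝ)
    (hC : ∀ L : ℕ, a L ≤ C * (L : ℝ) ^ d) :
    ∃ s, Tendsto (fun L : ℕ => a L / (L : ℝ) ^ d) atTop (𝓝 s) := by
  have hr' : (0 : ℝ) < r := by exact_mod_cast hr
  have hC0 : 0 ≤ C := by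
    have h1 := (h0 1).trans (hC 1)
    simpa using h1
  have hbd : BddAbove (Set.range fun L : ℕ => a L / ((L : ℝ) + r) ^ d) := by
    refine ⟨C, ?_⟩
    rintro _ ⟨L, rfl⟩
    show a L / ((L : ℝ) + r) ^ d ≤ C
    rw [div_le_iff₀ (by positivity)]
    refine (hC L).trans (mul_le_mul_of_nonneg_left ?_ hC0)
    exact pow_le_pow_left₀ (Nat.cast_nonneg L) (by linarith) d
  refine ⟨⨆ L : ℕ, a L / ((L : ℝ) + r) ^ d, ?_⟩
  obtain ⟨s, hs'⟩ : ∃ s, s = ⨆ L : ℕ, a L / ((L : ℝ) + r) ^ d := ⟨_, rfl⟩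
  rw [← hs']
  rw [Metric.tendsto_nhds]
  intro ε hε
  have hup : ∀ᶠ L : ℕ in atTop, a L / (L : ℝ) ^ d < s + ε := by
    have h1 := (tendsto_add d r).const_mul s
    rw [mul_one] at h1
    filter_upwards [h1.eventually (gt_mem_nhds (show s < s + ε by linarith)),
      eventually_ge_atTop 1] with L hL hL1
    have hL' : (0 : ℝ) < L := by exact_mod_cast hL1
    refine lt_of_le_of_lt ?_ hL
    have h2 : a L / ((L : ℝ) + r) ^ d ≤ s := by rw [hs']; exact le_ciSup hbd L
    rw [← mul_div_assoc]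
    refine div_le_div_of_nonneg_right ?_ (by positivity)
    rwa [div_le_iff₀ (by positivity)] at h2
  have hlow : ∀ᶠ L : ℕ in atTop, s - ε < a L / (L : ℝ) ^ d := by
    obtain ⟨L0, hL0⟩ : ∃ L0 : ℕ, s - ε < a L0 / ((L0 : ℝ) + r) ^ d := by
      rw [hs']
      exact exists_lt_of_lt_ciSup (by rw [← hs']; linarith)
    have h1 := (ConfinedGas.tendsto_cells hd (L0 + r) (by omega)).mul_const
      (a L0 / ((L0 : ℝ) + r) ^ d)
    rw [one_mul] at h1
    filter_upwards [h1.eventually (lt_mem_nhds hL0), eventually_ge_atTop 1] with L hL hL1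
    have hL' : (0 : ℝ) < L := by exact_mod_cast hL1
    refine lt_of_lt_of_le hL ?_
    have h2 : ((L / (L0 + r) : ℕ) : ℝ) ^ d * a L0 ≤ a L :=
      (hs (L / (L0 + r)) L0).trans (hm _ _ (Nat.div_mul_le_self L (L0 + r)))
    have h3 : ((((L / (L0 + r) : ℕ) : ℝ) ^ d - 1) * ((L0 + r : ℕ) : ℝ) ^ d) / (L : ℝ) ^ d *
        (a L0 / ((L0 : ℝ) + r) ^ d) = (((L / (L0 + r) : ℕ) : ℝ) ^ d - 1) * a L0 / (L : ℝ) ^ d := by
      push_cast
      have : ((L0 : ℝ) + r) ^ d ≠ 0 := by positivity
      field_simp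
    rw [h3]
    refine div_le_div_of_nonneg_right ?_ (by positivity)
    have := h0 L0
    linarith
  filter_upwards [hup, hlow] with L h1 h2
  rw [Real.dist_eq, abs_lt]
  constructor <;> linarith

theorem log_xi_le (μ t : ℝ) (A : Finset (Zd d)) : Real.log (M.xi μ t A).toReal ≤
    Real.log (ex ((|μ| + |t|) * M.N) * M.π Set.univ).toReal * A.card := by
  have h := ENNReal.toReal_mono (ENNReal.pow_ne_top (ENNReal.mul_ne_top (ex_ne_top _) M.π_fin))
    (Bas.xi_le M μ t A)
  rw [ENNReal.toReal_pow] at h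
  have h2 := Real.log_le_log (Bas.xi_pos M μ t A) h
  rw [Real.log_pow] at h2
  linarith

end P1b

theorem exists_p (hd : 1 ≤ d) : ∃ p, M.IsP p := by
  have h : ∀ μ t : ℝ, ∃ s, Tendsto (fun L : ℕ => Real.log (M.xi μ t (bx d L)).toReal /
      (L : ℝ) ^ d) atTop (𝓝 s) := by
    intro μ t
    refine P1b.lim_exists hd M.hr _ (fun L => Bas.log_xi_nonneg M μ t _) (fun L L' hL => ?_)
      (fun k L => ?_) (Real.log (ex ((|μ| + |t|) * M.N) * M.π Set.univ).toReal) (fun L => ?_)
    · refine Real.log_le_log (Bas.xi_pos M μ t _) (ENNReal.toReal_mono (Bas.xi_ne_top M μ t _)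
        (xi_mono M μ t fun i hi => ?_))
      rw [P1b.mem_bx] at hi ⊢
      intro k
      have := hi k
      constructor <;> omega
    · have h1 := ENNReal.toReal_mono (Bas.xi_ne_top M μ t _) (P1b.xi_box M μ t k L)
      rw [ENNReal.toReal_pow] at h1
      have h2 := Real.log_le_log (pow_pos (Bas.xi_pos M μ t _) _) h1
      rw [Real.log_pow] at h2
      push_cast at h2
      exact h2
    · have h1 := P1b.log_xi_le M μ t (bx d L)
      rw [P1b.card_bx] at h1
      push_cast at h1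
      exact h1
  choose p hp using h
  exact ⟨p, hp⟩
-- END ROW P1b

variable {M} {p : ℝ → ℝ → ℝ}

theorem Mx.IsP.uniq {p' : ℝ → ℝ → ℝ} (hp : M.IsP p) (hp' : M.IsP p') : p = p' := by
  funext μ t
  exact tendsto_nhds_unique (hp μ t) (hp' μ t)

theorem Mx.IsP.nonneg (hp : M.IsP p) (μ t : ℝ) : 0 ≤ p μ t :=
  ge_of_tendsto' (hp μ t) fun _ => div_nonneg (Bas.log_xi_nonneg M μ t _) (by positivity)

-- BEGIN ROW P1c
namespace P1c

theorem xi_convex (M : Mx d E) (A : Finset (Zd d)) (x y : ℝ × ℝ) {a b : ℝ} (ha : 0 ≤ a)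
    (hb : 0 ≤ b) (hab : a + b = 1) :
    Real.log (M.xi (a * x.1 + b * y.1) (a * x.2 + b * y.2) A).toReal ≤
      a * Real.log (M.xi x.1 x.2 A).toReal + b * Real.log (M.xi y.1 y.2 A).toReal := by
  have hm := fun μ t => (Bas.measurable_w M μ t A).comp
    (measurable_updateFinset (x := fun _ => M.e0) (s := A))
  have key : M.xi (a * x.1 + b * y.1) (a * x.2 + b * y.2) A ≤
      M.xi x.1 x.2 A ^ a * M.xi y.1 y.2 A ^ b := by
    have h := ENNReal.lintegral_mul_norm_pow_le (μ := Measure.pi fun _ : A => M.π)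
      (hm x.1 x.2).aemeasurable (hm y.1 y.2).aemeasurable ha hb hab
    refine le_trans (le_of_eq ?_) h
    unfold Mx.xi Mx.int lmarginal
    refine lintegral_congr fun z => ?_
    show M.wG id (fun _ => a * x.1 + b * y.1) (fun _ => a * x.2 + b * y.2) A _ =
      M.wG id (fun _ => x.1) (fun _ => x.2) A _ ^ a * M.wG id (fun _ => y.1) (fun _ => y.2) A _ ^ b
    rw [Bas.wG_eq M id (a * x.1 + b * y.1), Bas.wG_eq M id x.1, Bas.wG_eq M id y.1,
      ENNReal.mul_rpow_of_nonneg _ _ ha, ENNReal.mul_rpow_of_nonneg _ _ hb, ex_rpow, ex_rpow]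
    have h3 : ∀ c : ENNReal, c ^ a * c ^ b = c := fun c => by
      rw [← ENNReal.rpow_add_of_nonneg _ _ ha hb, hab, ENNReal.rpow_one]
    rw [mul_mul_mul_comm, h3, ← ex_add]
    congr 2
    ring
  have hx0 := Bas.xi_pos M x.1 x.2 A
  have hy0 := Bas.xi_pos M y.1 y.2 A
  have h1 : (M.xi (a * x.1 + b * y.1) (a * x.2 + b * y.2) A).toReal ≤
      (M.xi x.1 x.2 A).toReal ^ a * (M.xi y.1 y.2 A).toReal ^ b := by
    have h2 := ENNReal.toReal_mono (ENNReal.mul_ne_top
      (ENNReal.rpow_ne_top_of_nonneg ha (Bas.xi_ne_top M x.1 x.2 A))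
      (ENNReal.rpow_ne_top_of_nonneg hb (Bas.xi_ne_top M y.1 y.2 A))) key
    rwa [ENNReal.toReal_mul, ← ENNReal.toReal_rpow, ← ENNReal.toReal_rpow] at h2
  calc Real.log (M.xi (a * x.1 + b * y.1) (a * x.2 + b * y.2) A).toReal
      ≤ Real.log ((M.xi x.1 x.2 A).toReal ^ a * (M.xi y.1 y.2 A).toReal ^ b) :=
        Real.log_le_log (Bas.xi_pos M _ _ A) h1
    _ = _ := by
      rw [Real.log_mul (Real.rpow_pos_of_pos hx0 a).ne' (Real.rpow_pos_of_pos hy0 b).ne',
        Real.log_rpow hx0, Real.log_rpow hy0]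

end P1c

theorem Mx.IsP.convex (hp : M.IsP p) : ConvexOn ℝ Set.univ fun q : ℝ × ℝ => p q.1 q.2 := by
  refine ⟨convex_univ, fun x _ y _ a b ha hb hab => ?_⟩
  have h1 := ((hp x.1 x.2).const_mul a).add ((hp y.1 y.2).const_mul b)
  refine le_of_tendsto_of_tendsto (hp (a • x + b • y).1 (a • x + b • y).2) h1 ?_
  filter_upwards [eventually_ge_atTop 1] with L hL
  have hL' : (0 : ℝ) < L := by exact_mod_cast hL
  have h2 := P1c.xi_convex M (bx d L) x y ha hb hab
  have h3 : (0 : ℝ) < (L : ℝ) ^ d := by positivity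
  rw [← mul_div_assoc, ← mul_div_assoc, ← add_div]
  exact div_le_div_of_nonneg_right h2 h3.le
-- END ROW P1c

-- BEGIN ROW P1a
theorem Mx.IsP.mono (hp : M.IsP p) {μ μ' t t' : ℝ} (h : μ ≤ μ') (h' : t ≤ t') :
    p μ t ≤ p μ' t' := by
  refine le_of_tendsto_of_tendsto' (hp μ t) (hp μ' t') fun L => ?_
  refine div_le_div_of_nonneg_right (Real.log_le_log (Bas.xi_pos M μ t _) ?_) (by positivity)
  refine ENNReal.toReal_mono (Bas.xi_ne_top M μ' t' _) ?_
  exact Bas.int_mono M _ fun ω => Bas.wG_mono M id (fun _ _ => h) (fun _ _ => h') ω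
-- END ROW P1a

end Pool.Agent.Mix
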