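import Pool.Agent.Lib.MP_09cbbd_mix.Mem
import Pool.Agent.Lib.MP_09cbbd_mix.GlueP

/-!
# Classes: measurability, factorisation, counting
-/

set_option autoImplicit false

namespace Pool.Agent.Mix

open MeasureTheory Finset Filter Topology Pool.Agent.StableGas Pool.Agent.SquareWell

variable {d : ℕ} {E : Type} [MeasurableSpace E] (M : Mx d E)

/-
ROW MC. As in kc Cls.lean (measurableSet_DD, measurableSet_VC, measurableSet_pattern, measurableSet_Class): {ω | DD A ω = D} is a finite intersection of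
events 'i in D iff exists v, q ...' which are finite unions of events 1 <= nA (ω j).
-/
-- BEGIN ROW MC
namespace MC

theorem bex {α : Type} (S : Finset α) {P : α → (Zd d → E) → Prop}
    (h : ∀ v ∈ S, MeasurableSet {ω | P v ω}) : MeasurableSet {ω | ∃ v ∈ S, P v ω} := by
  have e : {ω | ∃ v ∈ S, P v ω} = ⋃ v ∈ S, {ω | P v ω} := by
    ext ω
    simp
  rw [e]
  exact Finset.measurableSet_biUnion _ h

theorem site (A S : Finset (Zd d)) {Q : E → Prop} (hQ : MeasurableSet {x | Q x}) (i : Zd d) :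
    MeasurableSet {ω : Zd d → E | ∃ v ∈ S, ∃ q ∈ Qr d 1, i - v - q ∈ A ∧ Q (ω (i - v - q))} := by
  refine bex S fun v _ => bex (Qr d 1) fun q _ => ?_
  by_cases h : i - v - q ∈ A
  · have e : {ω : Zd d → E | i - v - q ∈ A ∧ Q (ω (i - v - q))} =
        (fun ω : Zd d → E => ω (i - v - q)) ⁻¹' {x | Q x} := by
      ext ω
      simp [h]
    rw [e]
    exact (measurable_pi_apply _) hQ
  · have e : {ω : Zd d → E | i - v - q ∈ A ∧ Q (ω (i - v - q))} = ∅ := by
      ext ω
      simp [h]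
    rw [e]
    exact MeasurableSet.empty

theorem filt {A D : Finset (Zd d)} {P : Zd d → (Zd d → E) → Prop} {F : (Zd d → E) → Finset (Zd d)}
    (hF : ∀ ω i, i ∈ F ω ↔ i ∈ A ∧ P i ω) (hP : ∀ i, MeasurableSet {ω | P i ω}) :
    MeasurableSet {ω : Zd d → E | F ω = D} := by
  classical
  by_cases hD : D ⊆ A
  · have e : {ω : Zd d → E | F ω = D} = ⋂ i ∈ A, {ω : Zd d → E | i ∈ D ↔ P i ω} := by
      ext ω
      simp only [Set.mem_ofPred_eq, Set.mem_iInter]
      constructor
      · rintro rfl i hi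
        rw [hF]
        exact ⟨fun h => h.2, fun h => ⟨hi, h⟩⟩
      · intro h
        ext i
        rw [hF]
        constructor
        · rintro ⟨h1, h2⟩
          exact (h i h1).2 h2
        · intro hi
          exact ⟨hD hi, (h i (hD hi)).1 hi⟩
    rw [e]
    refine Finset.measurableSet_biInter _ fun i _ => ?_
    by_cases hi : i ∈ D
    · have e2 : {ω : Zd d → E | i ∈ D ↔ P i ω} = {ω | P i ω} := by
        ext ω
        simp [hi]
      rw [e2]
      exact hP i
    · have e2 : {ω : Zd d → E | i ∈ D ↔ P i ω} = {ω | P i ω}ᶜ := by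
        ext ω
        simp [hi]
      rw [e2]
      exact (hP i).compl
  · have e : {ω : Zd d → E | F ω = D} = ∅ := by
      ext ω
      simp only [Set.mem_ofPred_eq, Set.mem_empty_iff_false, iff_false]
      rintro rfl
      exact hD fun i hi => ((hF ω i).1 hi).1
    rw [e]
    exact MeasurableSet.empty

theorem measurableSet_DD (A D : Finset (Zd d)) : MeasurableSet {ω : Zd d → E | M.DD A ω = D} :=
  filt (fun _ _ => mem_DD M) fun i => site A M.SA (Bas.measurableSet_A M) i

theorem measurableSet_VC (A D : Finset (Zd d)) : MeasurableSet {ω : Zd d → E | M.VC A ω = D} :=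
  filt (fun _ _ => mem_VC M) fun i => site A M.SB (Bas.measurableSet_B M) i

theorem pattern (A : Finset (Zd d)) (P : Finset (Zd d) → Finset (Zd d) → Prop) :
    MeasurableSet {ω : Zd d → E | P (M.DD A ω) (M.VC A ω)} := by
  classical
  have e : {ω : Zd d → E | P (M.DD A ω) (M.VC A ω)} =
      ⋃ p ∈ (A.powerset ×ˢ A.powerset).filter (fun p => P p.1 p.2),
        ({ω : Zd d → E | M.DD A ω = p.1} ∩ {ω : Zd d → E | M.VC A ω = p.2}) := by
    ext ω
    simp only [Set.mem_ofPred_eq, Set.mem_iUnion, mem_filter, mem_product, mem_powerset,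
      Set.mem_inter_iff, exists_prop]
    constructor
    · intro h
      exact ⟨(M.DD A ω, M.VC A ω), ⟨⟨fun i hi => ((mem_DD M).1 hi).1,
        fun i hi => ((mem_VC M).1 hi).1⟩, h⟩, rfl, rfl⟩
    · rintro ⟨p, ⟨_, hp⟩, h1, h2⟩
      rw [h1, h2]
      exact hp
  rw [e]
  exact Finset.measurableSet_biUnion _ fun p _ =>
    (measurableSet_DD M A p.1).inter (measurableSet_VC M A p.2)

end MC

theorem measurableSet_Class (A : Finset (Zd d)) (s : ℕ) (K : ℝ) (L Y DL OL : Finset (Zd d)) :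
    MeasurableSet (M.Class A s K L Y DL OL) := by
  have h := MC.pattern M A fun D V =>
    Cut (M.r + 2) A (fun i => i ∈ D) (fun i => i ∉ A ∨ i ∈ V) s L Y ∧
      L ∩ D = DL ∧ (L ∩ A) \ (D ∪ V) = OL ∧
      ((∑ G ∈ ((SquareWell.bad (M.r + 2) A (fun i => i ∈ D) fun i => i ∉ A ∨ i ∈ V).image
        (comp (SquareWell.bad (M.r + 2) A (fun i => i ∈ D) fun i => i ∉ A ∨ i ∈ V))).filter
          (fun G => (fill G).card < s), (fill G).card : ℕ) : ℝ) ≤ K
  exact (Bas.measurableSet_cp M id A).inter h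
-- END ROW MC

/-
ROW SP. If the class is empty the left side is 0. Otherwise (an element gives Y ⊆ A, DL ⊆ A, OL ⊆ A, YY, OL, WW disjoint with union A).
 Pointwise, for ω in the class (write ω1 = ω on YY, e0 elsewhere; ω2 = ω on WW, e0 elsewhere):
  w μ t A ω <= F1 ω1 * 1[ω i vacuum for i in OL] * F2 ω2, with F1 = indicator of {FA XY, sum nB <= N K} of w μ t XY and F2 similarly:
  w A <= product over the sites, all conditions cp on YY and WW inherited (Bas.cp_mono), the vacua have site weight 1 (Bas.st_vac), w μ t XY ω1 = w μ t YY ω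
  since e0 is compatible with everything and has weight 1.
 Integrate: the three factors depend on the disjoint sets YY, OL, WW (Bas.int_mul twice); the middle factor gives 1 (Bas.lm_prod, M.π_vac);
 int YY (fun ω => F1 (ω on YY, e0 elsewhere)) <= int XY F1: int XY F1 >= by emptying the layer (Bas.le_lm with lmarginal_union over YY and lay).
-/
-- BEGIN ROW SP
namespace SP

/-- The configuration in `P`, empty outside. -/
noncomputable def tr (P : Finset (Zd d)) (ω : Zd d → E) : Zd d → E :=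
  fun i => if i ∈ P then ω i else M.e0

theorem tr_mem {P : Finset (Zd d)} {ω : Zd d → E} {i : Zd d} (h : i ∈ P) :
    tr M P ω i = ω i := if_pos h

theorem tr_not {P : Finset (Zd d)} {ω : Zd d → E} {i : Zd d} (h : i ∉ P) :
    tr M P ω i = M.e0 := if_neg h

theorem measurable_tr (P : Finset (Zd d)) : Measurable (tr M P) := by
  refine measurable_pi_lambda _ fun i => ?_
  by_cases h : i ∈ P
  · have e : (fun ω : Zd d → E => tr M P ω i) = fun ω => ω i := funext fun ω => tr_mem M h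
    rw [e]
    exact measurable_pi_apply i
  · have e : (fun ω : Zd d → E => tr M P ω i) = fun _ => M.e0 := funext fun ω => tr_not M h
    rw [e]
    exact measurable_const

theorem tr_dep {P : Finset (Zd d)} {x y : Zd d → E} (h : ∀ i ∈ P, x i = y i) :
    tr M P x = tr M P y := by
  funext i
  by_cases hi : i ∈ P
  · rw [tr_mem M hi, tr_mem M hi, h i hi]
  · rw [tr_not M hi, tr_not M hi]

theorem int_tr_le {P Q : Finset (Zd d)} (hPQ : Disjoint P Q) {F : (Zd d → E) → ENNReal}
    (hF : Measurable F) : M.int P (fun ω => F (tr M P ω)) ≤ M.int (P ∪ Q) F := by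
  have := Bas.fin_π M
  unfold Mx.int
  rw [lmarginal_union _ F hF hPQ]
  refine lintegral_mono fun z => ?_
  refine le_trans (le_of_eq ?_)
    (Bas.le_lm M Q hF (Function.updateFinset (fun _ => M.e0) P z))
  refine congrArg F ?_
  funext i
  by_cases h : i ∈ P
  · have h' : i ∉ Q := Finset.disjoint_left.1 hPQ h
    rw [tr_mem M h, if_neg h']
  · rw [tr_not M h]
    have e : Function.updateFinset (fun _ => M.e0) P z i = M.e0 := by
      rw [Function.updateFinset_def]
      simp [h]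
    rw [e, ite_self]

theorem cp_tr {A P Q : Finset (Zd d)} (hP : P ⊆ A) {ω : Zd d → E} (h : M.cp id A ω) :
    M.cp id (P ∪ Q) (tr M P ω) := by
  intro v hv h0 i _ _
  show M.ok v (tr M P ω i) (tr M P ω (i + v))
  by_cases h1 : i ∈ P
  · by_cases h2 : i + v ∈ P
    · rw [tr_mem M h1, tr_mem M h2]
      exact h v hv h0 i (hP h1) (hP h2)
    · rw [tr_not M h2]
      exact Bas.ok_e0_right M v _
  · rw [tr_not M h1]
    exact Bas.ok_e0 M v _

theorem w_tr {A P Q : Finset (Zd d)} (hP : P ⊆ A) (hPQ : Disjoint P Q) {ω : Zd d → E}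
    (h : M.cp id A ω) (μ t : ℝ) :
    M.w μ t (P ∪ Q) (tr M P ω) = ∏ i ∈ P, M.st μ t (ω i) := by
  rw [Bas.w_of_cp M (cp_tr M hP h), prod_union hPQ]
  have h1 : ∏ i ∈ Q, M.st μ t (tr M P ω i) = 1 := prod_eq_one fun i hi => by
    rw [tr_not M (Finset.disjoint_right.1 hPQ hi), Bas.st_e0]
  have h2 : ∏ i ∈ P, M.st μ t (tr M P ω i) = ∏ i ∈ P, M.st μ t (ω i) :=
    prod_congr rfl fun i hi => by rw [tr_mem M hi]
  rw [h1, h2, mul_one]

theorem sum_tr {P Q : Finset (Zd d)} (hPQ : Disjoint P Q) {ω : Zd d → E} {n : E → ℕ}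
    (hn : n M.e0 = 0) : ∑ i ∈ P ∪ Q, (n (tr M P ω i) : ℝ) = ∑ i ∈ P, (n (ω i) : ℝ) := by
  rw [sum_union hPQ]
  have h1 : ∑ i ∈ Q, (n (tr M P ω i) : ℝ) = 0 := sum_eq_zero fun i hi => by
    rw [tr_not M (Finset.disjoint_right.1 hPQ hi), hn, Nat.cast_zero]
  have h2 : ∑ i ∈ P, (n (tr M P ω i) : ℝ) = ∑ i ∈ P, (n (ω i) : ℝ) :=
    sum_congr rfl fun i hi => by rw [tr_mem M hi]
  rw [h1, h2, add_zero]

theorem measurableSet_sum (X : Finset (Zd d)) {n : E → ℕ} (hn : Measurable n) (c : ℝ) :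
    MeasurableSet {ω : Zd d → E | ∑ i ∈ X, (n (ω i) : ℝ) ≤ c} := by
  refine measurableSet_le (Finset.measurable_fun_sum X fun i _ => ?_) measurable_const
  exact (measurable_from_top (f := fun k : ℕ => (k : ℝ))).comp
    (hn.comp (measurable_pi_apply i))

end SP

theorem split (A : Finset (Zd d)) (s : ℕ) (K : ℝ) (L Y DL OL : Finset (Zd d)) (μ t : ℝ) :
    M.int A ((M.Class A s K L Y DL OL).indicator (M.w μ t A)) ≤
      M.int (XY (M.r + 2) A Y DL)
        ({ω | M.FA (XY (M.r + 2) A Y DL) ω ∧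
          ∑ i ∈ XY (M.r + 2) A Y DL, (M.nB (ω i) : ℝ) ≤ M.N * K}.indicator
            (M.w μ t (XY (M.r + 2) A Y DL))) *
      M.int (XW (M.r + 2) A Y DL OL)
        ({ω | M.FB (XW (M.r + 2) A Y DL OL) ω ∧
          ∑ i ∈ XW (M.r + 2) A Y DL OL, (M.nA (ω i) : ℝ) ≤ M.N * K}.indicator
            (M.w μ t (XW (M.r + 2) A Y DL OL))) := by
  have := Bas.fin_π M
  rcases Set.eq_empty_or_nonempty (M.Class A s K L Y DL OL) with he | ⟨ω0, hω0⟩
  · rw [he, Set.indicator_empty]
    have h0 : M.int A (fun _ => 0) = 0 := by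
      unfold Mx.int lmarginal
      exact lintegral_zero
    rw [h0]
    exact zero_le
  obtain ⟨-, hcut0, hDL0, hOL0, -⟩ := hω0
  have hDLL : ∀ i ∈ DL, i ∈ L ∧ i ∈ A := by
    intro i hi
    rw [← hDL0, mem_inter] at hi
    exact ⟨hi.1, ((mem_DD M).1 hi.2).1⟩
  have hOLL : ∀ i ∈ OL, i ∈ L ∧ i ∈ A := by
    intro i hi
    rw [← hOL0, Finset.mem_sdiff, mem_inter] at hi
    exact hi.1
  have hDO : ∀ i ∈ DL, i ∉ OL := by
    intro i h1 h2
    rw [← hDL0, mem_inter] at h1
    rw [← hOL0, Finset.mem_sdiff] at h2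
    exact h2.2 (mem_union_left _ h1.2)
  set P : Finset (Zd d) := YY Y DL with hP
  set W : Finset (Zd d) := WW A Y DL OL with hW
  set Q : Finset (Zd d) := lay (M.r + 2) A with hQ
  have hPA : P ⊆ A := by
    intro i hi
    rcases mem_YY.1 hi with h | h
    · exact hcut0.Y_sub h
    · exact (hDLL i h).2
  have hWA : W ⊆ A := fun i hi => (mem_WW.1 hi).1
  have hAQ : ∀ i ∈ A, i ∉ Q := fun i hi h => (mem_lay.1 h).2 hi
  have hPQ : Disjoint P Q := by
    rw [Finset.disjoint_left]
    exact fun i hi => hAQ i (hPA hi)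
  have hWQ : Disjoint W Q := by
    rw [Finset.disjoint_left]
    exact fun i hi => hAQ i (hWA hi)
  have hOW : Disjoint OL W := by
    rw [Finset.disjoint_left]
    exact fun i hi h => (mem_WW.1 h).2.2.2 hi
  have hPOW : Disjoint P (OL ∪ W) := by
    rw [Finset.disjoint_left]
    intro i hi h
    rcases mem_union.1 h with h | h
    · rcases mem_YY.1 hi with g | g
      · exact (Finset.disjoint_left.1 hcut0.Y_disj) g (hOLL i h).1
      · exact hDO i g h
    · rcases mem_YY.1 hi with g | g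
      · exact (mem_WW.1 h).2.1 g
      · exact (mem_WW.1 h).2.2.1 g
  have hA : A = P ∪ (OL ∪ W) := by
    ext i
    rw [mem_union, mem_union]
    constructor
    · intro hi
      by_cases h1 : i ∈ P
      · exact Or.inl h1
      · by_cases h2 : i ∈ OL
        · exact Or.inr (Or.inl h2)
        · rw [hP, mem_YY, not_or] at h1
          exact Or.inr (Or.inr (mem_WW.2 ⟨hi, h1.1, h1.2, h2⟩))
    · rintro (h | h | h)
      · exact hPA h
      · exact (hOLL i h).2
      · exact hWA h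
  have hXY : XY (M.r + 2) A Y DL = P ∪ Q := by
    ext i
    rw [mem_XY, mem_union]
  have hXW : XW (M.r + 2) A Y DL OL = W ∪ Q := by
    ext i
    rw [mem_XW, mem_union]
  -- the factors
  set S1 : Set (Zd d → E) := {ω | M.FA (P ∪ Q) ω ∧
    ∑ i ∈ P ∪ Q, (M.nB (ω i) : ℝ) ≤ M.N * K} with hS1
  set S2 : Set (Zd d → E) := {ω | M.FB (W ∪ Q) ω ∧
    ∑ i ∈ W ∪ Q, (M.nA (ω i) : ℝ) ≤ M.N * K} with hS2
  have mS1 : MeasurableSet S1 :=
    (measurableSet_FA M (P ∪ Q)).inter (SP.measurableSet_sum (P ∪ Q) M.measurable_nB _)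
  have mS2 : MeasurableSet S2 :=
    (measurableSet_FA M.swap (W ∪ Q)).inter (SP.measurableSet_sum (W ∪ Q) M.measurable_nA _)
  have mF1 : Measurable (S1.indicator (M.w μ t (P ∪ Q))) :=
    (Bas.measurable_w M μ t (P ∪ Q)).indicator mS1
  have mF2 : Measurable (S2.indicator (M.w μ t (W ∪ Q))) :=
    (Bas.measurable_w M μ t (W ∪ Q)).indicator mS2
  have mV : Measurable ({x : E | M.nA x = 0 ∧ M.nB x = 0}.indicator (fun _ => (1 : ENNReal))) :=
    measurable_const.indicator ((Bas.measurableSet_nA0 M).inter (Bas.measurableSet_nB0 M))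
  have mVV : Measurable fun ω : Zd d → E => ∏ i ∈ OL,
      {x : E | M.nA x = 0 ∧ M.nB x = 0}.indicator (fun _ => (1 : ENNReal)) (ω i) :=
    Finset.measurable_prod _ fun i _ => mV.comp (measurable_pi_apply i)
  rw [hXY, hXW]
  have hpt : ∀ ω, (M.Class A s K L Y DL OL).indicator (M.w μ t A) ω ≤
      S1.indicator (M.w μ t (P ∪ Q)) (SP.tr M P ω) *
        ((∏ i ∈ OL, {x : E | M.nA x = 0 ∧ M.nB x = 0}.indicator (fun _ => (1 : ENNReal)) (ω i)) *
          S2.indicator (M.w μ t (W ∪ Q)) (SP.tr M W ω)) := by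
    intro ω
    by_cases hω : ω ∈ M.Class A s K L Y DL OL
    · have hcp := hω.1
      rw [Set.indicator_of_mem hω]
      have h1 : SP.tr M P ω ∈ S1 := by
        have g1 := FA_of_class M hω
        rw [hXY] at g1
        refine ⟨g1, ?_⟩
        rw [SP.sum_tr M hPQ M.nB_e0]
        exact sum_nB_le M hω
      have h2 : SP.tr M W ω ∈ S2 := by
        have g1 := FB_of_class M hω
        rw [hXW] at g1
        refine ⟨g1, ?_⟩
        rw [SP.sum_tr M hWQ M.nA_e0]
        exact sum_nA_le M hω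
      have h3 : ∏ i ∈ OL, {x : E | M.nA x = 0 ∧ M.nB x = 0}.indicator
          (fun _ => (1 : ENNReal)) (ω i) = 1 := prod_eq_one fun i hi =>
        Set.indicator_of_mem (show ω i ∈ {x : E | M.nA x = 0 ∧ M.nB x = 0} from
          (vac_OL M hω hi).2) _
      have h4 : ∏ i ∈ OL, M.st μ t (ω i) = 1 := prod_eq_one fun i hi =>
        Bas.st_vac M (vac_OL M hω hi).2.1 (vac_OL M hω hi).2.2
      rw [Set.indicator_of_mem h1, Set.indicator_of_mem h2, h3, one_mul,
        SP.w_tr M hPA hPQ hcp, SP.w_tr M hWA hWQ hcp, Bas.w_of_cp M hcp]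
      have h5 : ∏ i ∈ A, M.st μ t (ω i) =
          (∏ i ∈ P, M.st μ t (ω i)) * ((∏ i ∈ OL, M.st μ t (ω i)) * ∏ i ∈ W, M.st μ t (ω i)) := by
        rw [← prod_union hOW, ← prod_union hPOW, ← hA]
      rw [h5, h4, one_mul]
    · rw [Set.indicator_of_notMem hω]
      exact zero_le
  have mG1 : Measurable fun ω : Zd d → E => S1.indicator (M.w μ t (P ∪ Q)) (SP.tr M P ω) :=
    mF1.comp (SP.measurable_tr M P)
  have mG2 : Measurable fun ω : Zd d → E => S2.indicator (M.w μ t (W ∪ Q)) (SP.tr M W ω) :=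
    mF2.comp (SP.measurable_tr M W)
  have mG3 : Measurable fun ω : Zd d → E => (∏ i ∈ OL,
      {x : E | M.nA x = 0 ∧ M.nB x = 0}.indicator (fun _ => (1 : ENNReal)) (ω i)) *
      S2.indicator (M.w μ t (W ∪ Q)) (SP.tr M W ω) := mVV.mul mG2
  have e2 := Bas.int_mul M hOW mVV mG2
    (fun x y h => prod_congr rfl fun i hi => by rw [h i hi])
    (fun x y h => by rw [SP.tr_dep M h])
  have e1 := Bas.int_mul M hPOW mG1 mG3
    (fun x y h => by rw [SP.tr_dep M h])
    (fun x y h => by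
      have h1 : ∀ i ∈ OL, x i = y i := fun i hi => h i (mem_union_left _ hi)
      have h2 : ∀ i ∈ W, x i = y i := fun i hi => h i (mem_union_right _ hi)
      rw [SP.tr_dep M h2]
      congr 1
      exact prod_congr rfl fun i hi => by rw [h1 i hi])
  refine (Bas.int_mono M A hpt).trans ?_
  conv_lhs => rw [hA]
  rw [e1, e2]
  have h6 : M.int OL (fun ω : Zd d → E => ∏ i ∈ OL,
      {x : E | M.nA x = 0 ∧ M.nB x = 0}.indicator (fun _ => (1 : ENNReal)) (ω i)) = 1 := by
    unfold Mx.int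
    rw [Bas.lm_prod M OL (f := fun _ => {x : E | M.nA x = 0 ∧ M.nB x = 0}.indicator
      (fun _ => (1 : ENNReal))) (fun _ => mV)]
    refine prod_eq_one fun i _ => ?_
    have mS : MeasurableSet {x : E | M.nA x = 0 ∧ M.nB x = 0} :=
      (Bas.measurableSet_nA0 M).inter (Bas.measurableSet_nB0 M)
    rw [lintegral_indicator mS, setLIntegral_one]
    exact M.π_vac
  rw [h6, one_mul]
  exact mul_le_mul' (SP.int_tr_le M hPQ mF1) (SP.int_tr_le M hWQ mF2)
-- END ROW SP

/-
ROW CN. size: Cut.size with D' = DD A ω, V' = (fatr (r + 2) A).filter (i notin A or i in VC A ω). An element i of the first set is in DL (so in XY, and in A) and has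
a neighbour j in L with j notin A (then i in bd A) or j in VC A ω, j in A (then j notin XY: j notin Y by Cut.Y_disj, j notin DL by disj_DD_VC, j notin lay, so
i in bd XY). An element of the second set is in A (otherwise in V'), not in DD, not in VC: it is in OL. (L ⊆ fatr (r + 2) A by Cut.mem_L and the definition of bad.)
-/
-- BEGIN ROW CN
theorem card_L_le {A : Finset (Zd d)} {s : ℕ} {K : ℝ} {L Y DL OL : Finset (Zd d)}
    (h : (M.Class A s K L Y DL OL).Nonempty) :
    L.card ≤ (2 * (M.r + 2) + 1) ^ d *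
      ((bd (XY (M.r + 2) A Y DL)).card + (bd A).card + OL.card) := by
  classical
  obtain ⟨ω, hcp, hcut, hDL, hOL, -⟩ := h
  have hV : ∀ i ∈ fatr (M.r + 2) A,
      (i ∈ (fatr (M.r + 2) A).filter (fun i => i ∉ A ∨ i ∈ M.VC A ω) ↔
        (i ∉ A ∨ i ∈ M.VC A ω)) := fun i hi => by
    rw [mem_filter]
    exact ⟨fun h1 => h1.2, fun h1 => ⟨hi, h1⟩⟩
  refine le_trans (hcut.size (M.DD A ω) _ (fun i => Iff.rfl) hV) ?_
  refine Nat.mul_le_mul_left _ (add_le_add ?_ ?_)
  · refine le_trans (card_le_card (fun i hi => ?_ : _ ⊆ bd (XY (M.r + 2) A Y DL) ∪ bd A))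
      (card_union_le _ _)
    rw [mem_filter, mem_inter] at hi
    obtain ⟨⟨hiL, hiD⟩, j, hj, hjL, hjV⟩ := hi
    have hiA : i ∈ A := ((mem_DD M).1 hiD).1
    have hiDL : i ∈ DL := by
      rw [← hDL, mem_inter]
      exact ⟨hiL, hiD⟩
    rw [mem_union, mem_bd, mem_bd]
    rcases (mem_filter.1 hjV).2 with h1 | h1
    · exact Or.inr ⟨hiA, fun hc => h1 (hc hj)⟩
    · refine Or.inl ⟨mem_XY.2 (Or.inl (mem_YY.2 (Or.inr hiDL))), fun hc => ?_⟩
      have hjA : j ∈ A := ((mem_VC M).1 h1).1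
      rcases mem_XY.1 (hc hj) with h2 | h2
      · rcases mem_YY.1 h2 with h3 | h3
        · exact disjoint_left.1 hcut.Y_disj h3 hjL
        · rw [← hDL, mem_inter] at h3
          exact disj_DD_VC M hcp h3.2 h1
      · exact (mem_lay.1 h2).2 hjA
  · refine card_le_card fun i hi => ?_
    rw [Finset.mem_sdiff, Finset.mem_sdiff] at hi
    obtain ⟨⟨hiL, hiD⟩, hiV⟩ := hi
    have hif : i ∈ fatr (M.r + 2) A := by
      have h1 := ((hcut.mem_L i).1 hiL).1
      unfold SquareWell.bad at h1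
      exact (mem_filter.1 h1).1
    rw [hV i hif, not_or, not_not] at hiV
    rw [← hOL, Finset.mem_sdiff, mem_inter, mem_union, not_or]
    exact ⟨⟨hiL, hiV.1⟩, hiD, hiV.2⟩

theorem card_XY_XW {A : Finset (Zd d)} {s : ℕ} {K : ℝ} {L Y DL OL : Finset (Zd d)}
    (h : (M.Class A s K L Y DL OL).Nonempty) :
    (XY (M.r + 2) A Y DL).card + (XW (M.r + 2) A Y DL OL).card + OL.card =
      A.card + 2 * (lay (M.r + 2) A).card := by
  classical
  obtain ⟨ω, hcp, hcut, hDL, hOL, -⟩ := h
  have hDLA : ∀ i ∈ DL, i ∈ A ∧ i ∈ M.DD A ω := fun i hi => by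
    rw [← hDL, mem_inter] at hi
    exact ⟨((mem_DD M).1 hi.2).1, hi.2⟩
  have hOLA : ∀ i ∈ OL, i ∈ A ∧ i ∈ L ∧ i ∉ M.DD A ω := fun i hi => by
    rw [← hOL, Finset.mem_sdiff, mem_inter, mem_union, not_or] at hi
    exact ⟨hi.1.2, hi.1.1, hi.2.1⟩
  have hYYA : ∀ i ∈ YY Y DL, i ∈ A := fun i hi => by
    rcases mem_YY.1 hi with h1 | h1
    · exact hcut.Y_sub h1
    · exact (hDLA i h1).1
  have e1 : XY (M.r + 2) A Y DL = YY Y DL ∪ lay (M.r + 2) A := by
    ext i
    rw [mem_XY, mem_union]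
  have e2 : XW (M.r + 2) A Y DL OL = WW A Y DL OL ∪ lay (M.r + 2) A := by
    ext i
    rw [mem_XW, mem_union]
  have d1 : Disjoint (YY Y DL) (lay (M.r + 2) A) := disjoint_left.2 fun i hi hi' =>
    (mem_lay.1 hi').2 (hYYA i hi)
  have d2 : Disjoint (WW A Y DL OL) (lay (M.r + 2) A) := disjoint_left.2 fun i hi hi' =>
    (mem_lay.1 hi').2 (mem_WW.1 hi).1
  have d3 : Disjoint (YY Y DL) OL := disjoint_left.2 fun i hi hi' => by
    rcases mem_YY.1 hi with h1 | h1
    · exact disjoint_left.1 hcut.Y_disj h1 (hOLA i hi').2.1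
    · exact (hOLA i hi').2.2 (hDLA i h1).2
  have d4 : Disjoint (YY Y DL ∪ OL) (WW A Y DL OL) := disjoint_left.2 fun i hi hi' => by
    obtain ⟨-, h1, h2, h3⟩ := mem_WW.1 hi'
    rcases mem_union.1 hi with h4 | h4
    · rcases mem_YY.1 h4 with h5 | h5
      · exact h1 h5
      · exact h2 h5
    · exact h3 h4
  have e3 : A = (YY Y DL ∪ OL) ∪ WW A Y DL OL := by
    ext i
    rw [mem_union, mem_union]
    constructor
    · intro hi
      by_cases h1 : i ∈ YY Y DL ∨ i ∈ OL
      · exact Or.inl h1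
      · refine Or.inr (mem_WW.2 ⟨hi, ?_, ?_, ?_⟩)
        · exact fun h2 => h1 (Or.inl (mem_YY.2 (Or.inl h2)))
        · exact fun h2 => h1 (Or.inl (mem_YY.2 (Or.inr h2)))
        · exact fun h2 => h1 (Or.inr h2)
    · rintro ((h1 | h1) | h1)
      · exact hYYA i h1
      · exact (hOLA i h1).1
      · exact (mem_WW.1 h1).1
  have e4 : A.card = (YY Y DL).card + OL.card + (WW A Y DL OL).card := by
    conv_lhs => rw [e3]
    rw [card_union_of_disjoint d4, card_union_of_disjoint d3]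
  rw [e1, e2, card_union_of_disjoint d1, card_union_of_disjoint d2, e4]
  ring
-- END ROW CN

end Pool.Agent.Mix
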