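import Pool.Agent.Lib.MP_09cbbd_mix.Split
import Pool.Agent.Lib.MP_09cbbd_mix.EntK

/-!
# Sum over the classes
-/

set_option autoImplicit false

namespace Pool.Agent.Mix

open MeasureTheory Finset Filter Topology Pool.Agent.StableGas Pool.Agent.SquareWell

variable {d : ℕ} {E : Type} [MeasurableSpace E] (M : Mx d E)

/-
ROW SU. Adapt MP_09cbbd_kc/Asm.lean (comp_L, num_le, mem_Fam, exists_class, class_sub, class_uniq, yy, gg, sum_classes). Differences: no CC; range r + 2;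
a configuration with not cp id A ω has weight 0 (Bas.w_of_not), and for cp id A ω the sets DD and VC are disjoint (disj_DD_VC), so exists_cut applies; small
contours: fill_small' with K = κ |A|; for s = 1 no contour has (fill G).card < 1 (G nonempty subset of fill G), so the sum is 0 <= K for every K >= 0.
-/

-- BEGIN ROW SU
namespace SU

theorem comp_L {B L : Finset (Zd d)} {s : ℕ}
    (hL : ∀ x, x ∈ L ↔ x ∈ B ∧ s ≤ (fill (comp B x)).card) {x : Zd d} (hx : x ∈ L) :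
    comp L x = comp B x := by
  have hxB := ((hL x).1 hx).1
  have hxs := ((hL x).1 hx).2
  refine comp_eq (sconn_comp hxB) (self_mem_comp hxB) ?_ ?_
  · intro y hy
    rw [hL]
    refine ⟨comp_subset _ _ hy, ?_⟩
    rw [comp_eq_of_mem hxB hy]
    exact hxs
  · intro y hy hyf
    rw [mem_fat] at hyf
    obtain ⟨z, hz, hyz⟩ := hyf
    exact comp_closed hz ((hL y).1 hy).1 hyz

theorem num_le {B L : Finset (Zd d)} {s : ℕ}
    (hL : ∀ x, x ∈ L ↔ x ∈ B ∧ s ≤ (fill (comp B x)).card) : num B s ≤ num L s := by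
  unfold num
  refine card_le_card ?_
  intro G hG
  rw [mem_filter, mem_image] at hG ⊢
  obtain ⟨⟨x, hx, rfl⟩, hs⟩ := hG
  have hxL : x ∈ L := (hL x).2 ⟨hx, hs.ge⟩
  exact ⟨⟨x, hxL, comp_L hL hxL⟩, hs⟩

theorem mem_Fam {A L : Finset (Zd d)} {s : ℕ} :
    L ∈ Fam A s ↔ L ⊆ A ∧ ∀ x ∈ L, s ≤ (fill (comp L x)).card := by
  classical
  unfold Fam
  rw [mem_filter, mem_powerset]

/-- Every compatible configuration lies in a class. -/
theorem ex_class (hd : 2 ≤ d) {A : Finset (Zd d)} (hA : NConn A) {ω : Zd d → E}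
    (hω : M.cp id A ω) (s : ℕ) (K : ℝ)
    (hfill : ((∑ G ∈ ((M.bad A ω).image (comp (M.bad A ω))).filter (fun G => (fill G).card < s),
      (fill G).card : ℕ) : ℝ) ≤ K) :
    ∃ L Y DL OL, L ∈ Fam (fatr (M.r + 2) A) s ∧ DL ⊆ L ∧ OL ⊆ L ∧
      num (M.bad A ω) s ≤ num L s ∧ ω ∈ M.Class A s K L Y DL OL := by
  classical
  obtain ⟨L, Y, hcut⟩ := exists_cut (D := fun i => i ∈ M.DD A ω)
    (V := fun i => i ∉ A ∨ i ∈ M.VC A ω) hd (r := M.r + 2) (by omega) hA
    (fun i hi => ((mem_DD M).1 hi).1) (fun i hi => Or.inl hi)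
    (fun i hi hV => by
      rcases hV with hV | hV
      · exact hV ((mem_DD M).1 hi).1
      · exact disj_DD_VC M hω hi hV) s
  have hL : ∀ x, x ∈ L ↔ x ∈ M.bad A ω ∧ s ≤ (fill (comp (M.bad A ω) x)).card := hcut.mem_L
  refine ⟨L, Y, L ∩ M.DD A ω, (L ∩ A) \ (M.DD A ω ∪ M.VC A ω), ?_, inter_subset_left,
    Finset.sdiff_subset.trans inter_subset_left, num_le hL, hω, hcut, rfl, rfl, hfill⟩
  rw [mem_Fam]
  constructor
  · intro x hx
    have h3 := ((hL x).1 hx).1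
    unfold Mx.bad SquareWell.bad at h3
    exact (mem_filter.1 h3).1
  · intro x hx
    rw [comp_L hL hx]
    exact ((hL x).1 hx).2

theorem exists_class (hd : 2 ≤ d) {A : Finset (Zd d)} (hA : NConn A) {m : ℕ} (hm : 1 ≤ m)
    {κ : ℝ} (hκ : 0 < κ) {ω : Zd d → E} (hω : M.cp id A ω) : ∃ s L Y DL OL, 1 ≤ s ∧
      (s = m ∨ (s < m ∧ κ * A.card ≤ 2 * s ^ 3 * num L s)) ∧
      L ∈ Fam (fatr (M.r + 2) A) s ∧ DL ⊆ L ∧ OL ⊆ L ∧
      ω ∈ M.Class A s (κ * A.card) L Y DL OL := by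
  classical
  have hex : ∃ s, 1 ≤ s ∧ (s = m ∨ (s < m ∧ κ * A.card ≤ 2 * s ^ 3 * num (M.bad A ω) s)) :=
    ⟨m, hm, Or.inl rfl⟩
  set s := Nat.find hex with hs
  obtain ⟨h1, h2⟩ := Nat.find_spec hex
  rw [← hs] at h1 h2
  have hsm : s ≤ m := by rcases h2 with h2 | h2 <;> omega
  have hmin : ∀ s', 1 ≤ s' → s' < s →
      (2 : ℝ) * s' ^ 3 * num (M.bad A ω) s' < κ * A.card := by
    intro s' h3 h4
    have h5 := Nat.find_min hex h4
    by_contra hcon
    exact h5 ⟨h3, Or.inr ⟨by omega, not_lt.1 hcon⟩⟩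
  have hfill := fill_small' (M.bad A ω) s (K := κ * A.card) (by positivity) hmin
  obtain ⟨L, Y, DL, OL, g1, g2, g3, g4, g5⟩ := ex_class M hd hA hω s _ hfill
  refine ⟨s, L, Y, DL, OL, h1, ?_, g1, g2, g3, g5⟩
  rcases h2 with h2 | h2
  · exact Or.inl h2
  · right
    refine ⟨h2.1, h2.2.trans ?_⟩
    have : (num (M.bad A ω) s : ℝ) ≤ num L s := by exact_mod_cast g4
    exact mul_le_mul_of_nonneg_left this (by positivity)

theorem class_sub {A : Finset (Zd d)} {s : ℕ} {K : ℝ} {L Y1 Y2 DL OL1 OL2 : Finset (Zd d)}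
    {ω1 ω2 : Zd d → E} (h1 : ω1 ∈ M.Class A s K L Y1 DL OL1)
    (h2 : ω2 ∈ M.Class A s K L Y2 DL OL2) : Y2 ⊆ Y1 := by
  obtain ⟨_, c1, d1, _, _⟩ := h1
  obtain ⟨_, c2, d2, _, _⟩ := h2
  have hnear : ∀ i j : Zd d, j ∈ Nb i → near (M.r + 2) i j := by
    intro i j hj k
    rw [mem_Nb] at hj
    have h3 := hj k
    push_cast
    rw [abs_le]
    constructor <;> omega
  refine c1.uniq Y2 ⟨fun x hx hxL => (Finset.disjoint_left.1 c2.Y_disj) hx hxL, ?_⟩ ?_
  · intro x hx y hyL hxy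
    by_contra hy
    exact hyL (c2.nearY x hx y hy (hnear x y hxy.mem_Nb)).2.2
  · intro i hi j hj hij
    have hjY : j ∉ Y2 := fun h => (Finset.disjoint_left.1 c2.Y_disj) h hj
    have h3 := (c2.nearY i hi j hjY (hnear i j hij)).2.1
    have h4 : j ∈ L ∩ M.DD A ω2 := mem_inter.2 ⟨hj, h3⟩
    rw [d2, ← d1] at h4
    exact (mem_inter.1 h4).2

theorem class_uniq {A : Finset (Zd d)} {s : ℕ} {K : ℝ} {L Y1 Y2 DL OL1 OL2 : Finset (Zd d)}
    {ω1 ω2 : Zd d → E} (h1 : ω1 ∈ M.Class A s K L Y1 DL OL1)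
    (h2 : ω2 ∈ M.Class A s K L Y2 DL OL2) : Y1 = Y2 :=
  Subset.antisymm (class_sub M h2 h1) (class_sub M h1 h2)

/-- The region `Y` of a nonempty class. -/
noncomputable def yy (A : Finset (Zd d)) (s : ℕ) (K : ℝ) (L DL OL : Finset (Zd d)) :
    Finset (Zd d) := by
  classical exact if h : ∃ Y, (M.Class A s K L Y DL OL).Nonempty then h.choose else ∅

theorem mem_yy {A : Finset (Zd d)} {s : ℕ} {K : ℝ} {L Y DL OL : Finset (Zd d)} {ω : Zd d → E}
    (h : ω ∈ M.Class A s K L Y DL OL) : ω ∈ M.Class A s K L (yy M A s K L DL OL) DL OL := by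
  classical
  have hex : ∃ Y, (M.Class A s K L Y DL OL).Nonempty := ⟨Y, ω, h⟩
  have e : yy M A s K L DL OL = hex.choose := by
    unfold yy
    rw [dif_pos hex]
  obtain ⟨ω', hω'⟩ := hex.choose_spec
  rw [← e] at hω'
  rw [← class_uniq M h hω']
  exact h

/-- Sum over all classes with given `s` and `L`. -/
noncomputable def gg (μ t : ℝ) (A : Finset (Zd d)) (s : ℕ) (K : ℝ) (L : Finset (Zd d))
    (ω : Zd d → E) : ENNReal :=
  ∑ q ∈ L.powerset ×ˢ L.powerset,
    (M.Class A s K L (yy M A s K L q.1 q.2) q.1 q.2).indicator (M.w μ t A) ω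

theorem measurable_gg (μ t : ℝ) (A : Finset (Zd d)) (s : ℕ) (K : ℝ) (L : Finset (Zd d)) :
    Measurable (gg M μ t A s K L) := by
  unfold gg
  exact Finset.measurable_fun_sum _ fun q _ =>
    (Bas.measurable_w M μ t A).indicator (measurableSet_Class M A s K L _ _ _)

theorem int_gg (μ t : ℝ) (A : Finset (Zd d)) (s : ℕ) (K : ℝ) (L : Finset (Zd d)) {τ : ENNReal}
    (hT : ∀ Y DL OL, M.int A ((M.Class A s K L Y DL OL).indicator (M.w μ t A)) ≤ τ) :
    M.int A (gg M μ t A s K L) ≤ 4 ^ L.card * τ := by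
  unfold gg
  rw [Bas.int_sum M (L.powerset ×ˢ L.powerset) fun q _ =>
    (Bas.measurable_w M μ t A).indicator (measurableSet_Class M A s K L _ _ _)]
  refine (Finset.sum_le_card_nsmul _ _ τ fun q _ => hT _ _ _).trans ?_
  rw [card_product, card_powerset, nsmul_eq_mul, ← mul_pow]
  norm_num

theorem le_gg {μ t : ℝ} {A : Finset (Zd d)} {s : ℕ} {K : ℝ} {L Y DL OL : Finset (Zd d)}
    {ω : Zd d → E} (h : ω ∈ M.Class A s K L Y DL OL) (h1 : DL ⊆ L) (h2 : OL ⊆ L) :
    M.w μ t A ω ≤ gg M μ t A s K L ω := by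
  unfold gg
  have h3 : (DL, OL) ∈ L.powerset ×ˢ L.powerset :=
    mem_product.2 ⟨mem_powerset.2 h1, mem_powerset.2 h2⟩
  refine le_trans ?_ (Finset.single_le_sum (f := fun q : Finset (Zd d) × Finset (Zd d) =>
    (M.Class A s K L (yy M A s K L q.1 q.2) q.1 q.2).indicator (M.w μ t A) ω)
    (fun _ _ => zero_le) h3)
  rw [Set.indicator_of_mem (mem_yy M h)]

/-- For `s = 1` there are no small contours. -/
theorem fill_one (B : Finset (Zd d)) :
    ((∑ G ∈ (B.image (comp B)).filter (fun G => (fill G).card < 1), (fill G).card : ℕ) : ℝ) ≤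
      0 := by
  have h : (B.image (comp B)).filter (fun G => (fill G).card < 1) = ∅ := by
    rw [Finset.filter_eq_empty_iff]
    intro G hG
    rw [mem_image] at hG
    obtain ⟨x, hx, rfl⟩ := hG
    have h1 : x ∈ fill (comp B x) := mem_union_left _ (self_mem_comp hx)
    have h2 := Finset.card_pos.2 ⟨x, h1⟩
    omega
  rw [h]
  simp

end SU

theorem sum_classes (hd : 2 ≤ d) (μ t : ℝ) (A : Finset (Zd d)) (hA : NConn A) (m : ℕ) (hm : 1 ≤ m)
    {κ : ℝ} (hκ : 0 < κ) (T : ℕ → Finset (Zd d) → ENNReal)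
    (hT : ∀ s L Y DL OL, M.int A ((M.Class A s (κ * A.card) L Y DL OL).indicator (M.w μ t A)) ≤
      T s L) :
    M.xi μ t A ≤
      ∑ s ∈ Finset.Ico 1 m, ∑ L ∈ (Fam (fatr (M.r + 2) A) s).filter
        (fun L => κ * A.card ≤ 2 * s ^ 3 * num L s), 4 ^ L.card * T s L +
      ∑ L ∈ Fam (fatr (M.r + 2) A) m, 4 ^ L.card * T m L := by
  classical
  set F : ℕ → Finset (Finset (Zd d)) := fun s => (Fam (fatr (M.r + 2) A) s).filter
    (fun L => κ * A.card ≤ 2 * s ^ 3 * num L s) with hF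
  have hpt : ∀ ω, M.w μ t A ω ≤
      (∑ s ∈ Finset.Ico 1 m, ∑ L ∈ F s, SU.gg M μ t A s (κ * A.card) L ω) +
      ∑ L ∈ Fam (fatr (M.r + 2) A) m, SU.gg M μ t A m (κ * A.card) L ω := by
    intro ω
    by_cases hω : M.cp id A ω
    · obtain ⟨s, L, Y, DL, OL, h1, h2, h3, h4, h5, h6⟩ := SU.exists_class M hd hA hm hκ hω
      have hle := SU.le_gg M (μ := μ) (t := t) h6 h4 h5
      rcases h2 with rfl | ⟨h2, h7⟩
      · refine le_trans ?_ le_add_self
        exact hle.trans (Finset.single_le_sum (f := fun L => SU.gg M μ t A s (κ * A.card) L ω)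
          (fun _ _ => zero_le) h3)
      · refine le_trans ?_ le_self_add
        refine hle.trans ?_
        have h8 : L ∈ F s := mem_filter.2 ⟨h3, h7⟩
        refine (Finset.single_le_sum (f := fun L => SU.gg M μ t A s (κ * A.card) L ω)
          (fun _ _ => zero_le) h8).trans ?_
        exact Finset.single_le_sum
          (f := fun s => ∑ L ∈ F s, SU.gg M μ t A s (κ * A.card) L ω)
          (fun _ _ => zero_le) (Finset.mem_Ico.2 ⟨h1, h2⟩)
    · rw [Bas.w_of_not M hω]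
      exact zero_le
  have hm2 : Measurable fun ω => ∑ s ∈ Finset.Ico 1 m, ∑ L ∈ F s,
      SU.gg M μ t A s (κ * A.card) L ω :=
    Finset.measurable_fun_sum _ fun s _ => Finset.measurable_fun_sum _ fun L _ =>
      SU.measurable_gg M μ t A s _ L
  unfold Mx.xi
  refine (Bas.int_mono M A hpt).trans ?_
  rw [Bas.int_add M A hm2]
  rw [Bas.int_sum M (Finset.Ico 1 m) (fun s _ => Finset.measurable_fun_sum _ fun L _ =>
      SU.measurable_gg M μ t A s _ L),
    Bas.int_sum M (Fam (fatr (M.r + 2) A) m) (fun L _ => SU.measurable_gg M μ t A m _ L)]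
  refine add_le_add ?_ ?_
  · refine sum_le_sum fun s _ => ?_
    rw [Bas.int_sum M (F s) (fun L _ => SU.measurable_gg M μ t A s _ L)]
    exact sum_le_sum fun L _ => SU.int_gg M μ t A s _ L fun Y DL OL => hT s L Y DL OL
  · exact sum_le_sum fun L _ => SU.int_gg M μ t A m _ L fun Y DL OL => hT m L Y DL OL

theorem sum_classes_one (hd : 2 ≤ d) (μ t : ℝ) (A : Finset (Zd d)) (hA : NConn A)
    (T : Finset (Zd d) → ENNReal)
    (hT : ∀ L Y DL OL, M.int A ((M.Class A 1 0 L Y DL OL).indicator (M.w μ t A)) ≤ T L) :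
    M.xi μ t A ≤ ∑ L ∈ (fatr (M.r + 2) A).powerset, 4 ^ L.card * T L := by
  classical
  have hpt : ∀ ω, M.w μ t A ω ≤
      ∑ L ∈ (fatr (M.r + 2) A).powerset, SU.gg M μ t A 1 0 L ω := by
    intro ω
    by_cases hω : M.cp id A ω
    · obtain ⟨L, Y, DL, OL, h3, h4, h5, _, h6⟩ :=
        SU.ex_class M hd hA hω 1 0 (SU.fill_one (M.bad A ω))
      have hle := SU.le_gg M (μ := μ) (t := t) h6 h4 h5
      have h7 : L ∈ (fatr (M.r + 2) A).powerset := mem_powerset.2 (SU.mem_Fam.1 h3).1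
      exact hle.trans (Finset.single_le_sum (f := fun L => SU.gg M μ t A 1 0 L ω)
          (fun _ _ => zero_le) h7)
    · rw [Bas.w_of_not M hω]
      exact zero_le
  unfold Mx.xi
  refine (Bas.int_mono M A hpt).trans ?_
  rw [Bas.int_sum M _ (fun L _ => SU.measurable_gg M μ t A 1 0 L)]
  exact sum_le_sum fun L _ => SU.int_gg M μ t A 1 0 L fun Y DL OL => hT L Y DL OL
-- END ROW SU

end Pool.Agent.Mix
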